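import Pool.Agent.K3h49.Leo.Rec

/-!
# The orderings of the solutions of a three-term recurrence
-/

set_option autoImplicit false

namespace Pool.Agent.K3h49.Leo

theorem closed_form (d : ℕ) (u y : ℕ → ℝ) (β : ℝ) (hu : ∀ i, i + 2 ≤ d → u i + u (i + 2) = β * u (i + 1))
    (hy : ∀ i, y i + y (i + 2) = β * y (i + 1)) (h0 : u 0 = y 0) (h1 : 1 ≤ d → u 1 = y 1) :
    ∀ i, i ≤ d → u i = y i := by
  intro i
  induction i using Nat.strong_induction_on with
  | _ i ih =>
    intro hi
    match i, ih, hi with
    | 0, _, _ => exact h0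
    | 1, _, hi => exact h1 hi
    | (k + 2), ih, hi =>
      have a := hu k hi
      have b := hy k
      have c := ih k (by omega) (by omega)
      have e := ih (k + 1) (by omega) (by omega)
      rw [c, e] at a
      linarith

theorem same_of_eq {d : ℕ} {x y : ℕ → ℝ} (h : ∀ i, i ≤ d → x i = y i) : SameOrder d x y :=
  fun i j hi hj => by rw [h i hi, h j hj]

theorem same_mul {d : ℕ} {x y : ℕ → ℝ} (m : ℝ) (hm : 0 < m) (h : SameOrder d x y) :
    SameOrder d (fun i => m * x i) y := by
  intro i j hi hj
  rw [← h i j hi hj]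
  exact mul_lt_mul_iff_right₀ hm

/-- the form `m cosh (x + r)` -/
theorem exp_cosh (A B : ℝ) (hA : 0 < A) (hB : 0 < B) :
    ∃ m r : ℝ, 0 < m ∧ ∀ x, A * Real.exp x + B * Real.exp (-x) = m * Real.cosh (x + r) := by
  refine ⟨2 * Real.sqrt (A * B), Real.log (Real.sqrt (A / B)), by positivity, fun x => ?_⟩
  have h1 : 0 < Real.sqrt (A / B) := by positivity
  rw [Real.cosh_eq, neg_add, Real.exp_add, Real.exp_add, Real.exp_neg (Real.log _),
    Real.exp_log h1]
  have h2 : Real.sqrt (A * B) * Real.sqrt (A / B) = A := by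
    rw [← Real.sqrt_mul (by positivity)]
    have : A * B * (A / B) = A ^ 2 := by field_simp
    rw [this, Real.sqrt_sq hA.le]
  have h3 : Real.sqrt (A * B) * (Real.sqrt (A / B))⁻¹ = B := by
    rw [← Real.sqrt_inv, ← Real.sqrt_mul (by positivity)]
    have : A * B * (A / B)⁻¹ = B ^ 2 := by field_simp
    rw [this, Real.sqrt_sq hB.le]
  linear_combination - Real.exp x * h2 - Real.exp (-x) * h3

/-- the form `m sinh (x + r)` -/
theorem exp_sinh (A B : ℝ) (hA : 0 < A) (hB : 0 < B) :
    ∃ m r : ℝ, 0 < m ∧ ∀ x, A * Real.exp x - B * Real.exp (-x) = m * Real.sinh (x + r) := by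
  refine ⟨2 * Real.sqrt (A * B), Real.log (Real.sqrt (A / B)), by positivity, fun x => ?_⟩
  have h1 : 0 < Real.sqrt (A / B) := by positivity
  rw [Real.sinh_eq, neg_add, Real.exp_add, Real.exp_add, Real.exp_neg (Real.log _),
    Real.exp_log h1]
  have h2 : Real.sqrt (A * B) * Real.sqrt (A / B) = A := by
    rw [← Real.sqrt_mul (by positivity)]
    have : A * B * (A / B) = A ^ 2 := by field_simp
    rw [this, Real.sqrt_sq hA.le]
  have h3 : Real.sqrt (A * B) * (Real.sqrt (A / B))⁻¹ = B := by
    rw [← Real.sqrt_inv, ← Real.sqrt_mul (by positivity)]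
    have : A * B * (A / B)⁻¹ = B ^ 2 := by field_simp
    rw [this, Real.sqrt_sq hB.le]
  linear_combination - Real.exp x * h2 + Real.exp (-x) * h3

/-- exponential solutions of the recurrence with `β > 2` -/
theorem exp_form (d : ℕ) (u : ℕ → ℝ) (β : ℝ) (hβ : 2 < β)
    (hu : ∀ i, i + 2 ≤ d → u i + u (i + 2) = β * u (i + 1)) :
    ∃ s A B : ℝ, 0 < s ∧ ∀ i : ℕ, i ≤ d → u i = A * Real.exp (s * i) + B * Real.exp (-(s * i)) := by
  set r := Real.sqrt (β ^ 2 - 4) with hr
  have hr2 : r ^ 2 = β ^ 2 - 4 := Real.sq_sqrt (by nlinarith)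
  have hr0 : 0 < r := Real.sqrt_pos.2 (by nlinarith)
  set q := (β + r) / 2 with hq
  have hq1 : 1 < q := by rw [hq]; linarith
  have hq0 : 0 < q := by linarith
  have hqβ : q ^ 2 + 1 = β * q := by rw [hq]; linear_combination hr2 / 4
  have hqi : q⁻¹ ^ 2 + 1 = β * q⁻¹ := by
    field_simp
    linear_combination hqβ
  have hqq : q - q⁻¹ ≠ 0 := by
    have : q⁻¹ < 1 := inv_lt_one_of_one_lt₀ hq1
    exact (by linarith : 0 < q - q⁻¹).ne'
  refine ⟨Real.log q, (u 1 - u 0 * q⁻¹) / (q - q⁻¹), u 0 - (u 1 - u 0 * q⁻¹) / (q - q⁻¹),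
    Real.log_pos hq1, ?_⟩
  have e1 : ∀ i : ℕ, Real.exp (Real.log q * i) = q ^ i := fun i => by
    rw [mul_comm, Real.exp_nat_mul, Real.exp_log hq0]
  have e2 : ∀ i : ℕ, Real.exp (-(Real.log q * i)) = q⁻¹ ^ i := fun i => by
    rw [Real.exp_neg, e1, inv_pow]
  intro i hi
  rw [e1, e2]
  revert i
  apply closed_form d u _ β hu
  · intro i
    have a : q ^ (i + 2) + q ^ i = β * q ^ (i + 1) := by
      rw [pow_add, pow_add, pow_one]; linear_combination q ^ i * hqβ
    have b : q⁻¹ ^ (i + 2) + q⁻¹ ^ i = β * q⁻¹ ^ (i + 1) := by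
      rw [pow_add, pow_add, pow_one]; linear_combination q⁻¹ ^ i * hqi
    linear_combination ((u 1 - u 0 * q⁻¹) / (q - q⁻¹)) * a +
      (u 0 - (u 1 - u 0 * q⁻¹) / (q - q⁻¹)) * b
  · simp
  · intro _
    rw [pow_one, pow_one]
    have : (u 1 - u 0 * q⁻¹) / (q - q⁻¹) * (q - q⁻¹) = u 1 - u 0 * q⁻¹ := div_mul_cancel₀ _ hqq
    linear_combination -this

theorem alt_same {d : ℕ} {P Q : ℕ → ℝ} (hP : ∀ i, i ≤ d → 0 < P i) (hQ : ∀ i, i ≤ d → 0 < Q i)
    (h : SameOrder d P Q) : SameOrder d (fun i => (-1) ^ i * P i) (fun i => (-1) ^ i * Q i) := by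
  intro i j hi hj
  have h1 := h i j hi hj
  have h2 := h j i hj hi
  have := hP i hi
  have := hP j hj
  have := hQ i hi
  have := hQ j hj
  rcases Nat.even_or_odd i with ei | ei <;> rcases Nat.even_or_odd j with ej | ej <;>
    simp only [ei.neg_one_pow, ej.neg_one_pow, one_mul, neg_mul, neg_lt_neg_iff]
  · exact h1
  · constructor <;> intro h <;> linarith
  · constructor <;> intro h <;> linarith
  · exact h2

theorem exp_strict {A B s : ℝ} (hs : 0 < s) (hA : 0 ≤ A) (hB : B ≤ 0) (hAB : A ≠ 0 ∨ B ≠ 0)
    {i j : ℕ} (hij : i < j) : A * Real.exp (s * i) + B * Real.exp (-(s * i)) <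
      A * Real.exp (s * j) + B * Real.exp (-(s * j)) := by
  have h1 : s * (i : ℝ) < s * j := mul_lt_mul_of_pos_left (by exact_mod_cast hij) hs
  have h2 := Real.exp_lt_exp.2 h1
  have h3 := Real.exp_lt_exp.2 (neg_lt_neg h1)
  rcases hA.lt_or_eq with hA | hA
  · have := mul_lt_mul_of_pos_left h2 hA
    have := mul_le_mul_of_nonpos_left h3.le hB
    linarith
  · have hB' : B < 0 := lt_of_le_of_ne hB (by
      rcases hAB with h | h
      · exact absurd hA.symm h
      · exact h)
    have := mul_lt_mul_of_neg_left h3 hB'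
    rw [← hA]
    linarith

/-- the solutions for `β > 2` -/
theorem typeT_of_gt (d : ℕ) (u : ℕ → ℝ) (β : ℝ) (hβ : 2 < β) (hne : 1 ≤ d → u 0 ≠ u 1)
    (hu : ∀ i, i + 2 ≤ d → u i + u (i + 2) = β * u (i + 1)) : TypeT d u := by
  rcases Nat.eq_zero_or_pos d with hd | hd
  · exact typeT_of_strictMono d u (fun i j hi hj => by omega)
  obtain ⟨s, A, B, hs, h⟩ := exp_form d u β hβ hu
  have hAB : A ≠ 0 ∨ B ≠ 0 := by
    by_contra hc
    push Not at hc
    apply hne hd
    rw [h 0 (by omega), h 1 hd, hc.1, hc.2]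
    simp
  have pos : ∀ A B : ℝ, 0 < A → 0 < B →
      TypeT d (fun i => A * Real.exp (s * i) + B * Real.exp (-(s * i))) := by
    intro A B hA hB
    obtain ⟨m, r, hm, hc⟩ := exp_cosh A B hA hB
    refine TypeT.of_same ?_ (typeT_abs d s r)
    intro i j _ _
    beta_reduce
    rw [hc, hc, mul_lt_mul_iff_right₀ hm, Real.cosh_lt_cosh]
  refine TypeT.of_same (same_of_eq h) ?_
  rcases lt_trichotomy A 0 with hA | hA | hA
  · rcases lt_or_ge B 0 with hB | hB
    · have := typeT_neg (pos (-A) (-B) (by linarith) (by linarith))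
      refine TypeT.of_same (same_of_eq fun i _ => ?_) this
      ring
    · refine typeT_of_strictAnti d _ fun i j hij hj => ?_
      have := exp_strict hs (A := -A) (B := -B) (by linarith) (by linarith)
        (by rcases hAB with h | h
            · left; simpa using h
            · right; simpa using h) hij
      beta_reduce
      linarith
  · rcases lt_or_ge B 0 with hB | hB
    · exact typeT_of_strictMono d _ fun i j hij hj => exp_strict hs hA.ge hB.le hAB hij
    · refine typeT_of_strictAnti d _ fun i j hij hj => ?_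
      have := exp_strict hs (A := -A) (B := -B) (by linarith) (by linarith)
        (by rcases hAB with h | h
            · left; simpa using h
            · right; simpa using h) hij
      beta_reduce
      linarith
  · rcases le_or_gt B 0 with hB | hB
    · exact typeT_of_strictMono d _ fun i j hij hj => exp_strict hs hA.le hB hAB hij
    · exact pos A B hA hB

/-- the solutions for `β < -2` -/
theorem type_of_lt (d : ℕ) (u : ℕ → ℝ) (β : ℝ) (hβ : β < -2) (hne : 1 ≤ d → u 0 ≠ u 1)
    (hu : ∀ i, i + 2 ≤ d → u i + u (i + 2) = β * u (i + 1)) : TypeT d u ∨ TypeH d u := by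
  rcases Nat.eq_zero_or_pos d with hd | hd
  · exact Or.inl (typeT_of_strictMono d u (fun i j hi hj => by omega))
  obtain ⟨s, A, B, hs, h⟩ := exp_form d (fun i => (-1) ^ i * u i) (-β) (by linarith) (by
    intro i hi
    have := hu i hi
    simp only [pow_add, pow_one, neg_one_sq]
    linear_combination (-1) ^ i * this)
  have hAB : A ≠ 0 ∨ B ≠ 0 := by
    by_contra hc
    push Not at hc
    apply hne hd
    have h0 := h 0 (by omega)
    have h1 := h 1 hd
    rw [hc.1, hc.2] at h0 h1
    simp at h0 h1
    rw [h0, h1]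
  have h' : ∀ i, i ≤ d → u i = (-1) ^ i * (A * Real.exp (s * i) + B * Real.exp (-(s * i))) := by
    intro i hi
    rw [← h i hi, ← mul_assoc, ← mul_pow]
    simp
  -- the sequence with positive coefficients
  have pos : ∀ A B : ℝ, 0 < A → 0 < B →
      TypeH d (fun i => (-1) ^ i * (A * Real.exp (s * i) + B * Real.exp (-(s * i)))) := by
    intro A B hA hB
    obtain ⟨m, r, hm, hc⟩ := exp_cosh A B hA hB
    refine ⟨s, r, Or.inl ?_⟩
    apply alt_same
    · intro i _; positivity
    · intro i _; exact Real.cosh_pos _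
    · intro i j _ _
      beta_reduce
      rw [hc, hc, mul_lt_mul_iff_right₀ hm]
  have posT : ∀ A B : ℝ, 0 < A → 0 < B →
      TypeT d (fun i => (-1) ^ i * (A * Real.exp (s * i) - B * Real.exp (-(s * i)))) := by
    intro A B hA hB
    obtain ⟨m, r, hm, hc⟩ := exp_sinh A B hA hB
    refine TypeT.of_same ?_ (typeT_alt d s r)
    have key : ∀ i : ℕ, (-1) ^ i * (A * Real.exp (s * i) - B * Real.exp (-(s * i))) =
        m * Real.sinh ((-1) ^ i * (s * i + r)) := by
      intro i
      rw [hc]
      rcases Nat.even_or_odd i with e | e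
      · simp [e.neg_one_pow]
      · rw [e.neg_one_pow, neg_one_mul, neg_one_mul, Real.sinh_neg]; ring
    intro i j _ _
    beta_reduce
    rw [key, key, mul_lt_mul_iff_right₀ hm, Real.sinh_lt_sinh]
  have posA : ∀ A : ℝ, 0 < A → TypeH d (fun i => (-1) ^ i * (A * Real.exp (s * i))) := by
    intro A hA
    refine ⟨s, 0, Or.inl ?_⟩
    apply alt_same
    · intro i _; positivity
    · intro i _; exact Real.cosh_pos _
    · intro i j _ _
      rw [mul_lt_mul_iff_right₀ hA, Real.exp_lt_exp, Real.cosh_lt_cosh, add_zero, add_zero,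
        abs_of_nonneg (by positivity), abs_of_nonneg (by positivity)]
  have posB : ∀ B : ℝ, 0 < B → TypeH d (fun i => (-1) ^ i * (B * Real.exp (-(s * i)))) := by
    intro B hB
    refine ⟨s, -(s * d), Or.inl ?_⟩
    apply alt_same
    · intro i _; positivity
    · intro i _; exact Real.cosh_pos _
    · intro i j hi hj
      have e : ∀ i : ℕ, i ≤ d → |s * i + -(s * d)| = s * (d - i) := by
        intro i hi
        have h1 : (i : ℝ) ≤ d := by exact_mod_cast hi
        rw [abs_of_nonpos (by nlinarith)]
        ring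
      rw [mul_lt_mul_iff_right₀ hB, Real.exp_lt_exp, Real.cosh_lt_cosh, e i hi, e j hj]
      constructor <;> intro h <;> linarith
  have fin : ∀ {x : ℕ → ℝ}, (∀ i, i ≤ d → u i = x i) → (TypeT d x ∨ TypeH d x) →
      TypeT d u ∨ TypeH d u := by
    intro x hx hy
    rcases hy with hy | hy
    · exact Or.inl (hy.of_same (same_of_eq hx))
    · exact Or.inr (hy.of_same (same_of_eq hx))
  rcases lt_trichotomy A 0 with hA | hA | hA
  · rcases lt_trichotomy B 0 with hB | hB | hB
    · exact fin (fun i hi => by rw [h' i hi]; ring)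
        (Or.inr (typeH_neg (pos (-A) (-B) (by linarith) (by linarith))))
    · exact fin (fun i hi => by rw [h' i hi, hB]; ring)
        (Or.inr (typeH_neg (posA (-A) (by linarith))))
    · exact fin (fun i hi => by rw [h' i hi]; ring)
        (Or.inl (typeT_neg (posT (-A) B (by linarith) hB)))
  · rcases lt_trichotomy B 0 with hB | hB | hB
    · exact fin (fun i hi => by rw [h' i hi, hA]; ring)
        (Or.inr (typeH_neg (posB (-B) (by linarith))))
    · exact absurd hAB (by simp [hA, hB])
    · exact fin (fun i hi => by rw [h' i hi, hA]; ring) (Or.inr (posB B hB))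
  · rcases lt_trichotomy B 0 with hB | hB | hB
    · exact fin (fun i hi => by rw [h' i hi]; ring) (Or.inl (posT A (-B) hA (by linarith)))
    · exact fin (fun i hi => by rw [h' i hi, hB]; ring) (Or.inr (posA A hA))
    · exact fin (fun i hi => by rw [h' i hi]) (Or.inr (pos A B hA hB))

/-- the solutions for `-2 < β < 2` -/
theorem typeT_of_mid (d : ℕ) (u : ℕ → ℝ) (β : ℝ) (hβ : -2 < β) (hβ' : β < 2)
    (hne : 1 ≤ d → u 0 ≠ u 1)
    (hu : ∀ i, i + 2 ≤ d → u i + u (i + 2) = β * u (i + 1)) : TypeT d u := by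
  rcases Nat.eq_zero_or_pos d with hd | hd
  · exact typeT_of_strictMono d u (fun i j hi hj => by omega)
  set φ := Real.arccos (β / 2) with hφ
  have hcos : Real.cos φ = β / 2 := Real.cos_arccos (by linarith) (by linarith)
  have hsin : Real.sin φ ≠ 0 := by
    rw [hφ, Real.sin_arccos]
    exact (Real.sqrt_pos.2 (by nlinarith)).ne'
  set a := u 0 with ha
  set b := (u 1 - u 0 * Real.cos φ) / Real.sin φ with hb
  have h1 : ∀ i, i ≤ d → u i = a * Real.cos (φ * i) + b * Real.sin (φ * i) := by
    apply closed_form d u _ β hu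
    · intro i
      have e1 : Real.cos (φ * ((i + 2 : ℕ) : ℝ)) + Real.cos (φ * (i : ℝ)) =
          β * Real.cos (φ * ((i + 1 : ℕ) : ℝ)) := by
        push_cast
        have : β = 2 * Real.cos φ := by linarith
        have e2 : φ * ((i : ℝ) + 2) = φ * (i + 1) + φ := by ring
        have e3 : φ * (i : ℝ) = φ * (i + 1) - φ := by ring
        rw [e2, e3, Real.cos_add, Real.cos_sub, this]
        ring
      have e4 : Real.sin (φ * ((i + 2 : ℕ) : ℝ)) + Real.sin (φ * (i : ℝ)) =
          β * Real.sin (φ * ((i + 1 : ℕ) : ℝ)) := by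
        push_cast
        have : β = 2 * Real.cos φ := by linarith
        have e2 : φ * ((i : ℝ) + 2) = φ * (i + 1) + φ := by ring
        have e3 : φ * (i : ℝ) = φ * (i + 1) - φ := by ring
        rw [e2, e3, Real.sin_add, Real.sin_sub, this]
        ring
      linear_combination a * e1 + b * e4
    · simp [ha]
    · intro _
      simp only [Nat.cast_one, mul_one, ha, hb]
      field_simp
      ring
  set z : ℂ := ⟨a, -b⟩ with hz
  have hz0 : z ≠ 0 := by
    intro h
    have h2 : a = 0 := congrArg Complex.re h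
    have h3 : -b = 0 := congrArg Complex.im h
    apply hne hd
    have h5 := h1 1 hd
    rw [h2, neg_eq_zero.1 h3] at h5
    simp at h5
    rw [h5, h2]
  have hR : 0 < ‖z‖ := norm_pos_iff.2 hz0
  have hc : ‖z‖ * Real.cos z.arg = a := by
    rw [Complex.cos_arg hz0]; field_simp; rfl
  have hs : ‖z‖ * Real.sin z.arg = -b := by
    rw [Complex.sin_arg]; field_simp; rfl
  refine ⟨φ, z.arg, ?_⟩
  intro i j hi hj
  have key : ∀ i, i ≤ d → u i = ‖z‖ * Real.cos (φ * i + z.arg) := by
    intro i hi
    rw [h1 i hi, Real.cos_add]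
    linear_combination (-Real.cos (φ * i)) * hc + (Real.sin (φ * i)) * hs
  rw [key i hi, key j hj, mul_lt_mul_iff_right₀ hR]

/-- **the orderings of the injective solutions of a three-term recurrence** -/
theorem classify (d : ℕ) (t : ℕ → ℝ) (β γ : ℝ)
    (hinj : ∀ i j, i ≤ d → j ≤ d → t i = t j → i = j)
    (h : ∀ i, i + 2 ≤ d → t i + t (i + 2) = β * t (i + 1) + γ) : TypeT d t ∨ TypeH d t := by
  rcases Nat.eq_zero_or_pos d with hd | hd
  · exact Or.inl (typeT_of_strictMono d t (fun i j hi hj => by omega))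
  have h01 : t 0 ≠ t 1 := fun h => absurd (hinj 0 1 (by omega) hd h) (by omega)
  by_cases hβ : β = 2
  · left
    set g := γ / 2 with hg
    set b := t 1 - t 0 - g with hb
    have h1 : ∀ i : ℕ, i ≤ d → t i = t 0 + b * i + g * i ^ 2 := by
      intro i
      induction i using Nat.strong_induction_on with
      | _ i ih =>
        intro hi
        match i, ih, hi with
        | 0, _, _ => simp
        | 1, _, _ => rw [hb]; push_cast; ring
        | (k + 2), ih, hi =>
          have a := h k hi
          have c := ih k (by omega) (by omega)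
          have e := ih (k + 1) (by omega) (by omega)
          have hγ : γ = 2 * g := by rw [hg]; ring
          rw [hβ, c, e, hγ] at a
          push_cast at a ⊢
          linear_combination a
    by_cases hg0 : g = 0
    · have hb0 : b ≠ 0 := by
        intro hb0
        apply h01
        rw [h1 0 (by omega), h1 1 hd, hb0, hg0]
        simp
      rcases lt_or_gt_of_ne hb0 with hb1 | hb1
      · refine typeT_of_strictAnti d t fun i j hij hj => ?_
        rw [h1 i (by omega), h1 j hj, hg0]
        have : (i : ℝ) < j := by exact_mod_cast hij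
        nlinarith
      · refine typeT_of_strictMono d t fun i j hij hj => ?_
        rw [h1 i (by omega), h1 j hj, hg0]
        have : (i : ℝ) < j := by exact_mod_cast hij
        nlinarith
    · have key : ∀ i j : ℕ, |(1 : ℝ) * i + b / (2 * g)| < |(1 : ℝ) * j + b / (2 * g)| ↔
          (i : ℝ) ^ 2 + b / g * i < (j : ℝ) ^ 2 + b / g * j := by
        intro i j
        rw [← sq_lt_sq]
        have e : ∀ i : ℕ, (1 * (i : ℝ) + b / (2 * g)) ^ 2 =
            (i : ℝ) ^ 2 + b / g * i + (b / (2 * g)) ^ 2 := by
          intro i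
          have : b / g = 2 * (b / (2 * g)) := by field_simp
          rw [this]; ring
        rw [e, e]
        constructor <;> intro h <;> linarith
      have hbg : ∀ i : ℕ, t 0 + b * i + g * i ^ 2 = g * ((i : ℝ) ^ 2 + b / g * i) + t 0 := by
        intro i
        field_simp
        ring
      rcases lt_or_gt_of_ne hg0 with hg1 | hg1
      · refine TypeT.of_same ?_ (typeT_neg (typeT_abs d 1 (b / (2 * g))))
        intro i j hi hj
        rw [neg_lt_neg_iff, key j i, h1 i hi, h1 j hj, hbg, hbg]
        constructor <;> intro h <;> nlinarith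
      · refine TypeT.of_same ?_ (typeT_abs d 1 (b / (2 * g)))
        intro i j hi hj
        rw [key i j, h1 i hi, h1 j hj, hbg, hbg]
        constructor <;> intro h <;> nlinarith
  · have hβ2 : 2 - β ≠ 0 := fun h => hβ (by linarith)
    set f := γ / (2 - β) with hf
    have hfγ : f * (2 - β) = γ := div_mul_cancel₀ _ hβ2
    set u : ℕ → ℝ := fun i => 1 * t i + -f with hu
    have hs : SameOrder d t u := same_affine d t 1 (-f) one_pos
    have hrec : ∀ i, i + 2 ≤ d → u i + u (i + 2) = β * u (i + 1) := by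
      intro i hi
      simp only [hu]
      linear_combination h i hi - hfγ
    have hne : 1 ≤ d → u 0 ≠ u 1 := fun _ h => h01 (by simpa [hu] using h)
    have fin : (TypeT d u ∨ TypeH d u) → TypeT d t ∨ TypeH d t := by
      intro hy
      rcases hy with hy | hy
      · exact Or.inl (hy.of_same hs)
      · exact Or.inr (hy.of_same hs)
    apply fin
    rcases lt_or_gt_of_ne hβ with h2 | h2
    · rcases lt_trichotomy β (-2) with h3 | h3 | h3
      · exact type_of_lt d u β h3 hne hrec
      · left
        refine TypeT.of_same (same_of_eq ?_) (typeT_alt d (-u 1 - u 0) (u 0))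
        apply closed_form d u _ β hrec
        · intro i
          rw [h3]
          push_cast
          simp only [pow_add, pow_one, neg_one_sq]
          ring
        · simp
        · intro _
          simp
      · exact Or.inl (typeT_of_mid d u β h3 h2 hne hrec)
    · exact Or.inl (typeT_of_gt d u β h2 hne hrec)

end Pool.Agent.K3h49.Leo
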