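import Pool.Agent.K3h49.Leo.Defs

/-!
# The three-term recurrence of the eigenvalue sequence
-/

set_option autoImplicit false

namespace Pool.Agent.K3h49.Leo

open Polynomial

section

variable {V : Type*} [AddCommGroup V] [Module ℝ V] {d : ℕ}

/-- the flag of a basis -/
def InFlag (w : Module.Basis (Fin (d + 1)) ℝ V) (k : ℕ) (x : V) : Prop :=
  ∀ i : Fin (d + 1), k < (i : ℕ) → w.repr x i = 0

variable {w : Module.Basis (Fin (d + 1)) ℝ V} {A : Module.End ℝ V}

theorem repr_apply_eq (w : Module.Basis (Fin (d + 1)) ℝ V) (A : Module.End ℝ V) (x : V)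
    (i : Fin (d + 1)) :
    w.repr (A x) i = ∑ j, w.repr x j * w.repr (A (w j)) i := by
  have h : A x = ∑ j, w.repr x j • A (w j) := by
    conv_lhs => rw [← w.sum_repr x, map_sum]
    simp only [map_smul]
  rw [h, map_sum, Finsupp.finsetSum_apply]
  simp only [map_smul, Finsupp.smul_apply, smul_eq_mul]

theorem InFlag.mono {k l : ℕ} (hkl : k ≤ l) {x : V} (h : InFlag w k x) : InFlag w l x :=
  fun i hi => h i (lt_of_le_of_lt hkl hi)

theorem InFlag.add {k : ℕ} {x y : V} (h : InFlag w k x) (h' : InFlag w k y) :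
    InFlag w k (x + y) := fun i hi => by simp [h i hi, h' i hi]

theorem InFlag.sub {k : ℕ} {x y : V} (h : InFlag w k x) (h' : InFlag w k y) :
    InFlag w k (x - y) := fun i hi => by simp [h i hi, h' i hi]

theorem InFlag.smul {k : ℕ} {x : V} (c : ℝ) (h : InFlag w k x) :
    InFlag w k (c • x) := fun i hi => by simp [h i hi]

/-- an operator with a Hessenberg matrix raises the flag by one -/
theorem InFlag.map (hA : ∀ i j : Fin (d + 1), (j : ℕ) + 1 < i → w.repr (A (w j)) i = 0)
    {k : ℕ} {x : V} (h : InFlag w k x) : InFlag w (k + 1) (A x) := by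
  intro i hi
  rw [repr_apply_eq]
  apply Finset.sum_eq_zero
  intro j _
  by_cases hj : k < (j : ℕ)
  · rw [h j hj, zero_mul]
  · rw [hA i j (by omega), mul_zero]

/-- the top coefficient under a Hessenberg operator -/
theorem top_coeff (hA : ∀ i j : Fin (d + 1), (j : ℕ) + 1 < i → w.repr (A (w j)) i = 0)
    {k : ℕ} (hk : k + 1 < d + 1) {x : V} (h : InFlag w k x) :
    w.repr (A x) ⟨k + 1, hk⟩ =
      w.repr x ⟨k, by omega⟩ * w.repr (A (w ⟨k, by omega⟩)) ⟨k + 1, hk⟩ := by
  rw [repr_apply_eq, Finset.sum_eq_single (⟨k, by omega⟩ : Fin (d + 1))]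
  · intro j _ hj
    by_cases hj1 : k < (j : ℕ)
    · rw [h j hj1, zero_mul]
    · have h2 : (j : ℕ) ≠ k := fun h3 => hj (Fin.ext h3)
      rw [hA _ j (by simp; omega), mul_zero]
  · intro h1; exact absurd (Finset.mem_univ _) h1

theorem pow_flag (hA : ∀ i j : Fin (d + 1), (j : ℕ) + 1 < i → w.repr (A (w j)) i = 0)
    (hA1 : ∀ i j : Fin (d + 1), (i : ℕ) = j + 1 → w.repr (A (w j)) i ≠ 0) (k : ℕ) :
    InFlag w k ((A ^ k) (w 0)) ∧ ∀ hk : k < d + 1, w.repr ((A ^ k) (w 0)) ⟨k, hk⟩ ≠ 0 := by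
  induction k with
  | zero =>
    refine ⟨fun i hi => ?_, fun hk => ?_⟩
    · have : i ≠ 0 := by
        intro h
        rw [h] at hi
        simp at hi
      simp [this.symm]
    · have : (⟨0, hk⟩ : Fin (d + 1)) = 0 := rfl
      simp [this]
  | succ k ih =>
    rw [pow_succ', Module.End.mul_apply]
    refine ⟨InFlag.map hA ih.1, fun hk => ?_⟩
    rw [top_coeff hA hk ih.1]
    exact mul_ne_zero (ih.2 (by omega)) (hA1 _ _ rfl)

/-- every vector of the flag is a polynomial in `A` applied to the first basis vector -/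
theorem exists_poly (hA : ∀ i j : Fin (d + 1), (j : ℕ) + 1 < i → w.repr (A (w j)) i = 0)
    (hA1 : ∀ i j : Fin (d + 1), (i : ℕ) = j + 1 → w.repr (A (w j)) i ≠ 0) (k : ℕ) (hk : k < d + 1) :
    ∀ x : V, InFlag w k x → ∃ P : ℝ[X], P.natDegree ≤ k ∧ x = (aeval A P) (w 0) := by
  induction k with
  | zero =>
    intro x hx
    refine ⟨C (w.repr x 0), by simp, ?_⟩
    have : x = w.repr x 0 • w 0 := by
      conv_lhs => rw [← w.sum_repr x]
      rw [Finset.sum_eq_single (0 : Fin (d + 1))]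
      · intro j _ hj
        rw [hx j (Nat.pos_of_ne_zero (fun h => hj (Fin.ext h))), zero_smul]
      · intro h; exact absurd (Finset.mem_univ _) h
    conv_lhs => rw [this]
    rw [aeval_C]
    rfl
  | succ k ih =>
    intro x hx
    set τ := w.repr ((A ^ (k + 1)) (w 0)) ⟨k + 1, hk⟩ with hτ
    have hτ0 : τ ≠ 0 := (pow_flag hA hA1 (k + 1)).2 hk
    set c := w.repr x ⟨k + 1, hk⟩ / τ with hc
    have h1 : InFlag w k (x - c • (A ^ (k + 1)) (w 0)) := by
      intro i hi
      rcases Nat.lt_or_ge (k + 1) i with h2 | h2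
      · simp [hx i h2, (pow_flag hA hA1 (k + 1)).1 i h2]
      · have h3 : i = ⟨k + 1, hk⟩ := Fin.ext (by simp; omega)
        rw [h3]
        simp only [map_sub, map_smul, Finsupp.coe_sub, Finsupp.coe_smul, Pi.sub_apply,
          Pi.smul_apply, smul_eq_mul]
        rw [← hτ, hc, div_mul_cancel₀ _ hτ0, sub_self]
    obtain ⟨P, hP, hP'⟩ := ih (by omega) _ h1
    refine ⟨P + C c * X ^ (k + 1), ?_, ?_⟩
    · refine (natDegree_add_le _ _).trans (max_le (by omega) ?_)
      exact natDegree_C_mul_X_pow_le _ _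
    · rw [map_add, LinearMap.add_apply, ← hP']
      simp

/-- the `v`-coordinates of a polynomial in `A` applied to a vector -/
theorem repr_aeval {v : Module.Basis (Fin (d + 1)) ℝ V} {θ : Fin (d + 1) → ℝ}
    (hv : ∀ i, A (v i) = θ i • v i) (P : ℝ[X]) (x : V) (i : Fin (d + 1)) :
    v.repr ((aeval A P) x) i = P.eval (θ i) * v.repr x i := by
  have h1 : ∀ (x : V), v.repr (A x) i = θ i * v.repr x i := by
    intro x
    rw [repr_apply_eq, Finset.sum_eq_single i]
    · rw [hv]; simp [mul_comm]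
    · intro j _ hj
      rw [hv]
      simp [hj]
    · intro h; exact absurd (Finset.mem_univ _) h
  have h2 : ∀ (n : ℕ) (x : V), v.repr ((A ^ n) x) i = θ i ^ n * v.repr x i := by
    intro n
    induction n with
    | zero => intro x; simp
    | succ n ih =>
      intro x
      rw [pow_succ', Module.End.mul_apply, h1, ih]
      ring
  induction P using Polynomial.induction_on' with
  | add p q hp hq =>
    rw [map_add, LinearMap.add_apply, map_add, Finsupp.add_apply, hp, hq, eval_add]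
    ring
  | monomial n a =>
    rw [← C_mul_X_pow_eq_monomial]
    simp [h2]
    ring

theorem repr_diag {v : Module.Basis (Fin (d + 1)) ℝ V} {θ : Fin (d + 1) → ℝ}
    (hv : ∀ i, A (v i) = θ i • v i) (x : V) (i : Fin (d + 1)) :
    v.repr (A x) i = θ i * v.repr x i := by
  rw [repr_apply_eq, Finset.sum_eq_single i]
  · rw [hv]; simp [mul_comm]
  · intro j _ hj
    rw [hv]
    simp [hj]
  · intro h; exact absurd (Finset.mem_univ _) h

/-- consecutive eigenvalues lie on a symmetric cubic curve -/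
theorem consecutive {v : Module.Basis (Fin (d + 1)) ℝ V} {As : Module.End ℝ V}
    {θ θs : Fin (d + 1) → ℝ} (hθs : Function.Injective θs)
    (hv : ∀ i, A (v i) = θ i • v i) (hw : ∀ i, As (w i) = θs i • w i)
    (hB : ∀ i j : Fin (d + 1), 1 < |(i : ℤ) - (j : ℤ)| → v.repr (As (v j)) i = 0)
    (hA : ∀ i j : Fin (d + 1), (j : ℕ) + 1 < i → w.repr (A (w j)) i = 0)
    (hA1 : ∀ i j : Fin (d + 1), (i : ℕ) = j + 1 → w.repr (A (w j)) i ≠ 0) (hd : 3 ≤ d) :
    ∃ c₁ c₂ c₃ : ℝ, ∀ i : ℕ, ∀ hi : i + 1 < d + 1,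
      θ ⟨i, by omega⟩ * θ ⟨i + 1, hi⟩ * (θ ⟨i, by omega⟩ - θ ⟨i + 1, hi⟩) =
        c₁ * (θ ⟨i, by omega⟩ - θ ⟨i + 1, hi⟩) + c₂ * (θ ⟨i, by omega⟩ ^ 2 - θ ⟨i + 1, hi⟩ ^ 2) +
          c₃ * (θ ⟨i, by omega⟩ ^ 3 - θ ⟨i + 1, hi⟩ ^ 3) := by
  classical
  -- the diagonal operator `Z`
  let t : ℕ → ℝ := fun i => if h : i < d + 1 then θ ⟨i, h⟩ else 0
  let z : ℕ → ℝ := fun i => - ∑ h ∈ Finset.range i, t h * t (h + 1) * (t h - t (h + 1))
  have ht : ∀ i : Fin (d + 1), t i = θ i := fun i => dif_pos i.2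
  have hz : ∀ i, z i - z (i + 1) = t i * t (i + 1) * (t i - t (i + 1)) := by
    intro i
    simp only [z, Finset.sum_range_succ]
    ring
  let Z : Module.End ℝ V := v.constr ℝ (fun i => z i • v i)
  have hZ : ∀ i, Z (v i) = (fun i : Fin (d + 1) => z i) i • v i := fun i => by simp [Z]
  -- the identity `A² A* A - A A* A² = Z A* - A* Z`
  have hM : ∀ x : V, A (A (As (A x))) - A (As (A (A x))) = Z (As x) - As (Z x) := by
    have : A * A * As * A - A * As * A * A = Z * As - As * Z := by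
      apply v.ext
      intro j
      apply v.repr.injective
      ext i
      simp only [LinearMap.sub_apply, Module.End.mul_apply, hv, hZ, map_smul, map_sub,
        Finsupp.coe_sub, Finsupp.coe_smul, Pi.sub_apply, Pi.smul_apply, smul_eq_mul]
      rw [repr_diag hv, repr_diag hv, repr_diag hZ]
      by_cases h1 : 1 < |(i : ℤ) - (j : ℤ)|
      · rw [hB i j h1]; ring
      · have h2 : (i : ℕ) = j ∨ (i : ℕ) = j + 1 ∨ (j : ℕ) = i + 1 := by
          rw [not_lt, abs_le] at h1
          omega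
        rcases h2 with h2 | h2 | h2
        · have h3 : i = j := Fin.ext h2
          rw [h3]; ring
        · have h3 := hz j
          rw [← h2, ht, ht] at h3
          linear_combination (v.repr (As (v j)) i) * h3
        · have h3 := hz i
          rw [← h2, ht, ht] at h3
          linear_combination -(v.repr (As (v j)) i) * h3
    intro x
    have h1 := congrArg (fun f : Module.End ℝ V => f x) this
    simpa [Module.End.mul_apply] using h1
  -- `As` preserves the flag
  have hAs : ∀ k x, InFlag w k x → InFlag w k (As x) := by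
    intro k x hx i hi
    rw [repr_diag hw, hx i hi, mul_zero]
  -- `Z w₀` is in the flag of order `3`
  have h0 : InFlag w 0 (w 0) := (pow_flag hA hA1 0).1
  have h3 : InFlag w 3 (Z (w 0)) := by
    intro i hi
    have h1 : InFlag w 3 (A (A (As (A (w 0)))) - A (As (A (A (w 0))))) :=
      ((hAs _ _ (h0.map hA)).map hA |>.map hA).sub ((hAs _ _ ((h0.map hA).map hA)).map hA)
    have h2 := h1 i hi
    rw [hM, hw, map_smul, map_sub, map_smul, Finsupp.sub_apply, Finsupp.smul_apply,
      repr_diag hw, smul_eq_mul, ← sub_mul] at h2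
    rcases mul_eq_zero.1 h2 with h4 | h4
    · exfalso
      have h5 : (0 : Fin (d + 1)) = i := hθs (sub_eq_zero.1 h4)
      rw [← h5] at hi
      simp at hi
    · exact h4
  obtain ⟨P, hP, hP'⟩ := exists_poly hA hA1 3 (by omega) _ h3
  -- the coordinates of `w₀` do not vanish
  have hω : ∀ i, v.repr (w 0) i ≠ 0 := by
    intro i hi
    obtain ⟨Q, _, hQ'⟩ := exists_poly hA hA1 d (by omega) (v i) (fun j hj => absurd j.2 (by omega))
    have h4 := repr_aeval hv Q (w 0) i
    rw [← hQ', hi] at h4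
    simp at h4
  have hzP : ∀ i : Fin (d + 1), z i = P.eval (θ i) := by
    intro i
    have h4 := repr_aeval hv P (w 0) i
    rw [← hP', repr_diag hZ] at h4
    exact mul_right_cancel₀ (hω i) h4
  have hev : ∀ x : ℝ, P.eval x = P.coeff 0 + P.coeff 1 * x + P.coeff 2 * x ^ 2 +
      P.coeff 3 * x ^ 3 := by
    intro x
    rw [Polynomial.eval_eq_sum_range' (lt_of_le_of_lt hP (by norm_num : 3 < 4))]
    simp [Finset.sum_range_succ]
  refine ⟨P.coeff 1, P.coeff 2, P.coeff 3, fun i hi => ?_⟩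
  have h4 := hz i
  have h5 := hzP ⟨i, by omega⟩
  have h6 := hzP ⟨i + 1, hi⟩
  have h7 := ht ⟨i, by omega⟩
  have h8 := ht ⟨i + 1, hi⟩
  simp only at h5 h6 h7 h8
  rw [h7, h8, h5, h6, hev, hev] at h4
  linear_combination -h4

end

end Pool.Agent.K3h49.Leo
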