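import Mathlib

/-!
# Counting the cells of a family of lines: the branching recursion
-/

set_option autoImplicit false

namespace Pool.Agent.K3h49.Leo

open Set

theorem encard_ker {α β γ : Type*} (G : Set α) (κ : α → β) (κ' : α → γ)
    (h : ∀ x ∈ G, ∀ y ∈ G, κ x = κ y ↔ κ' x = κ' y) : (κ '' G).encard = (κ' '' G).encard := by
  have h1 : (Prod.fst '' ((fun x => (κ x, κ' x)) '' G)).encard =
      ((fun x => (κ x, κ' x)) '' G).encard := by
    apply InjOn.encard_image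
    rintro _ ⟨x, hx, rfl⟩ _ ⟨y, hy, rfl⟩ hxy
    exact Prod.ext hxy ((h x hx y hy).1 hxy)
  have h2 : (Prod.snd '' ((fun x => (κ x, κ' x)) '' G)).encard =
      ((fun x => (κ x, κ' x)) '' G).encard := by
    apply InjOn.encard_image
    rintro _ ⟨x, hx, rfl⟩ _ ⟨y, hy, rfl⟩ hxy
    exact Prod.ext ((h x hx y hy).2 hxy) hxy
  rw [image_image] at h1 h2
  rw [h1, h2]

/-- the branching of the cells when one more line is added -/
theorem branch {β : Type*} (G : Set (ℝ × ℝ)) (κ : ℝ × ℝ → β) (l : ℝ × ℝ → ℝ) (v : β → ℤ)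
    (u : ℝ × ℝ)
    (hopen : ∀ x ∈ G, ∃ ε > 0, ∀ δ : ℝ, |δ| < ε → x + δ • u ∈ G ∧ κ (x + δ • u) = κ x)
    (hconv : ∀ x ∈ G, ∀ y ∈ G, κ x = κ y → ∀ c : ℝ, 0 ≤ c → c ≤ 1 →
      (1 - c) • x + c • y ∈ G ∧ κ ((1 - c) • x + c • y) = κ x)
    (hu : ∀ x (δ : ℝ), l (x + δ • u) = l x + δ)
    (haff : ∀ x y (c : ℝ), l ((1 - c) • x + c • y) = (1 - c) * l x + c * l y)
    (hb : ∀ x ∈ G, (v (κ x) : ℝ) < l x ∧ l x < v (κ x) + 2) :
    ((fun x => (κ x, ⌊l x⌋)) '' {x ∈ G | ∀ m : ℤ, l x ≠ m}).encard =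
      (κ '' G).encard + (κ '' {x ∈ G | ∃ m : ℤ, l x = m}).encard := by
  set Y := (fun x => (κ x, ⌊l x⌋)) '' {x ∈ G | ∀ m : ℤ, l x ≠ m} with hY
  set A : ℤ → Set β := fun e => κ '' {x ∈ G | (v (κ x) : ℝ) + e < l x ∧ l x < v (κ x) + e + 1}
    with hA
  have hYe : ∀ e : ℤ, {y ∈ Y | y.2 = v y.1 + e} = (fun b => (b, v b + e)) '' A e := by
    intro e
    ext ⟨b, m⟩
    constructor
    · rintro ⟨⟨x, ⟨hx, hx'⟩, h⟩, h2⟩
      simp only [Prod.mk.injEq] at h h2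
      refine ⟨b, ⟨x, ⟨hx, ?_⟩, h.1⟩, by rw [h2]⟩
      have h3 : ⌊l x⌋ = v (κ x) + e := by rw [h.2, h2, h.1]
      have h4 := Int.floor_le (l x)
      have h5 := Int.lt_floor_add_one (l x)
      rw [h3] at h4 h5
      push_cast at h4 h5
      refine ⟨lt_of_le_of_ne h4 ?_, h5⟩
      have := hx' (v (κ x) + e)
      push_cast at this
      exact fun h => this h.symm
    · rintro ⟨b', ⟨x, ⟨hx, hx1, hx2⟩, rfl⟩, h⟩
      simp only [Prod.mk.injEq] at h
      have h3 : ⌊l x⌋ = v (κ x) + e := by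
        rw [Int.floor_eq_iff]
        push_cast
        exact ⟨hx1.le, hx2⟩
      refine ⟨⟨x, ⟨hx, fun m' hm => ?_⟩, ?_⟩, ?_⟩
      · rw [hm] at hx1 hx2
        have h6 : v (κ x) + e < m' := by exact_mod_cast hx1
        have h7 : m' < v (κ x) + e + 1 := by exact_mod_cast hx2
        omega
      · simp only [Prod.mk.injEq]
        exact ⟨h.1, by rw [h3, h.2]⟩
      · simp only
        rw [← h.2, ← h.1]
  have hcard : ∀ e : ℤ, {y ∈ Y | y.2 = v y.1 + e}.encard = (A e).encard := by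
    intro e
    rw [hYe]
    apply InjOn.encard_image
    intro a _ b _ hab
    simp only [Prod.mk.injEq] at hab
    exact hab.1
  have hsplit : Y = {y ∈ Y | y.2 = v y.1 + 0} ∪ {y ∈ Y | y.2 = v y.1 + 1} := by
    ext y
    constructor
    · intro hy
      obtain ⟨x, ⟨hx, hx'⟩, rfl⟩ := hy
      have h1 := hb x hx
      have h4 : v (κ x) ≤ ⌊l x⌋ := Int.le_floor.2 h1.1.le
      have h5 : ⌊l x⌋ < v (κ x) + 2 := Int.floor_lt.2 (by push_cast; exact h1.2)
      have h6 : ⌊l x⌋ = v (κ x) + 0 ∨ ⌊l x⌋ = v (κ x) + 1 := by omega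
      rcases h6 with h6 | h6
      · exact Or.inl ⟨⟨x, ⟨hx, hx'⟩, rfl⟩, h6⟩
      · exact Or.inr ⟨⟨x, ⟨hx, hx'⟩, rfl⟩, h6⟩
    · rintro (h | h)
      · exact h.1
      · exact h.1
  have hdisj : Disjoint {y ∈ Y | y.2 = v y.1 + 0} {y ∈ Y | y.2 = v y.1 + 1} := by
    rw [Set.disjoint_left]
    rintro y ⟨_, h1⟩ ⟨_, h2⟩
    omega
  have hunion : A 0 ∪ A 1 = κ '' G := by
    ext b
    constructor
    · rintro (⟨x, ⟨hx, _⟩, rfl⟩ | ⟨x, ⟨hx, _⟩, rfl⟩)
      · exact ⟨x, hx, rfl⟩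
      · exact ⟨x, hx, rfl⟩
    · rintro ⟨x, hx, rfl⟩
      have h1 := hb x hx
      rcases lt_trichotomy (l x) (v (κ x) + 1) with h2 | h2 | h2
      · left
        refine ⟨x, ⟨hx, ?_, ?_⟩, rfl⟩
        · simpa using h1.1
        · simpa using h2
      · left
        obtain ⟨ε, hε, h3⟩ := hopen x hx
        set δ := -(min ε 1 / 2) with hδ
        have hm : 0 < min ε 1 := lt_min hε one_pos
        have h4 := h3 δ (by rw [hδ, abs_neg, abs_of_pos (by positivity)]; linarith [min_le_left ε 1])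
        refine ⟨x + δ • u, ⟨h4.1, ?_, ?_⟩, h4.2⟩
        · rw [hu, h4.2, h2, hδ]; push_cast; linarith [min_le_right ε 1]
        · rw [hu, h4.2, h2, hδ]; push_cast; linarith
      · right
        refine ⟨x, ⟨hx, ?_, ?_⟩, rfl⟩
        · push_cast; exact h2
        · push_cast; linarith [h1.2]
  have hinter : A 0 ∩ A 1 = κ '' {x ∈ G | ∃ m : ℤ, l x = m} := by
    ext b
    constructor
    · rintro ⟨⟨x, ⟨hx, hx1, hx2⟩, rfl⟩, ⟨y, ⟨hy, hy1, hy2⟩, hxy⟩⟩
      push_cast at hx1 hx2 hy1 hy2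
      rw [hxy] at hy1 hy2
      have hlt : l x < l y := by linarith
      set c := (v (κ x) + 1 - l x) / (l y - l x) with hc
      have hpos : 0 < l y - l x := by linarith
      have hc0 : 0 ≤ c := div_nonneg (by linarith) hpos.le
      have hc1 : c ≤ 1 := by rw [hc, div_le_one hpos]; linarith
      have h5 := hconv x hx y hy hxy.symm c hc0 hc1
      refine ⟨_, ⟨h5.1, v (κ x) + 1, ?_⟩, h5.2⟩
      rw [haff]
      have h6 : c * (l y - l x) = v (κ x) + 1 - l x := div_mul_cancel₀ _ hpos.ne'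
      push_cast
      linear_combination h6
    · rintro ⟨x, ⟨hx, m, hm⟩, rfl⟩
      have h1 := hb x hx
      have hm' : m = v (κ x) + 1 := by
        rw [hm] at h1
        have h2 : v (κ x) < m := by exact_mod_cast h1.1
        have h3 : m < v (κ x) + 2 := by exact_mod_cast h1.2
        omega
      have hl : l x = v (κ x) + 1 := by rw [hm, hm']; push_cast; rfl
      obtain ⟨ε, hε, h3⟩ := hopen x hx
      have hm0 : 0 < min ε 1 := lt_min hε one_pos
      constructor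
      · have h4 := h3 (-(min ε 1 / 2))
          (by rw [abs_neg, abs_of_pos (by positivity)]; linarith [min_le_left ε 1])
        refine ⟨_, ⟨h4.1, ?_, ?_⟩, h4.2⟩
        · rw [hu, h4.2, hl]; push_cast; linarith [min_le_right ε 1]
        · rw [hu, h4.2, hl]; push_cast; linarith
      · have h4 := h3 (min ε 1 / 2)
          (by rw [abs_of_pos (by positivity)]; linarith [min_le_left ε 1])
        refine ⟨_, ⟨h4.1, ?_, ?_⟩, h4.2⟩
        · rw [hu, h4.2, hl]; push_cast; linarith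
        · rw [hu, h4.2, hl]; push_cast; linarith [min_le_right ε 1]
  rw [hsplit, encard_union_eq hdisj, hcard, hcard, ← hunion, ← hinter,
    encard_union_add_encard_inter]

/-- the generic parameters -/
def Gen (D n : ℕ) : Set (ℝ × ℝ) :=
  {x | 0 < x.1 ∧ x.1 < 1 / 2 ∧ 0 < x.2 ∧ x.2 < 1 ∧
    (∀ r ∈ Finset.Icc 1 D, ∀ m : ℤ, x.1 * r ≠ m) ∧
    (∀ s ∈ Finset.Icc 1 n, ∀ m : ℤ, x.1 * s + x.2 ≠ m)}

/-- the cell of a parameter -/
noncomputable def cell (D n : ℕ) (x : ℝ × ℝ) : (ℕ → ℤ) × (ℕ → ℤ) :=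
  (fun r => if r ∈ Finset.Icc 1 D then ⌊x.1 * r⌋ else 0,
    fun s => if s ∈ Finset.Icc 1 n then ⌊x.1 * s + x.2⌋ else 0)

/-- the region of a cell -/
def region (D n : ℕ) (c : (ℕ → ℤ) × (ℕ → ℤ)) : Set (ℝ × ℝ) :=
  {x | 0 < x.1 ∧ x.1 < 1 / 2 ∧ 0 < x.2 ∧ x.2 < 1 ∧
    (∀ r ∈ Finset.Icc 1 D, (c.1 r : ℝ) < x.1 * r ∧ x.1 * r < c.1 r + 1) ∧
    (∀ s ∈ Finset.Icc 1 n, (c.2 s : ℝ) < x.1 * s + x.2 ∧ x.1 * s + x.2 < c.2 s + 1)}

theorem between {y : ℝ} {k : ℤ} (h : (k : ℝ) < y ∧ y < k + 1) : ⌊y⌋ = k ∧ ∀ m : ℤ, y ≠ m := by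
  refine ⟨Int.floor_eq_iff.2 ⟨h.1.le, h.2⟩, fun m hm => ?_⟩
  rw [hm] at h
  have h1 : k < m := by exact_mod_cast h.1
  have h2 : m < k + 1 := by exact_mod_cast h.2
  omega

theorem between' {y : ℝ} (h : ∀ m : ℤ, y ≠ m) : (⌊y⌋ : ℝ) < y ∧ y < ⌊y⌋ + 1 :=
  ⟨lt_of_le_of_ne (Int.floor_le y) (h _).symm, Int.lt_floor_add_one y⟩

theorem mem_region {D n : ℕ} {x : ℝ × ℝ} (hx : x ∈ Gen D n) : x ∈ region D n (cell D n x) := by
  obtain ⟨h1, h2, h3, h4, h5, h6⟩ := hx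
  refine ⟨h1, h2, h3, h4, fun r hr => ?_, fun s hs => ?_⟩
  · simp only [cell, if_pos hr]; exact between' (h5 r hr)
  · simp only [cell, if_pos hs]; exact between' (h6 s hs)

theorem of_mem_region {D n : ℕ} {x y : ℝ × ℝ} (hy : y ∈ region D n (cell D n x)) :
    y ∈ Gen D n ∧ cell D n y = cell D n x := by
  obtain ⟨h1, h2, h3, h4, h5, h6⟩ := hy
  refine ⟨⟨h1, h2, h3, h4, fun r hr => (between (h5 r hr)).2, fun s hs => (between (h6 s hs)).2⟩, ?_⟩
  refine Prod.ext (funext fun r => ?_) (funext fun s => ?_)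
  · by_cases hr : r ∈ Finset.Icc 1 D
    · have := (between (h5 r hr)).1
      simp only [cell, if_pos hr] at this ⊢
      exact this
    · simp only [cell, if_neg hr]
  · by_cases hs : s ∈ Finset.Icc 1 n
    · have := (between (h6 s hs)).1
      simp only [cell, if_pos hs] at this ⊢
      exact this
    · simp only [cell, if_neg hs]

theorem isOpen_region (D n : ℕ) (c : (ℕ → ℤ) × (ℕ → ℤ)) : IsOpen (region D n c) := by
  have e : region D n c = {x : ℝ × ℝ | 0 < x.1} ∩ {x | x.1 < 1 / 2} ∩ {x | 0 < x.2} ∩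
      {x | x.2 < 1} ∩ (⋂ r ∈ Finset.Icc 1 D, {x : ℝ × ℝ | (c.1 r : ℝ) < x.1 * r ∧
        x.1 * r < c.1 r + 1}) ∩ (⋂ s ∈ Finset.Icc 1 n, {x : ℝ × ℝ | (c.2 s : ℝ) < x.1 * s + x.2 ∧
        x.1 * s + x.2 < c.2 s + 1}) := by
    ext x
    simp only [region, mem_ofPred_eq, mem_inter_iff, mem_iInter]
    tauto
  rw [e]
  refine IsOpen.inter (IsOpen.inter (IsOpen.inter (IsOpen.inter (IsOpen.inter ?_ ?_) ?_) ?_) ?_) ?_
  · exact isOpen_lt continuous_const continuous_fst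
  · exact isOpen_lt continuous_fst continuous_const
  · exact isOpen_lt continuous_const continuous_snd
  · exact isOpen_lt continuous_snd continuous_const
  · refine isOpen_biInter_finset fun r _ => IsOpen.and ?_ ?_
    · exact isOpen_lt (by fun_prop) (by fun_prop)
    · exact isOpen_lt (by fun_prop) (by fun_prop)
  · refine isOpen_biInter_finset fun r _ => IsOpen.and ?_ ?_
    · exact isOpen_lt (by fun_prop) (by fun_prop)
    · exact isOpen_lt (by fun_prop) (by fun_prop)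

theorem segment_region {D n : ℕ} {c : (ℕ → ℤ) × (ℕ → ℤ)} {x y : ℝ × ℝ} (hx : x ∈ region D n c)
    (hy : y ∈ region D n c) (t : ℝ) (ht : 0 ≤ t) (ht' : t ≤ 1) :
    (1 - t) • x + t • y ∈ region D n c := by
  obtain ⟨h1, h2, h3, h4, h5, h6⟩ := hx
  obtain ⟨k1, k2, k3, k4, k5, k6⟩ := hy
  have comb : ∀ {a b p q : ℝ}, a < p → a < q → p < b → q < b → a < (1 - t) * p + t * q ∧
      (1 - t) * p + t * q < b := by
    intro a b p q hp hq hp' hq'
    rcases ht.eq_or_lt with h0 | h0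
    · rw [← h0]; constructor <;> linarith
    · have a1 := mul_nonneg (sub_nonneg.2 ht') (sub_nonneg.2 hp.le)
      have a2 := mul_pos h0 (sub_pos.2 hq)
      have a3 := mul_nonneg (sub_nonneg.2 ht') (sub_nonneg.2 hp'.le)
      have a4 := mul_pos h0 (sub_pos.2 hq')
      constructor <;> nlinarith
  have e1 : ((1 - t) • x + t • y).1 = (1 - t) * x.1 + t * y.1 := by simp
  have e2 : ((1 - t) • x + t • y).2 = (1 - t) * x.2 + t * y.2 := by simp
  refine ⟨?_, ?_, ?_, ?_, fun r hr => ?_, fun s hs => ?_⟩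
  · rw [e1]; exact (comb h1 k1 h2 k2).1
  · rw [e1]; exact (comb h1 k1 h2 k2).2
  · rw [e2]; exact (comb h3 k3 h4 k4).1
  · rw [e2]; exact (comb h3 k3 h4 k4).2
  · rw [e1]
    have := comb (h5 r hr).1 (k5 r hr).1 (h5 r hr).2 (k5 r hr).2
    have e : ((1 - t) * x.1 + t * y.1) * (r : ℝ) = (1 - t) * (x.1 * r) + t * (y.1 * r) := by ring
    rw [e]; exact this
  · rw [e1, e2]
    have := comb (h6 s hs).1 (k6 s hs).1 (h6 s hs).2 (k6 s hs).2
    have e : ((1 - t) * x.1 + t * y.1) * (s : ℝ) + ((1 - t) * x.2 + t * y.2) =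
      (1 - t) * (x.1 * s + x.2) + t * (y.1 * s + y.2) := by ring
    rw [e]; exact this

theorem hopen_gen (D n : ℕ) (u : ℝ × ℝ) : ∀ x ∈ Gen D n, ∃ ε > 0, ∀ δ : ℝ, |δ| < ε →
    x + δ • u ∈ Gen D n ∧ cell D n (x + δ • u) = cell D n x := by
  intro x hx
  have h1 := isOpen_region D n (cell D n x)
  have h2 : Continuous (fun δ : ℝ => x + δ • u) := by fun_prop
  have h3 := h1.preimage h2
  rw [Metric.isOpen_iff] at h3
  obtain ⟨ε, hε, h4⟩ := h3 0 (by simpa using mem_region hx)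
  refine ⟨ε, hε, fun δ hδ => ?_⟩
  have h5 : δ ∈ Metric.ball (0 : ℝ) ε := by simpa using hδ
  exact of_mem_region (h4 h5)

theorem hconv_gen (D n : ℕ) : ∀ x ∈ Gen D n, ∀ y ∈ Gen D n, cell D n x = cell D n y →
    ∀ c : ℝ, 0 ≤ c → c ≤ 1 → (1 - c) • x + c • y ∈ Gen D n ∧
      cell D n ((1 - c) • x + c • y) = cell D n x := by
  intro x hx y hy hxy c hc hc'
  have h1 := mem_region hx
  have h2 := mem_region hy
  rw [← hxy] at h2
  exact of_mem_region (segment_region h1 h2 c hc hc')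

end Pool.Agent.K3h49.Leo
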