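import Pool.Agent.K3h49.Leo.Count1

/-!
# Counting the cells: the closed formula
-/

set_option autoImplicit false

namespace Pool.Agent.K3h49.Leo

open Set

/-- the number of cells -/
noncomputable def P (D n : ℕ) : ℕ∞ := (cell D n '' Gen D n).encard

theorem cell_eq_iff {D n : ℕ} {x y : ℝ × ℝ} : cell D n x = cell D n y ↔
    (∀ r ∈ Finset.Icc 1 D, ⌊x.1 * (r : ℝ)⌋ = ⌊y.1 * (r : ℝ)⌋) ∧
    (∀ s ∈ Finset.Icc 1 n, ⌊x.1 * (s : ℝ) + x.2⌋ = ⌊y.1 * (s : ℝ) + y.2⌋) := by
  constructor
  · intro h
    rw [Prod.ext_iff] at h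
    refine ⟨fun r hr => ?_, fun s hs => ?_⟩
    · have := congrFun h.1 r
      simpa only [cell, if_pos hr] using this
    · have := congrFun h.2 s
      simpa only [cell, if_pos hs] using this
  · rintro ⟨h1, h2⟩
    refine Prod.ext (funext fun r => ?_) (funext fun s => ?_)
    · by_cases hr : r ∈ Finset.Icc 1 D
      · simp only [cell, if_pos hr, h1 r hr]
      · simp only [cell, if_neg hr]
    · by_cases hs : s ∈ Finset.Icc 1 n
      · simp only [cell, if_pos hs, h2 s hs]
      · simp only [cell, if_neg hs]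

theorem floor_wall {a z : ℝ} {m : ℤ} {r : ℝ} (h : a + z = m) (hr : ∀ k : ℤ, r ≠ k) :
    ⌊a - r + z⌋ = m - 1 - ⌊r⌋ := by
  have h1 := between' hr
  rw [Int.floor_eq_iff]
  push_cast
  constructor <;> linarith [h1.1, h1.2]

theorem rec_n (D n : ℕ) (hD : 1 ≤ D) : P D (n + 1) = P D n + P (max D (n + 1)) 0 := by
  set l : ℝ × ℝ → ℝ := fun x => x.1 * ((n + 1 : ℕ) : ℝ) + x.2 with hl
  have hbr := branch (Gen D n) (cell D n) l (fun c => if n = 0 then 0 else c.2 n) (0, 1)
    (hopen_gen D n _) (hconv_gen D n) (by intro x δ; simp [hl]; ring)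
    (by intro x y c; simp [hl]; ring) (by
      intro x hx
      obtain ⟨h1, h2, h3, h4, h5, h6⟩ := hx
      simp only [hl]
      push_cast
      by_cases hn : n = 0
      · subst hn
        simp only [if_true]
        push_cast
        constructor <;> linarith
      · simp only [if_neg hn]
        have hmem : n ∈ Finset.Icc 1 n := by simp; omega
        simp only [cell, if_pos hmem]
        have := between' (h6 n hmem)
        constructor <;> linarith [this.1, this.2])
  have hGen : {x ∈ Gen D n | ∀ m : ℤ, l x ≠ m} = Gen D (n + 1) := by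
    ext x
    simp only [Gen, mem_ofPred_eq, hl]
    constructor
    · rintro ⟨⟨h1, h2, h3, h4, h5, h6⟩, h7⟩
      refine ⟨h1, h2, h3, h4, h5, fun s hs => ?_⟩
      rcases Nat.lt_or_ge n s with h | h
      · have : s = n + 1 := by rw [Finset.mem_Icc] at hs; omega
        rw [this]; exact h7
      · exact h6 s (by rw [Finset.mem_Icc] at hs ⊢; omega)
    · rintro ⟨h1, h2, h3, h4, h5, h6⟩
      exact ⟨⟨h1, h2, h3, h4, h5, fun s hs => h6 s (by rw [Finset.mem_Icc] at hs ⊢; omega)⟩,
        h6 (n + 1) (by simp)⟩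
  rw [hGen] at hbr
  have e1 : P D (n + 1) = ((fun x => (cell D n x, ⌊l x⌋)) '' Gen D (n + 1)).encard := by
    refine encard_ker _ _ _ fun x _ y _ => ?_
    rw [cell_eq_iff, Prod.mk.injEq, cell_eq_iff]
    simp only [hl]
    constructor
    · rintro ⟨h1, h2⟩
      exact ⟨⟨h1, fun s hs => h2 s (by rw [Finset.mem_Icc] at hs ⊢; omega)⟩, h2 (n + 1) (by simp)⟩
    · rintro ⟨⟨h1, h2⟩, h3⟩
      refine ⟨h1, fun s hs => ?_⟩
      rcases Nat.lt_or_ge n s with h | h
      · have : s = n + 1 := by rw [Finset.mem_Icc] at hs; omega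
        rw [this]; exact h3
      · exact h2 s (by rw [Finset.mem_Icc] at hs ⊢; omega)
  rw [e1, hbr]
  congr 1
  -- the walls
  set X := {x ∈ Gen D n | ∃ m : ℤ, l x = m} with hX
  set N := max D (n + 1) with hN
  have hXN : ∀ x ∈ X, x ∈ Gen N 0 := by
    rintro x ⟨⟨h1, h2, h3, h4, h5, h6⟩, m, hm⟩
    simp only [hl] at hm
    push_cast at hm
    refine ⟨h1, h2, h3, h4, fun r hr k hk => ?_, by simp⟩
    rw [Finset.mem_Icc] at hr
    by_cases hrD : r ≤ D
    · exact h5 r (by rw [Finset.mem_Icc]; omega) k hk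
    · rcases Nat.lt_or_ge n r with h | h
      · have hr' : r = n + 1 := by omega
        rw [hr'] at hk
        push_cast at hk
        have h7 : x.2 = ((m - k : ℤ) : ℝ) := by push_cast; linarith
        rw [h7] at h3 h4
        have h8 : 0 < m - k := by exact_mod_cast h3
        have h9 : m - k < 1 := by exact_mod_cast h4
        omega
      · apply h6 (n + 1 - r) (by rw [Finset.mem_Icc]; omega) (m - k)
        rw [Nat.cast_sub (by omega)]
        push_cast
        linarith
  have key : ∀ x ∈ X, ∀ s ∈ Finset.Icc 1 n, ⌊x.1 * (s : ℝ) + x.2⌋ =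
      ⌊x.1 * ((n + 1 : ℕ) : ℝ)⌋ - ⌊x.1 * ((n + 1 - s : ℕ) : ℝ)⌋ := by
    intro x hx s hs
    have hx' := hXN x hx
    obtain ⟨⟨h1, h2, h3, h4, h5, h6⟩, m, hm⟩ := hx
    simp only [hl] at hm
    rw [Finset.mem_Icc] at hs
    have hm1 : ⌊x.1 * ((n + 1 : ℕ) : ℝ)⌋ = m - 1 := by
      rw [Int.floor_eq_iff]
      push_cast at hm ⊢
      constructor <;> linarith
    have h7 := floor_wall hm (r := x.1 * ((n + 1 - s : ℕ) : ℝ))
      (hx'.2.2.2.2.1 (n + 1 - s) (by rw [Finset.mem_Icc]; omega))
    rw [hm1, ← h7]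
    congr 1
    rw [Nat.cast_sub (by omega)]
    push_cast
    ring
  have e2 : (cell D n '' X).encard = (cell N 0 '' X).encard := by
    refine encard_ker _ _ _ fun x hx y hy => ?_
    rw [cell_eq_iff, cell_eq_iff]
    constructor
    · rintro ⟨h1, h2⟩
      refine ⟨fun r hr => ?_, by simp⟩
      rw [Finset.mem_Icc] at hr
      by_cases hrD : r ≤ D
      · exact h1 r (by rw [Finset.mem_Icc]; omega)
      · have hn1 : n ∈ Finset.Icc 1 n := by rw [Finset.mem_Icc]; omega
        have hfl : ∀ w ∈ X, ⌊w.1 * ((n + 1 - n : ℕ) : ℝ)⌋ = 0 := by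
          rintro w ⟨⟨w1, w2, _⟩, _⟩
          have : n + 1 - n = 1 := by omega
          rw [this, Int.floor_eq_iff]
          push_cast
          constructor <;> linarith
        have htop : ⌊x.1 * ((n + 1 : ℕ) : ℝ)⌋ = ⌊y.1 * ((n + 1 : ℕ) : ℝ)⌋ := by
          have := h2 n hn1
          rw [key x hx n hn1, key y hy n hn1, hfl x hx, hfl y hy] at this
          omega
        rcases Nat.lt_or_ge n r with h | h
        · have hr' : r = n + 1 := by omega
          rw [hr']; exact htop
        · have hs1 : n + 1 - r ∈ Finset.Icc 1 n := by rw [Finset.mem_Icc]; omega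
          have := h2 _ hs1
          rw [key x hx _ hs1, key y hy _ hs1] at this
          have e : n + 1 - (n + 1 - r) = r := by omega
          rw [e] at this
          omega
    · rintro ⟨h1, _⟩
      refine ⟨fun r hr => h1 r (by rw [Finset.mem_Icc] at hr ⊢; omega), fun s hs => ?_⟩
      rw [key x hx s hs, key y hy s hs]
      rw [Finset.mem_Icc] at hs
      rw [h1 (n + 1) (by rw [Finset.mem_Icc]; omega), h1 (n + 1 - s) (by rw [Finset.mem_Icc]; omega)]
  rw [e2]
  have e3 : cell N 0 '' X = cell N 0 '' Gen N 0 := by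
    apply Set.Subset.antisymm
    · exact image_mono hXN
    · rintro _ ⟨x, hx, rfl⟩
      obtain ⟨h1, h2, h3, h4, h5, h6⟩ := hx
      have hn1 : n + 1 ∈ Finset.Icc 1 N := by rw [Finset.mem_Icc]; omega
      have hb := between' (h5 (n + 1) hn1)
      set y : ℝ × ℝ := (x.1, ⌊x.1 * ((n + 1 : ℕ) : ℝ)⌋ + 1 - x.1 * ((n + 1 : ℕ) : ℝ)) with hy
      have hly : l y = ((⌊x.1 * ((n + 1 : ℕ) : ℝ)⌋ + 1 : ℤ) : ℝ) := by
        simp only [hl, hy]; push_cast; ring
      refine ⟨y, ⟨⟨h1, h2, ?_, ?_, ?_, ?_⟩, _, hly⟩, ?_⟩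
      · simp only [hy]; linarith [hb.2]
      · simp only [hy]; linarith [hb.1]
      · intro r hr
        exact h5 r (by rw [Finset.mem_Icc] at hr ⊢; omega)
      · intro s hs k hk
        rw [Finset.mem_Icc] at hs
        apply h5 (n + 1 - s) (by rw [Finset.mem_Icc]; omega)
          (⌊x.1 * ((n + 1 : ℕ) : ℝ)⌋ + 1 - k)
        simp only [hy] at hk
        rw [Nat.cast_sub (by omega)]
        push_cast at hk ⊢
        linarith
      · rw [cell_eq_iff]
        exact ⟨fun r _ => rfl, by simp⟩
  rw [e3]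
  rfl

/-- the number of `p` coprime to `q` with `0 < p < q / 2` -/
def half (q : ℕ) : ℕ := ((Finset.range q).filter fun p => 0 < p ∧ 2 * p < q ∧ q.Coprime p).card

theorem rec_D (N : ℕ) (hN : 1 ≤ N) : P (N + 1) 0 = P N 0 + half (N + 1) := by
  have hN0 : (0 : ℝ) < ((N + 1 : ℕ) : ℝ) := by positivity
  set l : ℝ × ℝ → ℝ := fun x => x.1 * ((N + 1 : ℕ) : ℝ) with hl
  have hNm : N ∈ Finset.Icc 1 N := by rw [Finset.mem_Icc]; omega
  have hbr := branch (Gen N 0) (cell N 0) l (fun c => c.1 N) (1 / ((N + 1 : ℕ) : ℝ), 0)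
    (hopen_gen N 0 _) (hconv_gen N 0) (by
      intro x δ
      simp only [hl, Prod.fst_add, Prod.smul_fst, smul_eq_mul]
      field_simp)
    (by intro x y c; simp [hl]; ring) (by
      intro x hx
      obtain ⟨h1, h2, h3, h4, h5, h6⟩ := hx
      simp only [hl, cell, if_pos hNm]
      push_cast
      have := between' (h5 N hNm)
      constructor <;> linarith [this.1, this.2])
  have hGen : {x ∈ Gen N 0 | ∀ m : ℤ, l x ≠ m} = Gen (N + 1) 0 := by
    ext x
    simp only [Gen, mem_ofPred_eq, hl]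
    constructor
    · rintro ⟨⟨h1, h2, h3, h4, h5, h6⟩, h7⟩
      refine ⟨h1, h2, h3, h4, fun s hs => ?_, by simp⟩
      rcases Nat.lt_or_ge N s with h | h
      · have : s = N + 1 := by rw [Finset.mem_Icc] at hs; omega
        rw [this]; exact h7
      · exact h5 s (by rw [Finset.mem_Icc] at hs ⊢; omega)
    · rintro ⟨h1, h2, h3, h4, h5, h6⟩
      exact ⟨⟨h1, h2, h3, h4, fun s hs => h5 s (by rw [Finset.mem_Icc] at hs ⊢; omega), by simp⟩,
        h5 (N + 1) (by simp)⟩
  rw [hGen] at hbr
  have e1 : P (N + 1) 0 = ((fun x => (cell N 0 x, ⌊l x⌋)) '' Gen (N + 1) 0).encard := by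
    refine encard_ker _ _ _ fun x _ y _ => ?_
    rw [cell_eq_iff, Prod.mk.injEq, cell_eq_iff]
    simp only [hl]
    constructor
    · rintro ⟨h1, h2⟩
      exact ⟨⟨fun s hs => h1 s (by rw [Finset.mem_Icc] at hs ⊢; omega), by simp⟩,
        h1 (N + 1) (by simp)⟩
    · rintro ⟨⟨h1, h2⟩, h3⟩
      refine ⟨fun s hs => ?_, by simp⟩
      rcases Nat.lt_or_ge N s with h | h
      · have : s = N + 1 := by rw [Finset.mem_Icc] at hs; omega
        rw [this]; exact h3
      · exact h1 s (by rw [Finset.mem_Icc] at hs ⊢; omega)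
  rw [e1, hbr]
  congr 1
  set X := {x ∈ Gen N 0 | ∃ m : ℤ, l x = m} with hX
  -- the cell is determined by the integer `m`
  have hfl : ∀ x ∈ X, ∀ m : ℤ, l x = m → ⌊x.1 * (N : ℝ)⌋ = m - 1 := by
    rintro x ⟨⟨h1, h2, _⟩, _⟩ m hm
    simp only [hl] at hm
    push_cast at hm
    rw [Int.floor_eq_iff]
    push_cast
    constructor <;> linarith
  have e2 : (cell N 0 '' X).encard = ((fun x => ⌊l x⌋) '' X).encard := by
    refine encard_ker _ _ _ fun x hx y hy => ?_
    obtain ⟨m, hm⟩ := hx.2
    obtain ⟨m', hm'⟩ := hy.2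
    rw [cell_eq_iff, hm, hm', Int.floor_intCast, Int.floor_intCast]
    constructor
    · rintro ⟨h1, _⟩
      have := h1 N hNm
      rw [hfl x hx m hm, hfl y hy m' hm'] at this
      omega
    · intro h
      refine ⟨fun r _ => ?_, by simp⟩
      have : x.1 = y.1 := by
        rw [h, ← hm'] at hm
        simp only [hl] at hm
        exact mul_right_cancel₀ hN0.ne' hm
      rw [this]
  rw [e2]
  have e3 : (fun x => ⌊l x⌋) '' X = (fun p : ℕ => (p : ℤ)) ''
      (((Finset.range (N + 1)).filter fun p => 0 < p ∧ 2 * p < N + 1 ∧ (N + 1).Coprime p :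
        Finset ℕ) : Set ℕ) := by
    ext m
    constructor
    · rintro ⟨x, hx, rfl⟩
      obtain ⟨m, hm⟩ := hx.2
      obtain ⟨⟨h1, h2, h3, h4, h5, h6⟩, _⟩ := hx
      simp only
      rw [hm, Int.floor_intCast]
      simp only [hl] at hm
      have hmpos : (0 : ℝ) < m := by rw [← hm]; positivity
      have hmpos' : 0 < m := by exact_mod_cast hmpos
      have hmlt : (2 : ℝ) * m < ((N + 1 : ℕ) : ℝ) := by rw [← hm]; nlinarith
      have hmlt' : 2 * m < ((N + 1 : ℕ) : ℤ) := by exact_mod_cast hmlt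
      obtain ⟨p, rfl⟩ := Int.eq_ofNat_of_zero_le hmpos'.le
      refine ⟨p, ?_, rfl⟩
      simp only [Finset.coe_filter, Finset.mem_range, mem_ofPred_eq]
      refine ⟨by omega, by omega, by omega, ?_⟩
      by_contra hc
      set g := (N + 1).gcd p with hg
      have hg1 : g ≠ 1 := hc
      have hg0 : 0 < g := Nat.gcd_pos_of_pos_left _ (by omega)
      obtain ⟨a, ha⟩ : g ∣ N + 1 := Nat.gcd_dvd_left _ _
      obtain ⟨b, hb⟩ : g ∣ p := Nat.gcd_dvd_right _ _
      have ha0 : 0 < a := by
        rcases Nat.eq_zero_or_pos a with h | h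
        · rw [h] at ha; omega
        · exact h
      have haN : a ≤ N := by
        have h2g : 2 ≤ g := by omega
        have : 2 * a ≤ g * a := Nat.mul_le_mul_right a h2g
        omega
      apply h5 a (by rw [Finset.mem_Icc]; omega) b
      have hx1 : x.1 = p / ((N + 1 : ℕ) : ℝ) := by
        rw [eq_div_iff hN0.ne']; exact_mod_cast hm
      rw [hx1, ha, hb]
      push_cast
      have : (g : ℝ) ≠ 0 := by positivity
      have : (a : ℝ) ≠ 0 := by positivity
      field_simp
    · rintro ⟨p, hp, rfl⟩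
      simp only [Finset.coe_filter, Finset.mem_range, mem_ofPred_eq] at hp
      obtain ⟨h1, h2, h3, h4⟩ := hp
      have hp0 : (0 : ℝ) < p := by exact_mod_cast h2
      have hlx : l ((p : ℝ) / ((N + 1 : ℕ) : ℝ), 1 / 2) = ((p : ℤ) : ℝ) := by
        simp only [hl]
        rw [div_mul_cancel₀ _ hN0.ne']
        simp
      refine ⟨((p : ℝ) / ((N + 1 : ℕ) : ℝ), 1 / 2), ⟨⟨by positivity, ?_, by norm_num, by norm_num,
        ?_, by simp⟩, _, hlx⟩, ?_⟩
      · simp only
        rw [div_lt_div_iff₀ hN0 (by norm_num)]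
        have : ((2 * p : ℕ) : ℝ) < ((N + 1 : ℕ) : ℝ) := by exact_mod_cast h3
        push_cast at this ⊢
        linarith
      · intro r hr m hm
        rw [Finset.mem_Icc] at hr
        simp only at hm
        have h7 : ((p * r : ℕ) : ℤ) = m * ((N + 1 : ℕ) : ℤ) := by
          have : (p : ℝ) * r = m * ((N + 1 : ℕ) : ℝ) := by
            rw [← hm]; field_simp
          exact_mod_cast this
        have h8 : ((N + 1 : ℕ) : ℤ) ∣ ((p * r : ℕ) : ℤ) := ⟨m, by rw [h7]; ring⟩
        have h9 : (N + 1) ∣ p * r := by exact_mod_cast h8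
        have h10 : (N + 1) ∣ r := h4.dvd_of_dvd_mul_left h9
        have := Nat.le_of_dvd (by omega) h10
        omega
      · simp only
        rw [hlx, Int.floor_intCast]
  rw [e3, InjOn.encard_image (fun a _ b _ h => by exact_mod_cast h), Set.encard_coe_eq_coe_finsetCard]
  rfl

theorem two_half (q : ℕ) (hq : 3 ≤ q) : 2 * half q = q.totient := by
  have h1 : q.totient = ((Finset.range q).filter fun p => q.Coprime p).card :=
    Nat.totient_eq_card_coprime q
  have h2 : (Finset.range q).filter (fun p => q.Coprime p) =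
      ((Finset.range q).filter fun p => 0 < p ∧ 2 * p < q ∧ q.Coprime p) ∪
      ((Finset.range q).filter fun p => q < 2 * p ∧ q.Coprime p) := by
    ext p
    simp only [Finset.mem_filter, Finset.mem_range, Finset.mem_union]
    constructor
    · rintro ⟨h3, h4⟩
      rcases lt_trichotomy (2 * p) q with h | h | h
      · left
        refine ⟨h3, ?_, h, h4⟩
        rcases Nat.eq_zero_or_pos p with h5 | h5
        · rw [h5, Nat.coprime_zero_right] at h4; omega
        · exact h5
      · exfalso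
        have : p ∣ q := ⟨2, by omega⟩
        have h6 : p ∣ q.gcd p := Nat.dvd_gcd this dvd_rfl
        rw [h4] at h6
        have := Nat.dvd_one.1 h6
        omega
      · right; exact ⟨h3, h, h4⟩
    · rintro (⟨h3, _, _, h4⟩ | ⟨h3, _, h4⟩)
      · exact ⟨h3, h4⟩
      · exact ⟨h3, h4⟩
  have h3 : Disjoint ((Finset.range q).filter fun p => 0 < p ∧ 2 * p < q ∧ q.Coprime p)
      ((Finset.range q).filter fun p => q < 2 * p ∧ q.Coprime p) := by
    rw [Finset.disjoint_left]
    intro p hp hp'
    simp only [Finset.mem_filter] at hp hp'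
    omega
  have h4 : ((Finset.range q).filter fun p => q < 2 * p ∧ q.Coprime p).card = half q := by
    unfold half
    apply Finset.card_bij (fun p _ => q - p)
    · intro p hp
      simp only [Finset.mem_filter, Finset.mem_range] at hp ⊢
      refine ⟨by omega, by omega, by omega, ?_⟩
      have := hp.2.2
      rwa [Nat.coprime_self_sub_right (by omega)]
    · intro p hp p' hp' h
      simp only [Finset.mem_filter, Finset.mem_range] at hp hp'
      omega
    · intro p hp
      simp only [Finset.mem_filter, Finset.mem_range] at hp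
      refine ⟨q - p, ?_, by omega⟩
      simp only [Finset.mem_filter, Finset.mem_range]
      refine ⟨by omega, by omega, ?_⟩
      rw [Nat.coprime_self_sub_right (by omega)]
      exact hp.2.2.2
  rw [h1, h2, Finset.card_union_of_disjoint h3, h4]
  unfold half
  ring

/-- the summatory function of Euler's function -/
def Phi (N : ℕ) : ℕ := ∑ k ∈ Finset.Icc 1 N, k.totient

theorem P_two : P 2 0 = 1 := by
  rw [P, Set.encard_eq_one]
  refine ⟨(fun _ => 0, fun _ => 0), ?_⟩
  have hz : ∀ x ∈ Gen 2 0, cell 2 0 x = (fun _ => 0, fun _ => 0) := by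
    rintro x ⟨h1, h2, h3, h4, h5, h6⟩
    refine Prod.ext (funext fun r => ?_) (funext fun s => ?_)
    · by_cases hr : r ∈ Finset.Icc 1 2
      · simp only [cell, if_pos hr]
        rw [Finset.mem_Icc] at hr
        have hr1 : (1 : ℝ) ≤ r := by exact_mod_cast hr.1
        have hr2 : (r : ℝ) ≤ 2 := by exact_mod_cast hr.2
        rw [Int.floor_eq_iff]
        push_cast
        constructor
        · positivity
        · nlinarith
      · simp only [cell, if_neg hr]
    · simp [cell]
  ext c
  simp only [mem_image, mem_singleton_iff]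
  constructor
  · rintro ⟨x, hx, rfl⟩
    exact hz x hx
  · rintro rfl
    have hx : ((1 / 4 : ℝ), (1 / 2 : ℝ)) ∈ Gen 2 0 := by
      refine ⟨by norm_num, by norm_num, by norm_num, by norm_num, fun r hr m hm => ?_, by simp⟩
      rw [Finset.mem_Icc] at hr
      simp only at hm
      have h1 : (r : ℝ) = 4 * m := by linarith
      have h2 : (r : ℤ) = 4 * m := by exact_mod_cast h1
      omega
    exact ⟨_, hx, hz _ hx⟩

theorem two_P (N : ℕ) (hN : 2 ≤ N) : 2 * P N 0 = Phi N := by
  induction N, hN using Nat.le_induction with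
  | base => rw [P_two]; decide
  | succ N hN ih =>
    rw [rec_D N (by omega), mul_add, ih]
    have h1 := two_half (N + 1) (by omega)
    have h2 : Phi (N + 1) = Phi N + (N + 1).totient := by
      unfold Phi
      rw [Finset.sum_Icc_succ_top (by omega)]
    rw [h2, ← h1]
    push_cast
    rfl

theorem P_sum (D n : ℕ) (hD : 1 ≤ D) :
    P D n = P D 0 + ∑ k ∈ Finset.range n, P (max D (k + 1)) 0 := by
  induction n with
  | zero => simp
  | succ n ih => rw [rec_n D n hD, ih, Finset.sum_range_succ, add_assoc]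

theorem two_P_formula (d : ℕ) (hd : 2 ≤ d) :
    2 * P d (2 * d - 2) =
      (((d + 1) * Phi d + ∑ N ∈ Finset.Icc (d + 1) (2 * d - 2), Phi N : ℕ) : ℕ∞) := by
  rw [P_sum d _ (by omega), mul_add, two_P d hd, Finset.mul_sum]
  have h1 : ∀ k ∈ Finset.range (2 * d - 2), 2 * P (max d (k + 1)) 0 = (Phi (max d (k + 1)) : ℕ∞) :=
    fun k _ => two_P _ (by omega)
  rw [Finset.sum_congr rfl h1]
  norm_cast
  have h2 : ∑ k ∈ Finset.range (2 * d - 2), Phi (max d (k + 1)) =
      d * Phi d + ∑ N ∈ Finset.Icc (d + 1) (2 * d - 2), Phi N := by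
    have h3 : Finset.range (2 * d - 2) = Finset.range d ∪ Finset.Ico d (2 * d - 2) := by
      ext k; simp only [Finset.mem_range, Finset.mem_union, Finset.mem_Ico]; omega
    have h4 : Disjoint (Finset.range d) (Finset.Ico d (2 * d - 2)) := by
      rw [Finset.disjoint_left]
      intro k hk hk'
      rw [Finset.mem_range] at hk
      rw [Finset.mem_Ico] at hk'
      omega
    rw [h3, Finset.sum_union h4]
    congr 1
    · have h6 : ∀ k ∈ Finset.range d, Phi (max d (k + 1)) = Phi d := by
        intro k hk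
        rw [Finset.mem_range] at hk
        rw [max_eq_left (by omega)]
      rw [Finset.sum_congr rfl h6, Finset.sum_const, Finset.card_range, smul_eq_mul]
    · have h5 : Finset.Icc (d + 1) (2 * d - 2) = Finset.Ico (d + 1) (2 * d - 2 + 1) := by
        ext k; simp only [Finset.mem_Icc, Finset.mem_Ico]; omega
      rw [h5, ← Finset.sum_Ico_add']
      refine Finset.sum_congr rfl fun k hk => ?_
      rw [Finset.mem_Ico] at hk
      rw [max_eq_right (by omega)]
  rw [h2]
  ring

end Pool.Agent.K3h49.Leo
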