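import Pool.Agent.K3h49.Leo.Count2

/-!
# Counting the orderings of sequences of cosines
-/

set_option autoImplicit false

namespace Pool.Agent.K3h49.Leo

open Set

theorem exists_sort {m : ℕ} (f : Fin m → ℝ) (hf : Function.Injective f) :
    ∃ σ : Equiv.Perm (Fin m), StrictAnti fun k => f (σ k) := by
  refine ⟨Tuple.sort (fun i => - f i), ?_⟩
  have h1 := Tuple.monotone_sort (fun i => - f i)
  intro k l hkl
  have h2 := h1 hkl.le
  simp only [Function.comp_apply] at h2
  refine lt_of_le_of_ne (by linarith) fun h => ?_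
  have := (Tuple.sort (fun i => - f i)).injective (hf h)
  exact hkl.ne this.symm

theorem strictAnti_iff {m : ℕ} {f : Fin m → ℝ} {σ : Equiv.Perm (Fin m)}
    (h : StrictAnti fun k => f (σ k)) (i j : Fin m) : σ.symm i < σ.symm j ↔ f j < f i := by
  have := h.lt_iff_gt (a := σ.symm j) (b := σ.symm i)
  simp only [Equiv.apply_symm_apply] at this
  exact this.symm

theorem perm_unique {m : ℕ} {f : Fin m → ℝ} {σ τ : Equiv.Perm (Fin m)}
    (h : StrictAnti fun k => f (σ k)) (h' : StrictAnti fun k => f (τ k)) : σ = τ := by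
  have h1 : ∀ i j, σ.symm i < σ.symm j ↔ τ.symm i < τ.symm j := fun i j => by
    rw [strictAnti_iff h, strictAnti_iff h']
  have h2 : StrictMono (fun k => τ.symm (σ k)) := by
    intro k l hkl
    rw [← h1, Equiv.symm_apply_apply, Equiv.symm_apply_apply]
    exact hkl
  have h3 : ∀ k, τ.symm (σ k) = k := by
    have h4 : (σ.trans τ.symm : Fin m → Fin m) = id := by
      have h5 : StrictMono (σ.trans τ.symm : Fin m → Fin m) := h2
      have h6 := Subsingleton.elim (h5.orderIsoOfSurjective _ (σ.trans τ.symm).surjective)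
        (OrderIso.refl (Fin m))
      funext k
      have h7 := congrArg (fun e : Fin m ≃o Fin m => e k) h6
      simpa using h7
    intro k
    exact congrFun h4 k
  ext k
  have := h3 k
  rw [Equiv.symm_apply_eq] at this
  rw [this]

/-- the sign of the sine -/
theorem sin_pos_iff_even {y : ℝ} (hy : ∀ m : ℤ, y ≠ m) :
    (0 < Real.sin (Real.pi * y) ↔ Even ⌊y⌋) ∧ Real.sin (Real.pi * y) ≠ 0 := by
  have h1 : Real.sin (Real.pi * y) = (-1) ^ ⌊y⌋ * Real.sin (Real.pi * Int.fract y) := by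
    rw [← Real.sin_add_int_mul_pi]
    congr 1
    rw [Int.fract]
    ring
  have h2 : 0 < Int.fract y := by
    have := between' hy
    rw [Int.fract]; linarith [this.1]
  have h3 := Int.fract_lt_one y
  have h4 : 0 < Real.sin (Real.pi * Int.fract y) := by
    apply Real.sin_pos_of_pos_of_lt_pi
    · positivity
    · nlinarith [Real.pi_pos]
  rcases Int.even_or_odd ⌊y⌋ with h | h
  · rw [h1, h.neg_one_zpow, one_mul]
    exact ⟨⟨fun _ => h, fun _ => h4⟩, h4.ne'⟩
  · rw [h1, h.neg_one_zpow, neg_one_mul]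
    refine ⟨⟨fun h5 => absurd h5 (by linarith), fun h5 => ?_⟩, fun h6 => ?_⟩
    · exact absurd h5 (Int.not_even_iff_odd.2 h)
    · rw [neg_eq_zero] at h6
      exact h4.ne' h6

/-- the sequence of a parameter -/
noncomputable def tq (q : (ℝ × ℝ) × ℤ) (i : ℕ) : ℝ :=
  Real.cos (2 * Real.pi * q.1.1 * i + Real.pi * (q.1.2 - q.1.1 + q.2))

/-- the index set -/
def Q (d : ℕ) : Set ((ℝ × ℝ) × ℤ) := Gen d (2 * d - 2) ×ˢ ({0, 1} : Set ℤ)

theorem tq_sub (q : (ℝ × ℝ) × ℤ) (i j : ℕ) : tq q i - tq q j =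
    2 * Real.sin (Real.pi * (q.1.1 * ((i : ℝ) + j - 1) + q.1.2 + q.2)) *
      Real.sin (Real.pi * (q.1.1 * ((j : ℝ) - i))) := by
  unfold tq
  rw [Real.cos_sub_cos]
  have e1 : (2 * Real.pi * q.1.1 * (i : ℝ) + Real.pi * (q.1.2 - q.1.1 + q.2) +
      (2 * Real.pi * q.1.1 * j + Real.pi * (q.1.2 - q.1.1 + q.2))) / 2 =
      Real.pi * (q.1.1 * ((i : ℝ) + j - 1) + q.1.2 + q.2) := by ring
  have e2 : (2 * Real.pi * q.1.1 * (i : ℝ) + Real.pi * (q.1.2 - q.1.1 + q.2) -
      (2 * Real.pi * q.1.1 * j + Real.pi * (q.1.2 - q.1.1 + q.2))) / 2 =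
      -(Real.pi * (q.1.1 * ((j : ℝ) - i))) := by ring
  rw [e1, e2, Real.sin_neg]
  ring

/-- the exponent that decides the order -/
noncomputable def ex (q : (ℝ × ℝ) × ℤ) (i j : ℕ) : ℤ :=
  ⌊q.1.1 * ((i + j - 1 : ℕ) : ℝ) + q.1.2⌋ + q.2 + ⌊q.1.1 * ((j - i : ℕ) : ℝ)⌋

theorem tq_lt {d : ℕ} {q : (ℝ × ℝ) × ℤ} (hq : q ∈ Q d) {i j : ℕ} (hij : i < j) (hj : j ≤ d) :
    (tq q j < tq q i ↔ Even (ex q i j)) ∧ tq q i ≠ tq q j := by
  obtain ⟨⟨h1, h2, h3, h4, h5, h6⟩, -⟩ := hq
  have g1 : ∀ m : ℤ, q.1.1 * ((j - i : ℕ) : ℝ) ≠ m := h5 _ (by rw [Finset.mem_Icc]; omega)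
  have g2 : ∀ m : ℤ, q.1.1 * ((i + j - 1 : ℕ) : ℝ) + q.1.2 + q.2 ≠ m := by
    intro m hm
    have hm' : q.1.1 * ((i + j - 1 : ℕ) : ℝ) + q.1.2 = ((m - q.2 : ℤ) : ℝ) := by
      push_cast; linarith
    rcases Nat.eq_zero_or_pos (i + j - 1) with h | h
    · rw [h] at hm'
      push_cast at hm'
      rw [mul_zero, zero_add] at hm'
      rw [hm'] at h3 h4
      have h8 : 0 < m - q.2 := by exact_mod_cast h3
      have h9 : m - q.2 < 1 := by exact_mod_cast h4
      omega
    · exact h6 _ (by rw [Finset.mem_Icc]; omega) _ hm'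
  have s1 := sin_pos_iff_even g1
  have s2 := sin_pos_iff_even g2
  have e1 : ((i + j - 1 : ℕ) : ℝ) = (i : ℝ) + j - 1 := by
    rw [Nat.cast_sub (by omega)]; push_cast; ring
  have e2 : ((j - i : ℕ) : ℝ) = (j : ℝ) - i := by rw [Nat.cast_sub hij.le]
  have hsub := tq_sub q i j
  rw [← e1, ← e2] at hsub
  have hfl : ⌊q.1.1 * ((i + j - 1 : ℕ) : ℝ) + q.1.2 + q.2⌋ =
      ⌊q.1.1 * ((i + j - 1 : ℕ) : ℝ) + q.1.2⌋ + q.2 := Int.floor_add_intCast _ _
  rw [hfl] at s2
  set A := Real.sin (Real.pi * (q.1.1 * ((i + j - 1 : ℕ) : ℝ) + q.1.2 + q.2)) with hA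
  set B := Real.sin (Real.pi * (q.1.1 * ((j - i : ℕ) : ℝ))) with hB
  constructor
  · rw [ex, Int.even_add, ← s2.1, ← s1.1]
    constructor
    · intro h
      have hp : 0 < A * B := by
        have : 0 < 2 * A * B := by rw [← hsub]; linarith
        nlinarith
      rcases mul_pos_iff.1 hp with h' | h'
      · exact ⟨fun _ => h'.2, fun _ => h'.1⟩
      · exact ⟨fun h7 => absurd h7 (by linarith [h'.1]), fun h7 => absurd h7 (by linarith [h'.2])⟩
    · intro h
      have hp : 0 < A * B := by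
        by_cases hA0 : 0 < A
        · exact mul_pos hA0 (h.1 hA0)
        · have hB0 : ¬ 0 < B := fun h7 => hA0 (h.2 h7)
          exact mul_pos_of_neg_of_neg (lt_of_le_of_ne (not_lt.1 hA0) s2.2)
            (lt_of_le_of_ne (not_lt.1 hB0) s1.2)
      have : 0 < tq q i - tq q j := by rw [hsub]; nlinarith
      linarith
  · intro h
    have h7 : 2 * A * B = 0 := by rw [← hsub, h, sub_self]
    exact mul_ne_zero (mul_ne_zero two_ne_zero s2.2) s1.2 h7

theorem tq_inj {d : ℕ} {q : (ℝ × ℝ) × ℤ} (hq : q ∈ Q d) :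
    Function.Injective (fun i : Fin (d + 1) => tq q i) := by
  intro i j hij
  rcases lt_trichotomy (i : ℕ) j with h | h | h
  · exact absurd hij (tq_lt hq h (by omega)).2
  · exact Fin.ext h
  · exact absurd hij.symm (tq_lt hq h (by omega)).2

/-- the permutation of a parameter -/
noncomputable def psi (d : ℕ) (q : (ℝ × ℝ) × ℤ) : Equiv.Perm (Fin (d + 1)) := by
  classical
  exact if h : ∃ σ : Equiv.Perm (Fin (d + 1)), StrictAnti fun k => tq q (σ k : ℕ) then h.choose
    else 1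

theorem psi_spec {d : ℕ} {q : (ℝ × ℝ) × ℤ} (hq : q ∈ Q d) :
    StrictAnti fun k => tq q (psi d q k : ℕ) := by
  have h := exists_sort (fun i : Fin (d + 1) => tq q i) (tq_inj hq)
  have h' : ∃ σ : Equiv.Perm (Fin (d + 1)), StrictAnti fun k => tq q (σ k : ℕ) := h
  unfold psi
  rw [dif_pos h']
  exact h'.choose_spec

theorem floor_step {x y : ℝ} (hx : 0 < x) (hx' : x < 1 / 2) : ⌊y + x⌋ = ⌊y⌋ ∨ ⌊y + x⌋ = ⌊y⌋ + 1 := by
  have h1 := Int.floor_le y
  have h2 := Int.lt_floor_add_one y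
  have h3 : ⌊y⌋ ≤ ⌊y + x⌋ := Int.floor_le_floor (by linarith)
  have h4 : ⌊y + x⌋ < ⌊y⌋ + 2 := Int.floor_lt.2 (by push_cast; linarith)
  omega

/-- the kernel of the map from parameters to permutations -/
theorem psi_ker {d : ℕ} (hd : 2 ≤ d) {q q' : (ℝ × ℝ) × ℤ} (hq : q ∈ Q d) (hq' : q' ∈ Q d) :
    psi d q = psi d q' ↔
      (cell d (2 * d - 2) q.1, q.2) = (cell d (2 * d - 2) q'.1, q'.2) := by
  rw [Prod.mk.injEq, cell_eq_iff]
  have hz0 : ∀ w ∈ Q d, ⌊w.1.1 * ((0 : ℕ) : ℝ) + w.1.2⌋ = 0 := by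
    rintro w ⟨⟨h1, h2, h3, h4, h5, h6⟩, -⟩
    rw [Int.floor_eq_iff]
    push_cast
    constructor <;> linarith
  constructor
  · intro h
    have hpar : ∀ i j : ℕ, i < j → j ≤ d → (Even (ex q i j) ↔ Even (ex q' i j)) := by
      intro i j hij hj
      rw [← (tq_lt hq hij hj).1, ← (tq_lt hq' hij hj).1]
      have a := strictAnti_iff (psi_spec hq) (f := fun i : Fin (d + 1) => tq q i)
        ⟨i, by omega⟩ ⟨j, by omega⟩
      have b := strictAnti_iff (psi_spec hq') (f := fun i : Fin (d + 1) => tq q' i)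
        ⟨i, by omega⟩ ⟨j, by omega⟩
      rw [← h] at b
      simp only at a b
      rw [← a, ← b]
    have hf1 : ∀ w ∈ Q d, ⌊w.1.1 * ((1 : ℕ) : ℝ)⌋ = 0 ∧ ⌊w.1.1 * ((2 : ℕ) : ℝ)⌋ = 0 := by
      rintro w ⟨⟨h1, h2, h3, h4, h5, h6⟩, -⟩
      constructor <;> rw [Int.floor_eq_iff] <;> push_cast <;> constructor <;> linarith
    -- the parities of the floors along the second family
    have hc : ∀ s, s ≤ 2 * d - 2 → (Even (⌊q.1.1 * (s : ℝ) + q.1.2⌋ + q.2) ↔
        Even (⌊q'.1.1 * (s : ℝ) + q'.1.2⌋ + q'.2)) := by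
      intro s hs
      rcases Nat.even_or_odd' s with ⟨c, h1 | h1⟩
      · have a := hpar c (c + 1) (by omega) (by omega)
        have e1 : c + (c + 1) - 1 = s := by omega
        have e2 : c + 1 - c = 1 := by omega
        simp only [ex, e1, e2, (hf1 q hq).1, (hf1 q' hq').1, add_zero] at a
        exact a
      · have a := hpar c (c + 2) (by omega) (by omega)
        have e1 : c + (c + 2) - 1 = s := by omega
        have e2 : c + 2 - c = 2 := by omega
        simp only [ex, e1, e2, (hf1 q hq).2, (hf1 q' hq').2, add_zero] at a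
        exact a
    have hee : q.2 = q'.2 := by
      have a := hc 0 (by omega)
      rw [hz0 q hq, hz0 q' hq', zero_add, zero_add] at a
      have b := hq.2
      have b' := hq'.2
      simp only [mem_insert_iff, mem_singleton_iff] at b b'
      rcases b with b | b <;> rcases b' with b' | b' <;> rw [b, b'] at a ⊢ <;> simp at a
    have hcs : ∀ s, s ≤ 2 * d - 2 → ⌊q.1.1 * (s : ℝ) + q.1.2⌋ = ⌊q'.1.1 * (s : ℝ) + q'.1.2⌋ := by
      intro s
      induction s with
      | zero => intro _; rw [hz0 q hq, hz0 q' hq']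
      | succ s ih =>
        intro hs
        have a := ih (by omega)
        have b := hc (s + 1) hs
        rw [hee, Int.even_add, Int.even_add] at b
        have e : ∀ w : ℝ × ℝ, w.1 * ((s + 1 : ℕ) : ℝ) + w.2 = (w.1 * (s : ℝ) + w.2) + w.1 := by
          intro w; push_cast; ring
        have f := floor_step (y := q.1.1 * (s : ℝ) + q.1.2) hq.1.1 hq.1.2.1
        have f' := floor_step (y := q'.1.1 * (s : ℝ) + q'.1.2) hq'.1.1 hq'.1.2.1
        rw [e, e] at b ⊢
        rw [a] at f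
        have g : (Even ⌊q.1.1 * (s : ℝ) + q.1.2 + q.1.1⌋ ↔
            Even ⌊q'.1.1 * (s : ℝ) + q'.1.2 + q'.1.1⌋) := by tauto
        rw [Int.even_iff, Int.even_iff] at g
        omega
    refine ⟨⟨?_, fun s hs => hcs s (by rw [Finset.mem_Icc] at hs; omega)⟩, hee⟩
    -- the first family
    have hfs : ∀ k, k ≤ d → ⌊q.1.1 * (k : ℝ)⌋ = ⌊q'.1.1 * (k : ℝ)⌋ := by
      intro k
      induction k with
      | zero => intro _; simp
      | succ k ih =>
        intro hk
        have a := ih (by omega)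
        have b := hpar 0 (k + 1) (by omega) hk
        have e1 : 0 + (k + 1) - 1 = k := by omega
        have e2 : k + 1 - 0 = k + 1 := by omega
        simp only [ex, e1, e2] at b
        rw [hcs k (by omega), hee, Int.even_add, Int.even_add (n := ⌊q'.1.1 * ((k + 1 : ℕ) : ℝ)⌋)] at b
        have e : ∀ w : ℝ × ℝ, w.1 * ((k + 1 : ℕ) : ℝ) = (w.1 * (k : ℝ)) + w.1 := by
          intro w; push_cast; ring
        have f := floor_step (y := q.1.1 * (k : ℝ)) hq.1.1 hq.1.2.1
        have f' := floor_step (y := q'.1.1 * (k : ℝ)) hq'.1.1 hq'.1.2.1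
        rw [e, e] at b ⊢
        rw [a] at f
        have g : (Even ⌊q.1.1 * (k : ℝ) + q.1.1⌋ ↔ Even ⌊q'.1.1 * (k : ℝ) + q'.1.1⌋) := by tauto
        rw [Int.even_iff, Int.even_iff] at g
        omega
    exact fun r hr => hfs r (by rw [Finset.mem_Icc] at hr; omega)
  · rintro ⟨⟨h1, h2⟩, h3⟩
    have hex : ∀ i j : ℕ, i < j → j ≤ d → ex q i j = ex q' i j := by
      intro i j hij hj
      unfold ex
      rw [h3, h1 (j - i) (by rw [Finset.mem_Icc]; omega)]
      congr 2
      rcases Nat.eq_zero_or_pos (i + j - 1) with h | h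
      · rw [h, hz0 q hq, hz0 q' hq']
      · exact h2 _ (by rw [Finset.mem_Icc]; omega)
    have hlt : ∀ i j : ℕ, i ≤ d → j ≤ d → (tq q j < tq q i ↔ tq q' j < tq q' i) := by
      intro i j hi hj
      rcases lt_trichotomy i j with h | h | h
      · rw [(tq_lt hq h hj).1, (tq_lt hq' h hj).1, hex i j h hj]
      · rw [h]; simp
      · have a := tq_lt hq h hi
        have b := tq_lt hq' h hi
        rw [← hex j i h hi] at b
        have c : ¬ (tq q i < tq q j) ↔ tq q j < tq q i := by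
          rw [not_lt]
          exact ⟨fun h' => lt_of_le_of_ne h' a.2, fun h' => h'.le⟩
        have c' : ¬ (tq q' i < tq q' j) ↔ tq q' j < tq q' i := by
          rw [not_lt]
          exact ⟨fun h' => lt_of_le_of_ne h' b.2, fun h' => h'.le⟩
        rw [← c, ← c', a.1, b.1]
    apply perm_unique (f := fun i : Fin (d + 1) => tq q' i) _ (psi_spec hq')
    intro k l hkl
    exact (hlt _ _ (by omega) (by omega)).1 (psi_spec hq hkl)

/-- the permutations attained by sequences of cosines -/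
def Tset (d : ℕ) : Set (Equiv.Perm (Fin (d + 1))) :=
  {σ | ∃ a b : ℝ, StrictAnti fun k => Real.cos (a * (σ k : ℕ) + b)}

/-- normal form of the parameters -/
theorem normalize {d : ℕ} (hd : 2 ≤ d) (a b : ℝ)
    (hinj : ∀ i j : ℕ, i ≤ d → j ≤ d → Real.cos (a * i + b) = Real.cos (a * j + b) → i = j) :
    ∃ q ∈ Q d, ∀ i : ℕ, tq q i = Real.cos (a * i + b) := by
  have hpi := Real.pi_pos
  -- first normalisation: `0 < α < 1 / 2`
  obtain ⟨α, w, h0, h1, hseq⟩ : ∃ α w : ℝ, 0 ≤ α ∧ α ≤ 1 / 2 ∧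
      ∀ i : ℕ, Real.cos (2 * Real.pi * α * i + Real.pi * w) = Real.cos (a * i + b) := by
    set α₀ := a / (2 * Real.pi) with hα₀
    set w₀ := b / Real.pi with hw₀
    have e : ∀ i : ℕ, Real.cos (2 * Real.pi * Int.fract α₀ * i + Real.pi * w₀) =
        Real.cos (a * i + b) := by
      intro i
      have e1 : 2 * Real.pi * Int.fract α₀ * i + Real.pi * w₀ =
          (a * i + b) - ((⌊α₀⌋ * i : ℤ) : ℝ) * (2 * Real.pi) := by
        rw [Int.fract, hα₀, hw₀]
        push_cast
        field_simp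
        ring
      rw [e1, Real.cos_sub_int_mul_two_pi]
    rcases le_or_gt (Int.fract α₀) (1 / 2) with h | h
    · exact ⟨Int.fract α₀, w₀, Int.fract_nonneg _, h, e⟩
    · refine ⟨1 - Int.fract α₀, -w₀, by linarith [Int.fract_lt_one α₀], by linarith, fun i => ?_⟩
      rw [← e]
      have e1 : 2 * Real.pi * (1 - Int.fract α₀) * i + Real.pi * -w₀ =
          -(2 * Real.pi * Int.fract α₀ * i + Real.pi * w₀) + (i : ℝ) * (2 * Real.pi) := by ring
      rw [e1, Real.cos_add_nat_mul_two_pi, Real.cos_neg]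
  -- the generic conditions
  have hsub : ∀ i j : ℕ, Real.cos (a * i + b) - Real.cos (a * j + b) =
      2 * Real.sin (Real.pi * (α * ((i : ℝ) + j) + w)) * Real.sin (Real.pi * (α * ((j : ℝ) - i))) := by
    intro i j
    rw [← hseq, ← hseq, Real.cos_sub_cos]
    have e1 : (2 * Real.pi * α * (i : ℝ) + Real.pi * w + (2 * Real.pi * α * j + Real.pi * w)) / 2 =
        Real.pi * (α * ((i : ℝ) + j) + w) := by ring
    have e2 : (2 * Real.pi * α * (i : ℝ) + Real.pi * w - (2 * Real.pi * α * j + Real.pi * w)) / 2 =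
        -(Real.pi * (α * ((j : ℝ) - i))) := by ring
    rw [e1, e2, Real.sin_neg]
    ring
  have hg1 : ∀ k : ℕ, 1 ≤ k → k ≤ d → ∀ m : ℤ, α * k ≠ m := by
    intro k hk hk' m hm
    have h2 := hsub 0 k
    have e : Real.pi * (α * ((k : ℝ) - ((0 : ℕ) : ℝ))) = m * Real.pi := by
      push_cast; rw [sub_zero, hm]; ring
    rw [e, Real.sin_int_mul_pi, mul_zero] at h2
    have := hinj 0 k (by omega) hk' (sub_eq_zero.1 h2)
    omega
  have hg2 : ∀ s : ℕ, 1 ≤ s → s ≤ 2 * d - 1 → ∀ m : ℤ, α * s + w ≠ m := by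
    intro s hs hs' m hm
    obtain ⟨i, j, hij, hj, hsum⟩ : ∃ i j : ℕ, i < j ∧ j ≤ d ∧ i + j = s := by
      rcases Nat.lt_or_ge d s with h | h
      · exact ⟨s - d, d, by omega, le_rfl, by omega⟩
      · exact ⟨0, s, by omega, h, by omega⟩
    have h2 := hsub i j
    have e : Real.pi * (α * ((i : ℝ) + j) + w) = m * Real.pi := by
      have : ((i : ℝ) + j) = s := by exact_mod_cast hsum
      rw [this, hm]; ring
    rw [e, Real.sin_int_mul_pi, mul_zero, zero_mul] at h2
    have := hinj i j (by omega) hj (sub_eq_zero.1 h2)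
    omega
  have h0' : 0 < α := lt_of_le_of_ne h0 (fun h => hg1 1 le_rfl (by omega) 0 (by rw [← h]; simp))
  have h1' : α < 1 / 2 := lt_of_le_of_ne h1 (fun h => hg1 2 (by omega) hd 1 (by rw [h]; norm_num))
  set y := w + α with hy
  set z := Int.fract y with hz
  set m := ⌊y⌋ with hm
  have hyz : y = z + m := by rw [hz, Int.fract]; ring
  have hz0 : 0 < z := by
    refine lt_of_le_of_ne (Int.fract_nonneg _) fun h => ?_
    apply hg2 1 le_rfl (by omega) m
    push_cast
    rw [hyz, ← h] at hy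
    linarith
  refine ⟨((α, z), m % 2), ⟨⟨h0', h1', hz0, Int.fract_lt_one _, fun r hr => ?_, fun s hs k hk => ?_⟩,
    ?_⟩, fun i => ?_⟩
  · rw [Finset.mem_Icc] at hr
    exact hg1 r hr.1 hr.2
  · rw [Finset.mem_Icc] at hs
    apply hg2 (s + 1) (by omega) (by omega) (k + m)
    simp only at hk
    push_cast
    rw [← hk]
    linarith
  · simp only [mem_insert_iff, mem_singleton_iff]
    omega
  · rw [← hseq]
    unfold tq
    simp only
    have e : (m : ℝ) = ((m % 2 : ℤ) : ℝ) + 2 * ((m / 2 : ℤ) : ℝ) := by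
      have := Int.emod_add_mul_ediv m 2
      have h7 : (m : ℝ) = (((m % 2) + 2 * (m / 2) : ℤ) : ℝ) := by rw [this]
      rw [h7]; push_cast; ring
    have e1 : 2 * Real.pi * α * i + Real.pi * (z - α + ((m % 2 : ℤ) : ℝ)) =
        (2 * Real.pi * α * i + Real.pi * w) - ((m / 2 : ℤ) : ℝ) * (2 * Real.pi) := by
      have h8 : w = z + m - α := by linarith
      rw [h8, e]
      ring
    rw [e1, Real.cos_sub_int_mul_two_pi]

theorem Tset_encard (d : ℕ) (hd : 2 ≤ d) : (Tset d).encard = 2 * P d (2 * d - 2) := by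
  have h1 : Tset d = psi d '' Q d := by
    ext σ
    constructor
    · rintro ⟨a, b, h⟩
      have hinj : ∀ i j : ℕ, i ≤ d → j ≤ d → Real.cos (a * i + b) = Real.cos (a * j + b) → i = j := by
        intro i j hi hj hij
        have h2 := h.injective (a₁ := σ.symm ⟨i, by omega⟩) (a₂ := σ.symm ⟨j, by omega⟩) (by
          simpa using hij)
        have h3 := σ.symm.injective h2
        exact congrArg Fin.val h3
      obtain ⟨q, hq, hs⟩ := normalize hd a b hinj
      refine ⟨q, hq, ?_⟩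
      apply perm_unique (f := fun i : Fin (d + 1) => tq q i) (psi_spec hq)
      intro k l hkl
      simp only [hs]
      exact h hkl
    · rintro ⟨q, hq, rfl⟩
      exact ⟨2 * Real.pi * q.1.1, Real.pi * (q.1.2 - q.1.1 + q.2), psi_spec hq⟩
  have h2 : (psi d '' Q d).encard =
      ((fun q : (ℝ × ℝ) × ℤ => (cell d (2 * d - 2) q.1, q.2)) '' Q d).encard :=
    encard_ker _ _ _ fun q hq q' hq' => psi_ker hd hq hq'
  have h3 : (fun q : (ℝ × ℝ) × ℤ => (cell d (2 * d - 2) q.1, q.2)) '' Q d =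
      (cell d (2 * d - 2) '' Gen d (2 * d - 2)) ×ˢ ({0, 1} : Set ℤ) := by
    have := prodMap_image_prod (cell d (2 * d - 2)) (id : ℤ → ℤ) (Gen d (2 * d - 2)) {0, 1}
    rw [image_id] at this
    rw [← this]
    rfl
  rw [h1, h2, h3, encard_prod, encard_pair (by norm_num), mul_comm]
  rfl

end Pool.Agent.K3h49.Leo
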