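import Pool.Agent.K3h49.Leo.Core

/-!
# Recurrent sequences and their orderings
-/

set_option autoImplicit false

namespace Pool.Agent.K3h49.Leo

/-- the three-term recurrence from the cubic relation -/
theorem three_term (d : ℕ) (t : ℕ → ℝ) (hd : 3 ≤ d)
    (hinj : ∀ i j, i ≤ d → j ≤ d → t i = t j → i = j) (c₁ c₂ c₃ : ℝ)
    (h : ∀ i, i + 1 ≤ d → t i * t (i + 1) * (t i - t (i + 1)) =
      c₁ * (t i - t (i + 1)) + c₂ * (t i ^ 2 - t (i + 1) ^ 2) + c₃ * (t i ^ 3 - t (i + 1) ^ 3)) :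
    ∃ β γ : ℝ, ∀ i, i + 2 ≤ d → t i + t (i + 2) = β * t (i + 1) + γ := by
  have h1 : ∀ i, i + 1 ≤ d → t i * t (i + 1) =
      c₁ + c₂ * (t i + t (i + 1)) + c₃ * (t i ^ 2 + t i * t (i + 1) + t (i + 1) ^ 2) := by
    intro i hi
    have h2 : t i - t (i + 1) ≠ 0 := by
      intro h3
      have := hinj i (i + 1) (by omega) hi (sub_eq_zero.1 h3)
      omega
    apply mul_right_cancel₀ h2
    rw [h i hi]
    ring
  have hc : c₃ ≠ 0 := by
    intro hc
    have ha : ∀ i, i + 1 ≤ d → (t i - c₂) * (t (i + 1) - c₂) = c₁ + c₂ ^ 2 := by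
      intro i hi
      have := h1 i hi
      rw [hc] at this
      linear_combination this
    have a0 := ha 0 (by omega)
    have a1 := ha 1 (by omega)
    have a2 := ha 2 (by omega)
    simp only [zero_add, Nat.reduceAdd] at a0 a1 a2
    have b1 : (t 1 - c₂) * (t 0 - t 2) = 0 := by linear_combination a0 - a1
    have b2 : (t 2 - c₂) * (t 1 - t 3) = 0 := by linear_combination a1 - a2
    have e1 : t 1 = c₂ := by
      rcases mul_eq_zero.1 b1 with h2 | h2
      · linarith
      · have := hinj 0 2 (by omega) (by omega) (sub_eq_zero.1 h2); omega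
    have e2 : t 2 = c₂ := by
      rcases mul_eq_zero.1 b2 with h2 | h2
      · linarith
      · have := hinj 1 3 (by omega) (by omega) (sub_eq_zero.1 h2); omega
    have := hinj 1 2 (by omega) (by omega) (e1.trans e2.symm)
    omega
  refine ⟨1 / c₃ - 1, - (c₂ / c₃), fun i hi => ?_⟩
  have a := h1 i (by omega)
  have b := h1 (i + 1) (by omega)
  have h2 : t i - t (i + 2) ≠ 0 := by
    intro h3
    have := hinj i (i + 2) (by omega) hi (sub_eq_zero.1 h3)
    omega
  have e : i + 1 + 1 = i + 2 := rfl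
  rw [e] at b
  have h4 : (t i - t (i + 2)) * (c₃ * (t i + t (i + 2)) - ((1 - c₃) * t (i + 1) - c₂)) = 0 := by
    linear_combination b - a
  have h5 := (mul_eq_zero.1 h4).resolve_left h2
  field_simp
  linear_combination h5

/-- the sequences `x` and `y` are ordered in the same way on `0, …, d` -/
def SameOrder (d : ℕ) (x y : ℕ → ℝ) : Prop :=
  ∀ i j, i ≤ d → j ≤ d → (x i < x j ↔ y i < y j)

theorem SameOrder.symm {d : ℕ} {x y : ℕ → ℝ} (h : SameOrder d x y) : SameOrder d y x :=
  fun i j hi hj => (h i j hi hj).symm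

theorem SameOrder.trans {d : ℕ} {x y z : ℕ → ℝ} (h : SameOrder d x y) (h' : SameOrder d y z) :
    SameOrder d x z := fun i j hi hj => (h i j hi hj).trans (h' i j hi hj)

/-- the ordering is that of a sequence `cos (a i + b)` -/
def TypeT (d : ℕ) (x : ℕ → ℝ) : Prop :=
  ∃ a b : ℝ, SameOrder d x fun i => Real.cos (a * i + b)

/-- the ordering is that of a sequence `± (-1)^i cosh (a i + b)` -/
def TypeH (d : ℕ) (x : ℕ → ℝ) : Prop :=
  ∃ a b : ℝ, SameOrder d x (fun i => (-1) ^ i * Real.cosh (a * i + b)) ∨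
    SameOrder d x (fun i => -((-1) ^ i * Real.cosh (a * i + b)))

theorem TypeT.of_same {d : ℕ} {x y : ℕ → ℝ} (h : SameOrder d x y) (hy : TypeT d y) :
    TypeT d x := by
  obtain ⟨a, b, h'⟩ := hy
  exact ⟨a, b, h.trans h'⟩

theorem TypeH.of_same {d : ℕ} {x y : ℕ → ℝ} (h : SameOrder d x y) (hy : TypeH d y) :
    TypeH d x := by
  obtain ⟨a, b, h' | h'⟩ := hy
  · exact ⟨a, b, Or.inl (h.trans h')⟩
  · exact ⟨a, b, Or.inr (h.trans h')⟩

/-- `x` and `c x + e` with `c > 0` -/
theorem same_affine (d : ℕ) (x : ℕ → ℝ) (c e : ℝ) (hc : 0 < c) :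
    SameOrder d x (fun i => c * x i + e) := by
  intro i j _ _
  constructor
  · intro h; simp only; nlinarith
  · intro h; simp only at h; nlinarith

theorem typeT_neg {d : ℕ} {x : ℕ → ℝ} (h : TypeT d x) : TypeT d (fun i => - x i) := by
  obtain ⟨a, b, h⟩ := h
  refine ⟨a, b + Real.pi, fun i j hi hj => ?_⟩
  have := h j i hj hi
  beta_reduce at this ⊢
  rw [neg_lt_neg_iff, this, ← add_assoc, ← add_assoc, Real.cos_add_pi, Real.cos_add_pi,
    neg_lt_neg_iff]

theorem typeH_neg {d : ℕ} {x : ℕ → ℝ} (h : TypeH d x) : TypeH d (fun i => - x i) := by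
  obtain ⟨a, b, h | h⟩ := h
  · refine ⟨a, b, Or.inr fun i j hi hj => ?_⟩
    have := h j i hj hi
    beta_reduce at this ⊢
    rw [neg_lt_neg_iff, this, neg_lt_neg_iff]
  · refine ⟨a, b, Or.inl fun i j hi hj => ?_⟩
    have := h j i hj hi
    beta_reduce at this ⊢
    rw [neg_lt_neg_iff, this, neg_lt_neg_iff]

/-- a bound for finitely many numbers -/
theorem exists_bound (d : ℕ) (x : ℕ → ℝ) : ∃ M : ℝ, 0 < M ∧ ∀ i, i ≤ d → |x i| < M := by
  refine ⟨∑ i ∈ Finset.range (d + 1), |x i| + 1, by positivity, fun i hi => ?_⟩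
  have : |x i| ≤ ∑ i ∈ Finset.range (d + 1), |x i| :=
    Finset.single_le_sum (f := fun i => |x i|) (fun _ _ => abs_nonneg _)
      (Finset.mem_range.2 (by omega))
  linarith

/-- the ordering by `|s i + r|` is that of a sequence of cosines -/
theorem typeT_abs (d : ℕ) (s r : ℝ) : TypeT d (fun i => |s * i + r|) := by
  obtain ⟨M, hM, hb⟩ := exists_bound d (fun i => s * i + r)
  refine ⟨s * (Real.pi / M), r * (Real.pi / M) + Real.pi, fun i j hi hj => ?_⟩
  have hδ : 0 < Real.pi / M := div_pos Real.pi_pos hM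
  have key : ∀ i : ℕ, Real.cos (s * (Real.pi / M) * i + (r * (Real.pi / M) + Real.pi)) =
      - Real.cos (|s * i + r| * (Real.pi / M)) := by
    intro i
    have e : s * (Real.pi / M) * i + (r * (Real.pi / M) + Real.pi) =
      (s * i + r) * (Real.pi / M) + Real.pi := by ring
    rw [e, Real.cos_add_pi, ← Real.cos_abs ((s * i + r) * (Real.pi / M)), abs_mul,
      abs_of_pos hδ]
  have hm : ∀ i, i ≤ d → |s * i + r| * (Real.pi / M) ∈ Set.Icc 0 Real.pi := by
    intro i hi
    refine ⟨by positivity, ?_⟩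
    have h1 := hb i hi
    calc |s * i + r| * (Real.pi / M) ≤ M * (Real.pi / M) :=
          mul_le_mul_of_nonneg_right h1.le hδ.le
      _ = Real.pi := by field_simp
  beta_reduce
  rw [key, key, neg_lt_neg_iff, Real.strictAntiOn_cos.lt_iff_gt (hm j hj) (hm i hi)]
  constructor
  · intro h; exact mul_lt_mul_of_pos_right h hδ
  · intro h; exact lt_of_mul_lt_mul_right h hδ.le

/-- the ordering by `(-1)^i (s i + r)` -/
theorem typeT_alt (d : ℕ) (s r : ℝ) : TypeT d (fun i => (-1) ^ i * (s * i + r)) := by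
  obtain ⟨M, hM, hb⟩ := exists_bound d (fun i => (-1) ^ i * (s * i + r))
  refine ⟨Real.pi + s * (Real.pi / 2 / M), r * (Real.pi / 2 / M) - Real.pi / 2,
    fun i j hi hj => ?_⟩
  have hδ : 0 < Real.pi / 2 / M := div_pos (by positivity) hM
  have key : ∀ i : ℕ, Real.cos ((Real.pi + s * (Real.pi / 2 / M)) * i +
      (r * (Real.pi / 2 / M) - Real.pi / 2)) =
      Real.sin ((-1) ^ i * (s * i + r) * (Real.pi / 2 / M)) := by
    intro i
    have e : (Real.pi + s * (Real.pi / 2 / M)) * i + (r * (Real.pi / 2 / M) - Real.pi / 2) =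
      ((s * i + r) * (Real.pi / 2 / M) - Real.pi / 2) + i * Real.pi := by ring
    rw [e, Real.cos_add_nat_mul_pi, Real.cos_sub_pi_div_two]
    rcases Nat.even_or_odd i with h | h
    · rw [h.neg_one_pow, one_mul, one_mul]
    · rw [h.neg_one_pow, neg_one_mul, neg_one_mul, neg_mul, Real.sin_neg]
  have hm : ∀ i : ℕ, i ≤ d → (-1) ^ i * (s * i + r) * (Real.pi / 2 / M) ∈
      Set.Icc (-(Real.pi / 2)) (Real.pi / 2) := by
    intro i hi
    have h1 := hb i hi
    rw [Set.mem_Icc, ← abs_le, abs_mul, abs_of_pos hδ]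
    calc |(-1) ^ i * (s * i + r)| * (Real.pi / 2 / M) ≤ M * (Real.pi / 2 / M) :=
          mul_le_mul_of_nonneg_right h1.le hδ.le
      _ = Real.pi / 2 := by field_simp
  beta_reduce
  rw [key, key, Real.strictMonoOn_sin.lt_iff_lt (hm i hi) (hm j hj)]
  constructor
  · intro h; exact mul_lt_mul_of_pos_right h hδ
  · intro h; exact lt_of_mul_lt_mul_right h hδ.le

theorem typeT_of_strictMono (d : ℕ) (x : ℕ → ℝ) (h : ∀ i j, i < j → j ≤ d → x i < x j) :
    TypeT d x := by
  refine TypeT.of_same ?_ (typeT_abs d 1 0)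
  intro i j hi hj
  have e : ∀ k : ℕ, |(1 : ℝ) * k + 0| = k := fun k => by simp
  beta_reduce
  rw [e, e, Nat.cast_lt]
  constructor
  · intro h1
    by_contra h2
    rcases Nat.lt_or_ge j i with h3 | h3
    · exact absurd (h j i h3 hi) (not_lt.2 h1.le)
    · have : i = j := by omega
      rw [this] at h1
      exact lt_irrefl _ h1
  · intro h1; exact h i j h1 hj

theorem typeT_of_strictAnti (d : ℕ) (x : ℕ → ℝ) (h : ∀ i j, i < j → j ≤ d → x j < x i) :
    TypeT d x := by
  have := typeT_neg (typeT_of_strictMono d (fun i => - x i)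
    (fun i j hi hj => neg_lt_neg (h i j hi hj)))
  simpa using this

end Pool.Agent.K3h49.Leo
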