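import Pool.Agent.K3h49.Leo.Count3
import Pool.Agent.K3h49.Leo.Rec

/-!
# Counting the orderings of alternating sequences of hyperbolic cosines
-/

set_option autoImplicit false

namespace Pool.Agent.K3h49.Leo

open Set

/-- the permutations attained by alternating sequences of hyperbolic cosines -/
def Hset (d : ℕ) : Set (Equiv.Perm (Fin (d + 1))) :=
  {σ | ∃ a b ε : ℝ, (ε = 1 ∨ ε = -1) ∧
    StrictAnti fun k => ε * ((-1) ^ (σ k : ℕ) * Real.cosh (a * (σ k : ℕ) + b))}

theorem same_alt {d : ℕ} {P Q : ℕ → ℝ} (hP : ∀ i, i ≤ d → 0 < P i) (hQ : ∀ i, i ≤ d → 0 < Q i)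
    {ε : ℝ} (hε : ε = 1 ∨ ε = -1)
    (h : ∀ i j, i ≤ d → j ≤ d → (Even i ↔ Even j) → (P i < P j ↔ Q i < Q j)) :
    SameOrder d (fun i => ε * ((-1) ^ i * P i)) (fun i => ε * ((-1) ^ i * Q i)) := by
  intro i j hi hj
  have h1 := hP i hi
  have h2 := hP j hj
  have h3 := hQ i hi
  have h4 := hQ j hj
  rcases Nat.even_or_odd i with ei | ei <;> rcases Nat.even_or_odd j with ej | ej
  · have h5 := h i j hi hj (by simp [ei, ej])
    have h6 := h j i hj hi (by simp [ei, ej])
    simp only [ei.neg_one_pow, ej.neg_one_pow, one_mul]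
    rcases hε with rfl | rfl
    · simpa using h5
    · simpa using h6
  · simp only [ei.neg_one_pow, ej.neg_one_pow, one_mul]
    rcases hε with rfl | rfl
    · constructor <;> intro h <;> linarith
    · constructor <;> intro h <;> linarith
  · simp only [ei.neg_one_pow, ej.neg_one_pow, one_mul]
    rcases hε with rfl | rfl
    · constructor <;> intro h <;> linarith
    · constructor <;> intro h <;> linarith
  · have h5 := h i j hi hj (by simp [Nat.not_even_iff_odd.2 ei, Nat.not_even_iff_odd.2 ej])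
    have h6 := h j i hj hi (by simp [Nat.not_even_iff_odd.2 ei, Nat.not_even_iff_odd.2 ej])
    simp only [ei.neg_one_pow, ej.neg_one_pow]
    rcases hε with rfl | rfl
    · constructor
      · intro h; have := h6.1 (by linarith); linarith
      · intro h; have := h6.2 (by linarith); linarith
    · constructor
      · intro h; have := h5.1 (by linarith); linarith
      · intro h; have := h5.2 (by linarith); linarith

/-- comparison of two hyperbolic cosines -/
theorem cosh_lt_iff (a b : ℝ) {i j : ℕ} (hij : i < j) :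
    Real.cosh (a * i + b) < Real.cosh (a * j + b) ↔ 0 < a * (a * (i + j) + 2 * b) := by
  rw [Real.cosh_lt_cosh, ← sq_lt_sq]
  have h : (0 : ℝ) < j - i := by
    have : (i : ℝ) < j := by exact_mod_cast hij
    linarith
  have e : (a * (j : ℝ) + b) ^ 2 - (a * i + b) ^ 2 = (j - i) * (a * (a * (i + j) + 2 * b)) := by
    ring
  constructor
  · intro h1
    have h2 : 0 < (j - i : ℝ) * (a * (a * (i + j) + 2 * b)) := by rw [← e]; linarith
    exact (mul_pos_iff_of_pos_left h).1 h2
  · intro h1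
    have h2 := mul_pos h h1
    rw [← e] at h2
    linarith

theorem cosh_eq_iff (a b : ℝ) {i j : ℕ} (hij : i < j) :
    Real.cosh (a * i + b) = Real.cosh (a * j + b) ↔ a * (a * (i + j) + 2 * b) = 0 := by
  have h : (0 : ℝ) < j - i := by
    have : (i : ℝ) < j := by exact_mod_cast hij
    linarith
  have e : (a * (j : ℝ) + b) ^ 2 - (a * i + b) ^ 2 = (j - i) * (a * (a * (i + j) + 2 * b)) := by
    ring
  have h0 : Real.cosh (a * i + b) = Real.cosh (a * j + b) ↔
      (a * (i : ℝ) + b) ^ 2 = (a * j + b) ^ 2 := by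
    rw [sq_eq_sq_iff_abs_eq_abs]
    constructor
    · intro h1
      apply le_antisymm
      · exact Real.cosh_le_cosh.1 h1.le
      · exact Real.cosh_le_cosh.1 h1.ge
    · intro h1
      rw [← Real.cosh_abs, h1, Real.cosh_abs]
  rw [h0]
  constructor
  · intro h1
    rw [h1, sub_self] at e
    exact (mul_eq_zero.1 e.symm).resolve_left h.ne'
  · intro h1
    rw [h1, mul_zero] at e
    linarith

/-- two alternating sequences with the same turning point are ordered in the same way -/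
theorem same_H {d : ℕ} {a b a' b' ε : ℝ} (hε : ε = 1 ∨ ε = -1)
    (h : ∀ m : ℕ, 1 ≤ m → m ≤ d - 1 →
      (0 < a * (a * (2 * m) + 2 * b) ↔ 0 < a' * (a' * (2 * m) + 2 * b')))
    (hne : ∀ m : ℕ, 1 ≤ m → m ≤ d - 1 → a * (a * (2 * m) + 2 * b) ≠ 0)
    (hne' : ∀ m : ℕ, 1 ≤ m → m ≤ d - 1 → a' * (a' * (2 * m) + 2 * b') ≠ 0) :
    SameOrder d (fun i => ε * ((-1) ^ i * Real.cosh (a * i + b)))
      (fun i => ε * ((-1) ^ i * Real.cosh (a' * i + b'))) := by
  have key : ∀ i j : ℕ, i < j → j ≤ d → (Even i ↔ Even j) →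
      (Real.cosh (a * i + b) < Real.cosh (a * j + b) ↔
        Real.cosh (a' * i + b') < Real.cosh (a' * j + b')) ∧
      Real.cosh (a * i + b) ≠ Real.cosh (a * j + b) ∧
      Real.cosh (a' * i + b') ≠ Real.cosh (a' * j + b') := by
    intro i j hij hj hp
    have hs : Even (i + j) := by rw [Nat.even_add]; exact hp
    obtain ⟨m, hm⟩ := hs
    have hm' : ((i : ℝ) + j) = 2 * m := by
      have : i + j = 2 * m := by omega
      exact_mod_cast this
    have hmr : 1 ≤ m ∧ m ≤ d - 1 := by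
      rw [Nat.even_iff, Nat.even_iff] at hp
      omega
    rw [cosh_lt_iff a b hij, cosh_lt_iff a' b' hij, Ne, cosh_eq_iff a b hij, Ne,
      cosh_eq_iff a' b' hij, hm']
    exact ⟨h m hmr.1 hmr.2, hne m hmr.1 hmr.2, hne' m hmr.1 hmr.2⟩
  refine same_alt (fun i _ => Real.cosh_pos _) (fun i _ => Real.cosh_pos _) hε ?_
  intro i j hi hj hp
  rcases lt_trichotomy i j with h1 | h1 | h1
  · exact (key i j h1 hj hp).1
  · rw [h1]; simp
  · obtain ⟨k1, k2, k3⟩ := key j i h1 hi hp.symm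
    constructor
    · intro h2
      by_contra h3
      exact absurd (k1.2 (lt_of_le_of_ne (not_lt.1 h3) k3)) (not_lt.2 h2.le)
    · intro h2
      by_contra h3
      exact absurd (k1.1 (lt_of_le_of_ne (not_lt.1 h3) k2)) (not_lt.2 h2.le)

/-- the model sequences -/
noncomputable def hs (p : ℝ × ℕ) (i : ℕ) : ℝ :=
  p.1 * ((-1) ^ i * Real.cosh (1 * i + -((p.2 : ℝ) + 1 / 2)))

/-- the index set of the model sequences -/
def R (d : ℕ) : Set (ℝ × ℕ) := ({1, -1} : Set ℝ) ×ˢ (Set.Icc 1 (d - 2) : Set ℕ)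

theorem hs_g (m s : ℕ) : (1 : ℝ) * (1 * (2 * s) + 2 * -((m : ℝ) + 1 / 2)) =
    ((2 * s - (2 * m + 1) : ℤ) : ℝ) := by
  push_cast; ring

theorem hs_ne (m s : ℕ) : (1 : ℝ) * (1 * (2 * s) + 2 * -((m : ℝ) + 1 / 2)) ≠ 0 := by
  rw [hs_g]
  intro h
  have : (2 * s - (2 * m + 1) : ℤ) = 0 := by exact_mod_cast h
  omega

theorem hs_pos (m s : ℕ) : 0 < (1 : ℝ) * (1 * (2 * s) + 2 * -((m : ℝ) + 1 / 2)) ↔ m < s := by
  rw [hs_g]
  constructor
  · intro h
    have : (0 : ℤ) < (2 * s - (2 * m + 1) : ℤ) := by exact_mod_cast h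
    omega
  · intro h
    have : (0 : ℤ) < (2 * s - (2 * m + 1) : ℤ) := by omega
    exact_mod_cast this

theorem hs_inj {d : ℕ} {p : ℝ × ℕ} (hp : p ∈ R d) :
    Function.Injective (fun i : Fin (d + 1) => hs p i) := by
  have hε : p.1 = 1 ∨ p.1 = -1 := by
    have := hp.1; simpa using this
  have key : ∀ i j : ℕ, i < j → hs p i ≠ hs p j := by
    intro i j hij h
    unfold hs at h
    have h0 : p.1 ≠ 0 := by rcases hε with h | h <;> rw [h] <;> norm_num
    have h1 := mul_left_cancel₀ h0 h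
    have hc1 := Real.cosh_pos (1 * (i : ℝ) + -((p.2 : ℝ) + 1 / 2))
    have hc2 := Real.cosh_pos (1 * (j : ℝ) + -((p.2 : ℝ) + 1 / 2))
    have hcase : Even (i + j) → False := by
      intro he
      obtain ⟨m, hm⟩ := he
      have hm' : ((i : ℝ) + j) = 2 * m := by
        have : i + j = 2 * m := by omega
        exact_mod_cast this
      have h2 : Real.cosh (1 * (i : ℝ) + -((p.2 : ℝ) + 1 / 2)) =
          Real.cosh (1 * (j : ℝ) + -((p.2 : ℝ) + 1 / 2)) := by
        have e : ((-1 : ℝ)) ^ i = (-1) ^ j := by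
          rcases Nat.even_or_odd i with e | e <;> rcases Nat.even_or_odd j with e' | e'
          · rw [e.neg_one_pow, e'.neg_one_pow]
          · rw [Nat.even_iff] at e; rw [Nat.odd_iff] at e'; omega
          · rw [Nat.odd_iff] at e; rw [Nat.even_iff] at e'; omega
          · rw [e.neg_one_pow, e'.neg_one_pow]
        rw [e] at h1
        exact mul_left_cancel₀ (pow_ne_zero _ (by norm_num)) h1
      rw [cosh_eq_iff 1 _ hij, hm'] at h2
      exact hs_ne _ _ h2
    rcases Nat.even_or_odd i with e | e <;> rcases Nat.even_or_odd j with e' | e'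
    · exact hcase (e.add e')
    · rw [e.neg_one_pow, e'.neg_one_pow] at h1; linarith
    · rw [e.neg_one_pow, e'.neg_one_pow] at h1; linarith
    · exact hcase (e.add_odd e')
  intro i j hij
  rcases lt_trichotomy (i : ℕ) j with h | h | h
  · exact absurd hij (key _ _ h)
  · exact Fin.ext h
  · exact absurd hij.symm (key _ _ h)

/-- the permutation of a model sequence -/
noncomputable def eta (d : ℕ) (p : ℝ × ℕ) : Equiv.Perm (Fin (d + 1)) := by
  classical
  exact if h : ∃ σ : Equiv.Perm (Fin (d + 1)), StrictAnti fun k => hs p (σ k : ℕ) then h.choose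
    else 1

theorem eta_spec {d : ℕ} {p : ℝ × ℕ} (hp : p ∈ R d) :
    StrictAnti fun k => hs p (eta d p k : ℕ) := by
  have h' : ∃ σ : Equiv.Perm (Fin (d + 1)), StrictAnti fun k => hs p (σ k : ℕ) :=
    exists_sort (fun i : Fin (d + 1) => hs p i) (hs_inj hp)
  unfold eta
  rw [dif_pos h']
  exact h'.choose_spec

/-- the order of the model sequence at the turning point -/
theorem hs_turn {d : ℕ} {p : ℝ × ℕ} (hp : p ∈ R d) :
    0 < p.1 * (-1) ^ p.2 ∧ (hs p (p.2 - 1) < hs p (p.2 + 1) ∧ hs p (p.2) < hs p (p.2 + 2) ∧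
      hs p (p.2 + 1) < hs p p.2) ∨
    p.1 * (-1) ^ p.2 < 0 ∧ (hs p (p.2 + 1) < hs p (p.2 - 1) ∧ hs p (p.2 + 2) < hs p (p.2) ∧
      hs p p.2 < hs p (p.2 + 1)) := by
  obtain ⟨ε, m⟩ := p
  have hε : ε = 1 ∨ ε = -1 := by
    have := hp.1; simpa using this
  have hm : 1 ≤ m ∧ m ≤ d - 2 := hp.2
  simp only
  obtain ⟨n, rfl⟩ : ∃ n, m = n + 1 := ⟨m - 1, by omega⟩
  have e0 : n + 1 - 1 = n := by omega
  rw [e0]
  have c1 : ¬ Real.cosh (1 * (n : ℝ) + -(((n + 1 : ℕ) : ℝ) + 1 / 2)) <
      Real.cosh (1 * ((n + 2 : ℕ) : ℝ) + -(((n + 1 : ℕ) : ℝ) + 1 / 2)) := by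
    rw [cosh_lt_iff 1 _ (by omega)]
    have e : ((n : ℝ) + ((n + 2 : ℕ) : ℝ)) = 2 * ((n + 1 : ℕ) : ℝ) := by push_cast; ring
    rw [e, hs_pos]
    exact lt_irrefl _
  have c1' : Real.cosh (1 * (n : ℝ) + -(((n + 1 : ℕ) : ℝ) + 1 / 2)) ≠
      Real.cosh (1 * ((n + 2 : ℕ) : ℝ) + -(((n + 1 : ℕ) : ℝ) + 1 / 2)) := by
    rw [Ne, cosh_eq_iff 1 _ (by omega)]
    have e : ((n : ℝ) + ((n + 2 : ℕ) : ℝ)) = 2 * ((n + 1 : ℕ) : ℝ) := by push_cast; ring
    rw [e]
    exact hs_ne _ _
  have c1'' := lt_of_le_of_ne (not_lt.1 c1) c1'.symm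
  have c2 : Real.cosh (1 * ((n + 1 : ℕ) : ℝ) + -(((n + 1 : ℕ) : ℝ) + 1 / 2)) <
      Real.cosh (1 * ((n + 3 : ℕ) : ℝ) + -(((n + 1 : ℕ) : ℝ) + 1 / 2)) := by
    rw [cosh_lt_iff 1 _ (by omega)]
    have e : (((n + 1 : ℕ) : ℝ) + ((n + 3 : ℕ) : ℝ)) = 2 * ((n + 2 : ℕ) : ℝ) := by
      push_cast; ring
    rw [e, hs_pos]
    omega
  have p1 := Real.cosh_pos (1 * ((n + 1 : ℕ) : ℝ) + -(((n + 1 : ℕ) : ℝ) + 1 / 2))
  have p2 := Real.cosh_pos (1 * ((n + 2 : ℕ) : ℝ) + -(((n + 1 : ℕ) : ℝ) + 1 / 2))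
  simp only [hs]
  have e1 : n + 1 + 1 = n + 2 := rfl
  have e2 : n + 1 + 2 = n + 3 := rfl
  rw [e1, e2]
  rcases Nat.even_or_odd n with h | h
  · have s1 : ((-1 : ℝ)) ^ n = 1 := h.neg_one_pow
    have s2 : ((-1 : ℝ)) ^ (n + 1) = -1 := by rw [pow_succ, s1]; ring
    have s3 : ((-1 : ℝ)) ^ (n + 2) = 1 := by rw [pow_add, s1]; norm_num
    have s4 : ((-1 : ℝ)) ^ (n + 3) = -1 := by rw [pow_add, s1]; norm_num
    rw [s1, s2, s3, s4]
    rcases hε with rfl | rfl
    · right
      refine ⟨by norm_num, ?_, ?_, ?_⟩ <;> linarith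
    · left
      refine ⟨by norm_num, ?_, ?_, ?_⟩ <;> linarith
  · have s1 : ((-1 : ℝ)) ^ n = -1 := h.neg_one_pow
    have s2 : ((-1 : ℝ)) ^ (n + 1) = 1 := by rw [pow_succ, s1]; ring
    have s3 : ((-1 : ℝ)) ^ (n + 2) = -1 := by rw [pow_add, s1]; norm_num
    have s4 : ((-1 : ℝ)) ^ (n + 3) = 1 := by rw [pow_add, s1]; norm_num
    rw [s1, s2, s3, s4]
    rcases hε with rfl | rfl
    · left
      refine ⟨by norm_num, ?_, ?_, ?_⟩ <;> linarith
    · right
      refine ⟨by norm_num, ?_, ?_, ?_⟩ <;> linarith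

/-- the model permutations are not attained by cosines -/
theorem eta_notMem {d : ℕ} {p : ℝ × ℕ} (hp : p ∈ R d) : eta d p ∉ Tset d := by
  rintro ⟨a, b, h⟩
  have hm : 1 ≤ p.2 ∧ p.2 ≤ d - 2 := hp.2
  set t : ℕ → ℝ := fun i => Real.cos (a * i + b) with ht
  have hord : ∀ i j : ℕ, i ≤ d → j ≤ d → (hs p j < hs p i ↔ t j < t i) := by
    intro i j hi hj
    have h1 := strictAnti_iff (f := fun i : Fin (d + 1) => hs p i) (eta_spec hp) ⟨i, by omega⟩
      ⟨j, by omega⟩
    have h2 := strictAnti_iff (f := fun i : Fin (d + 1) => t i) h ⟨i, by omega⟩ ⟨j, by omega⟩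
    exact h1.symm.trans h2
  have hrec : ∀ i : ℕ, t i + t (i + 2) = 2 * Real.cos a * t (i + 1) := by
    intro i
    simp only [ht]
    push_cast
    have e2 : a * ((i : ℝ) + 2) + b = (a * (i + 1) + b) + a := by ring
    have e3 : a * (i : ℝ) + b = (a * (i + 1) + b) - a := by ring
    rw [e2, e3, Real.cos_add, Real.cos_sub]
    ring
  obtain ⟨n, hn⟩ : ∃ n, p.2 = n + 1 := ⟨p.2 - 1, by omega⟩
  have h3 := hrec n
  have h4 := hrec (n + 1)
  have e1 : n + 1 + 1 = n + 2 := rfl
  have e2 : n + 1 + 2 = n + 3 := rfl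
  have e0 : n + 1 - 1 = n := by omega
  rw [e1, e2] at h4
  have hc := Real.neg_one_le_cos a
  have ht := hs_turn hp
  rw [hn, e0, e1, e2] at ht
  rcases ht with ⟨-, h5, h6, h7⟩ | ⟨-, h5, h6, h7⟩
  · have k5 := (hord (n + 2) n (by omega) (by omega)).1 h5
    have k6 := (hord (n + 3) (n + 1) (by omega) (by omega)).1 h6
    have k7 := (hord (n + 1) (n + 2) (by omega) (by omega)).1 h7
    nlinarith
  · have k5 := (hord n (n + 2) (by omega) (by omega)).1 h5
    have k6 := (hord (n + 1) (n + 3) (by omega) (by omega)).1 h6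
    have k7 := (hord (n + 2) (n + 1) (by omega) (by omega)).1 h7
    nlinarith

theorem eta_injOn (d : ℕ) : InjOn (eta d) (R d) := by
  intro p hp q hq hpq
  have hm : 1 ≤ p.2 ∧ p.2 ≤ d - 2 := hp.2
  have hm' : 1 ≤ q.2 ∧ q.2 ≤ d - 2 := hq.2
  have hε : p.1 = 1 ∨ p.1 = -1 := by have := hp.1; simpa using this
  have hε' : q.1 = 1 ∨ q.1 = -1 := by have := hq.1; simpa using this
  have hord : ∀ i j : ℕ, i ≤ d → j ≤ d → (hs p j < hs p i ↔ hs q j < hs q i) := by
    intro i j hi hj
    have h1 := strictAnti_iff (f := fun i : Fin (d + 1) => hs p i) (eta_spec hp) ⟨i, by omega⟩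
      ⟨j, by omega⟩
    have h2 := strictAnti_iff (f := fun i : Fin (d + 1) => hs q i) (eta_spec hq) ⟨i, by omega⟩
      ⟨j, by omega⟩
    rw [← hpq] at h2
    exact h1.symm.trans h2
  have h01 : ∀ r : ℝ × ℕ, (r.1 = 1 → hs r 1 < hs r 0) ∧ (r.1 = -1 → hs r 0 < hs r 1) := by
    intro r
    have p1 := Real.cosh_pos (1 * ((0 : ℕ) : ℝ) + -((r.2 : ℝ) + 1 / 2))
    have p2 := Real.cosh_pos (1 * ((1 : ℕ) : ℝ) + -((r.2 : ℝ) + 1 / 2))
    unfold hs
    constructor
    · intro h; rw [h, pow_zero, pow_one]; linarith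
    · intro h; rw [h, pow_zero, pow_one]; linarith
  have h1 : p.1 = q.1 := by
    rcases hε with h | h <;> rcases hε' with h' | h'
    · rw [h, h']
    · exfalso
      have a := (hord 0 1 (by omega) (by omega)).1 ((h01 p).1 h)
      exact absurd a (not_lt.2 ((h01 q).2 h').le)
    · exfalso
      have a := (hord 0 1 (by omega) (by omega)).2 ((h01 q).1 h')
      exact absurd a (not_lt.2 ((h01 p).2 h).le)
    · rw [h, h']
  -- the turning point
  have hlt : ∀ p q : ℝ × ℕ, p ∈ R d → q ∈ R d → p.1 = q.1 → p.2 < q.2 →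
      (∀ i j : ℕ, i ≤ d → j ≤ d → (hs p j < hs p i ↔ hs q j < hs q i)) → False := by
    intro p q hp hq h1 h2 hord
    have hm : 1 ≤ p.2 ∧ p.2 ≤ d - 2 := hp.2
    have hm' : 1 ≤ q.2 ∧ q.2 ≤ d - 2 := hq.2
    have a1 : Real.cosh (1 * (p.2 : ℝ) + -((p.2 : ℝ) + 1 / 2)) <
        Real.cosh (1 * ((p.2 + 2 : ℕ) : ℝ) + -((p.2 : ℝ) + 1 / 2)) := by
      rw [cosh_lt_iff 1 _ (by omega)]
      have e : (p.2 : ℝ) + ((p.2 + 2 : ℕ) : ℝ) = 2 * ((p.2 + 1 : ℕ) : ℝ) := by push_cast; ring
      rw [e, hs_pos]; omega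
    have a2 : ¬ Real.cosh (1 * (p.2 : ℝ) + -((q.2 : ℝ) + 1 / 2)) <
        Real.cosh (1 * ((p.2 + 2 : ℕ) : ℝ) + -((q.2 : ℝ) + 1 / 2)) := by
      rw [cosh_lt_iff 1 _ (by omega)]
      have e : (p.2 : ℝ) + ((p.2 + 2 : ℕ) : ℝ) = 2 * ((p.2 + 1 : ℕ) : ℝ) := by push_cast; ring
      rw [e, hs_pos]; omega
    have b1 := hord p.2 (p.2 + 2) (by omega) (by omega)
    have b2 := hord (p.2 + 2) p.2 (by omega) (by omega)
    unfold hs at b1 b2
    rw [h1] at b1 b2
    have e : ((-1 : ℝ)) ^ (p.2 + 2) = (-1) ^ p.2 := by rw [pow_add]; norm_num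
    rw [e] at b1 b2
    have h3 : q.1 * (-1) ^ p.2 = 1 ∨ q.1 * (-1) ^ p.2 = -1 := by
      have hq1 : q.1 = 1 ∨ q.1 = -1 := by have := hq.1; simpa using this
      rcases neg_one_pow_eq_or ℝ p.2 with h | h <;> rcases hq1 with h' | h' <;> rw [h, h'] <;>
        norm_num
    simp only [← mul_assoc] at b1 b2
    rcases h3 with h3 | h3
    · rw [h3] at b2
      simp only [one_mul] at b2
      exact a2 (by simpa using b2.1 (by simpa using a1))
    · rw [h3] at b1
      simp only [neg_mul, one_mul, neg_lt_neg_iff] at b1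
      exact a2 (by simpa using b1.1 (by simpa using a1))
  refine Prod.ext h1 ?_
  rcases lt_trichotomy p.2 q.2 with h2 | h2 | h2
  · exact (hlt p q hp hq h1 h2 hord).elim
  · exact h2
  · exact (hlt q p hq hp h1.symm h2 (fun i j hi hj => (hord i j hi hj).symm)).elim

theorem Hset_diff (d : ℕ) (hd : 2 ≤ d) : Hset d \ Tset d = eta d '' R d := by
  ext σ
  constructor
  · rintro ⟨⟨a, b, ε, hε, h⟩, hT⟩
    set x : ℕ → ℝ := fun i => ε * ((-1) ^ i * Real.cosh (a * i + b)) with hx
    have hinj : ∀ i j : ℕ, i ≤ d → j ≤ d → x i = x j → i = j := by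
      intro i j hi hj hij
      have h2 := h.injective (a₁ := σ.symm ⟨i, by omega⟩) (a₂ := σ.symm ⟨j, by omega⟩) (by
        simp only [Equiv.apply_symm_apply]
        exact hij)
      have h3 := σ.symm.injective h2
      exact congrArg Fin.val h3
    have hne : ∀ m : ℕ, 1 ≤ m → m ≤ d - 1 → a * (a * (2 * m) + 2 * b) ≠ 0 := by
      intro m hm hm' h0
      have h1 : Real.cosh (a * ((m - 1 : ℕ) : ℝ) + b) = Real.cosh (a * ((m + 1 : ℕ) : ℝ) + b) := by
        rw [cosh_eq_iff a b (by omega)]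
        have e : ((m - 1 : ℕ) : ℝ) + ((m + 1 : ℕ) : ℝ) = 2 * m := by
          have : (m - 1) + (m + 1) = 2 * m := by omega
          exact_mod_cast this
        rw [e]; exact h0
      have h2 := hinj (m - 1) (m + 1) (by omega) (by omega) (by
        simp only [hx]
        have e : m + 1 = (m - 1) + 2 := by omega
        have e' : ((-1 : ℝ)) ^ (m + 1) = (-1) ^ (m - 1) := by rw [e, pow_add]; norm_num
        rw [e', h1])
      omega
    -- `σ` is the permutation of every sequence with the same order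
    have huniq : ∀ {y : ℕ → ℝ}, SameOrder d x y → StrictAnti fun k => y (σ k : ℕ) := by
      intro y hy k l hkl
      exact (hy _ _ (by omega) (by omega)).1 (h hkl)
    have hTT : ¬ TypeT d x := by
      rintro ⟨a', b', h'⟩
      exact hT ⟨a', b', huniq h'⟩
    have ha : a ≠ 0 := by
      intro ha
      exact hne 1 le_rfl (by omega) (by rw [ha]; ring)
    have hmono : ∀ m : ℕ, 0 < a * (a * (2 * m) + 2 * b) → 0 < a * (a * (2 * (m + 1 : ℕ)) + 2 * b) := by
      intro m hm
      push_cast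
      have : 0 < a ^ 2 := by positivity
      nlinarith
    have hmono' : ∀ m k : ℕ, m ≤ k → 0 < a * (a * (2 * m) + 2 * b) →
        0 < a * (a * (2 * k) + 2 * b) := by
      intro m k hk h0
      induction k, hk using Nat.le_induction with
      | base => exact h0
      | succ k _ ih => exact hmono k ih
    -- comparison with monotone magnitudes
    have hmonT : ∀ (s r : ℝ), (∀ i : ℕ, i ≤ d → 0 < s * i + r) →
        (∀ m : ℕ, 1 ≤ m → m ≤ d - 1 → (0 < a * (a * (2 * m) + 2 * b) ↔ 0 < s)) → s ≠ 0 →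
        TypeT d x := by
      intro s r hpos hm hs0
      have h1 : SameOrder d x (fun i => ε * ((-1) ^ i * (s * i + r))) := by
        refine same_alt (fun i _ => Real.cosh_pos _) hpos hε ?_
        have key : ∀ i j : ℕ, i < j → j ≤ d → (Even i ↔ Even j) →
            (Real.cosh (a * i + b) < Real.cosh (a * j + b) ↔ s * i + r < s * j + r) ∧
            Real.cosh (a * i + b) ≠ Real.cosh (a * j + b) ∧ s * (i : ℝ) + r ≠ s * j + r := by
          intro i j hij hj hp
          have hs : Even (i + j) := by rw [Nat.even_add]; exact hp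
          obtain ⟨m, hm0⟩ := hs
          have hm' : ((i : ℝ) + j) = 2 * m := by
            have : i + j = 2 * m := by omega
            exact_mod_cast this
          have hmr : 1 ≤ m ∧ m ≤ d - 1 := by
            rw [Nat.even_iff, Nat.even_iff] at hp
            omega
          have hij' : (i : ℝ) < j := by exact_mod_cast hij
          rw [cosh_lt_iff a b hij, Ne, cosh_eq_iff a b hij, hm', hm m hmr.1 hmr.2]
          refine ⟨⟨fun h => by nlinarith, fun h => ?_⟩, hne m hmr.1 hmr.2, fun h => ?_⟩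
          · by_contra h2
            nlinarith [not_lt.1 h2]
          · have : s * ((j : ℝ) - i) = 0 := by linarith
            rcases mul_eq_zero.1 this with h2 | h2
            · exact hs0 h2
            · linarith
        intro i j hi hj hp
        rcases lt_trichotomy i j with h1 | h1 | h1
        · exact (key i j h1 hj hp).1
        · rw [h1]; simp
        · obtain ⟨k1, k2, k3⟩ := key j i h1 hi hp.symm
          constructor
          · intro h2
            by_contra h3
            exact absurd (k1.2 (lt_of_le_of_ne (not_lt.1 h3) k3)) (not_lt.2 h2.le)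
          · intro h2
            by_contra h3
            exact absurd (k1.1 (lt_of_le_of_ne (not_lt.1 h3) k2)) (not_lt.2 h2.le)
      refine TypeT.of_same h1 ?_
      rcases hε with rfl | rfl
      · simpa using typeT_alt d s r
      · simpa using typeT_neg (typeT_alt d s r)
    -- not all of one sign
    have hnot1 : ¬ 0 < a * (a * (2 * (1 : ℕ)) + 2 * b) := by
      intro h1
      apply hTT
      apply hmonT 1 1 (fun i _ => by positivity) _ one_ne_zero
      intro m hm _
      exact ⟨fun _ => one_pos, fun _ => hmono' 1 m hm h1⟩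
    have hnot2 : 0 < a * (a * (2 * (d - 1 : ℕ)) + 2 * b) := by
      by_contra h1
      apply hTT
      apply hmonT (-1) (d + 1) _ _ (by norm_num)
      · intro i hi
        have : (i : ℝ) ≤ d := by exact_mod_cast hi
        linarith
      · intro m hm hm'
        constructor
        · intro h2
          exact absurd (hmono' m (d - 1) hm' h2) h1
        · intro h2; norm_num at h2
    -- the turning point
    obtain ⟨m, hm1, hm2, hm3, hm4⟩ : ∃ m : ℕ, 1 ≤ m ∧ m + 1 ≤ d - 1 ∧
        ¬ 0 < a * (a * (2 * m) + 2 * b) ∧ 0 < a * (a * (2 * (m + 1 : ℕ)) + 2 * b) := by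
      by_contra hcon
      push Not at hcon
      have hall : ∀ k : ℕ, 1 ≤ k → k ≤ d - 1 → ¬ 0 < a * (a * (2 * k) + 2 * b) := by
        intro k hk
        induction k, hk using Nat.le_induction with
        | base => intro _; exact hnot1
        | succ k hk ih =>
          intro hk'
          have := hcon k hk hk' (not_lt.1 (ih (by omega)))
          exact not_lt.2 this
      exact hall (d - 1) (by omega) le_rfl hnot2
    refine ⟨(ε, m), ⟨by simpa using hε, by omega, by omega⟩, ?_⟩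
    have hR : (ε, m) ∈ R d := ⟨by simpa using hε, by omega, by omega⟩
    apply perm_unique (f := fun i : Fin (d + 1) => hs (ε, m) i) (eta_spec hR)
    apply huniq
    apply same_H hε _ hne (fun s _ _ => hs_ne m s)
    intro s hs1 hs2
    rw [hs_pos]
    constructor
    · intro h1
      by_contra h2
      exact hm3 (hmono' s m (by omega) h1)
    · intro h1
      exact hmono' (m + 1) s (by omega) hm4
  · rintro ⟨p, hp, rfl⟩
    refine ⟨⟨1, -((p.2 : ℝ) + 1 / 2), p.1, ?_, eta_spec hp⟩, eta_notMem hp⟩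
    have := hp.1
    simpa using this

theorem Hset_encard (d : ℕ) (hd : 2 ≤ d) :
    (Hset d \ Tset d).encard = ((2 * (d - 2) : ℕ) : ℕ∞) := by
  rw [Hset_diff d hd, (eta_injOn d).encard_image, R, encard_prod, encard_pair (by norm_num)]
  have : (Set.Icc 1 (d - 2) : Set ℕ).encard = ((d - 2 : ℕ) : ℕ∞) := by
    rw [← Finset.coe_Icc, Set.encard_coe_eq_coe_finsetCard, Nat.card_Icc]
    congr 1
  rw [this]
  push_cast
  rfl

theorem total_encard (d : ℕ) (hd : 2 ≤ d) : (Tset d ∪ Hset d).encard =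
    (((d + 1) * Phi d + ∑ N ∈ Finset.Icc (d + 1) (2 * d - 2), Phi N + 2 * (d - 2) : ℕ) : ℕ∞) := by
  rw [← Set.union_sdiff_self, encard_union_eq Set.disjoint_sdiff_right, Tset_encard d hd,
    two_P_formula d hd, Hset_encard d hd]
  push_cast
  rfl

end Pool.Agent.K3h49.Leo
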