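import Mathlib

/-!
# Leonard systems over the reals: definitions and the matrix form
-/

set_option autoImplicit false

namespace Pool.Agent.K3h49.Leo

/-- `A` is a multiplicity-free endomorphism with the pairwise different eigenvalues `θ 0, …, θ d`,
and `E 0, …, E d` are its primitive idempotents in the corresponding order: they are nonzero, they
are idempotent and mutually orthogonal, their sum is `1`, and `A E_i = θ_i E_i` -/
structure IsPrimitive {V : Type*} [AddCommGroup V] [Module ℝ V] (d : ℕ) (A : Module.End ℝ V)
    (E : Fin (d + 1) → Module.End ℝ V) (θ : Fin (d + 1) → ℝ) : Prop where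
  inj : Function.Injective θ
  ne_zero : ∀ i, E i ≠ 0
  idem : ∀ i, E i * E i = E i
  orth : ∀ i j, i ≠ j → E i * E j = 0
  sum : ∑ i, E i = 1
  eig : ∀ i, A * E i = θ i • E i

/-- A Leonard system `(A; A^*; {E_i}; {E^*_i})` on the real vector space `V` of dimension `d + 1`,
together with the eigenvalue sequence `θ` of `A` and the eigenvalue sequence `θs` of `A^*` -/
structure LeonardSystem (d : ℕ) (V : Type*) [AddCommGroup V] [Module ℝ V] where
  A : Module.End ℝ V
  As : Module.End ℝ V
  E : Fin (d + 1) → Module.End ℝ V
  Es : Fin (d + 1) → Module.End ℝ V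
  θ : Fin (d + 1) → ℝ
  θs : Fin (d + 1) → ℝ
  prim : IsPrimitive d A E θ
  prims : IsPrimitive d As Es θs
  far : ∀ i j : Fin (d + 1), 1 < |(i : ℤ) - (j : ℤ)| → E i * As * E j = 0
  near : ∀ i j : Fin (d + 1), |(i : ℤ) - (j : ℤ)| = 1 → E i * As * E j ≠ 0
  fars : ∀ i j : Fin (d + 1), 1 < |(i : ℤ) - (j : ℤ)| → Es i * A * Es j = 0
  nears : ∀ i j : Fin (d + 1), |(i : ℤ) - (j : ℤ)| = 1 → Es i * A * Es j ≠ 0

section bases

variable {V : Type*} [AddCommGroup V] [Module ℝ V] {d : ℕ}

/-- the basis of eigenvectors belonging to the primitive idempotents -/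
theorem IsPrimitive.exists_basis {A : Module.End ℝ V} {E : Fin (d + 1) → Module.End ℝ V}
    {θ : Fin (d + 1) → ℝ} (h : IsPrimitive d A E θ) (hV : Module.finrank ℝ V = d + 1) :
    ∃ v : Module.Basis (Fin (d + 1)) ℝ V, (∀ i, A (v i) = θ i • v i) ∧
      ∀ i x, E i x = v.repr x i • v i := by
  have hex : ∀ i, ∃ x : V, E i x ≠ 0 := by
    intro i
    by_contra hc
    push Not at hc
    exact h.ne_zero i (LinearMap.ext hc)
  choose x hx using hex
  set u : Fin (d + 1) → V := fun i => E i (x i) with hu
  have hEu : ∀ i, E i (u i) = u i := fun i => by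
    have := congrArg (fun f : Module.End ℝ V => f (x i)) (h.idem i)
    simpa using this
  have hEu' : ∀ i j, i ≠ j → E i (u j) = 0 := fun i j hij => by
    have := congrArg (fun f : Module.End ℝ V => f (x j)) (h.orth i j hij)
    simpa using this
  have hli : LinearIndependent ℝ u := by
    rw [Fintype.linearIndependent_iff]
    intro g hg i
    have h1 := congrArg (E i) hg
    rw [map_sum, map_zero, Finset.sum_eq_single i] at h1
    · rw [map_smul, hEu] at h1
      exact (smul_eq_zero.1 h1).resolve_right (hx i)
    · intro j _ hj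
      rw [map_smul, hEu' i j (Ne.symm hj), smul_zero]
    · intro hi; exact absurd (Finset.mem_univ i) hi
  have hcard : Fintype.card (Fin (d + 1)) = Module.finrank ℝ V := by simp [hV]
  let v : Module.Basis (Fin (d + 1)) ℝ V := basisOfLinearIndependentOfCardEqFinrank hli hcard
  have hv : ∀ i, v i = u i := fun i => by simp [v]
  refine ⟨v, fun i => ?_, fun i y => ?_⟩
  · rw [hv]
    have := congrArg (fun f : Module.End ℝ V => f (x i)) (h.eig i)
    simpa using this
  · have h1 : y = ∑ j, v.repr y j • v j := (v.sum_repr y).symm
    conv_lhs => rw [h1]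
    rw [map_sum, Finset.sum_eq_single i]
    · rw [map_smul, hv, hEu]
    · intro j _ hj
      rw [map_smul, hv, hEu' i j (Ne.symm hj), smul_zero]
    · intro hi; exact absurd (Finset.mem_univ i) hi

/-- the projections along a basis -/
noncomputable def proj (v : Module.Basis (Fin (d + 1)) ℝ V) (i : Fin (d + 1)) : Module.End ℝ V :=
  (v.coord i).smulRight (v i)

theorem proj_apply (v : Module.Basis (Fin (d + 1)) ℝ V) (i : Fin (d + 1)) (x : V) :
    proj v i x = v.repr x i • v i := by
  simp [proj]

theorem isPrimitive_proj (v : Module.Basis (Fin (d + 1)) ℝ V) (A : Module.End ℝ V)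
    (θ : Fin (d + 1) → ℝ) (hθ : Function.Injective θ) (hA : ∀ i, A (v i) = θ i • v i) :
    IsPrimitive d A (proj v) θ where
  inj := hθ
  ne_zero := fun i h => by
    have := congrArg (fun f : Module.End ℝ V => f (v i)) h
    simp only [proj_apply, Module.Basis.repr_self, Finsupp.single_eq_same, one_smul,
      LinearMap.zero_apply] at this
    exact v.ne_zero i this
  idem := fun i => by
    apply v.ext
    intro j
    simp only [Module.End.mul_apply, proj_apply, map_smul, Module.Basis.repr_self,
      Finsupp.single_eq_same, one_smul]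
  orth := fun i j hij => by
    apply v.ext
    intro k
    simp only [Module.End.mul_apply, proj_apply, map_smul, Module.Basis.repr_self,
      LinearMap.zero_apply]
    rw [Finsupp.single_eq_of_ne hij]
    simp
  sum := by
    apply LinearMap.ext
    intro x
    rw [LinearMap.sum_apply]
    simp only [proj_apply]
    exact v.sum_repr x
  eig := fun i => by
    apply LinearMap.ext
    intro x
    simp only [Module.End.mul_apply, proj_apply, map_smul, LinearMap.smul_apply, hA]
    rw [smul_comm]

theorem proj_mul_mul (v : Module.Basis (Fin (d + 1)) ℝ V) (B : Module.End ℝ V)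
    (i j : Fin (d + 1)) : proj v i * B * proj v j = 0 ↔ v.repr (B (v j)) i = 0 := by
  constructor
  · intro h
    have h1 := congrArg (fun f : Module.End ℝ V => v.repr (f (v j)) i) h
    simpa [proj_apply] using h1
  · intro h
    apply LinearMap.ext
    intro x
    simp [Module.End.mul_apply, proj_apply, h]

end bases

end Pool.Agent.K3h49.Leo
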