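import Pool.Agent.K3h49.Leo.Rec

/-!
# Construction of Leonard systems with a given eigenvalue sequence
-/

set_option autoImplicit false

namespace Pool.Agent.K3h49.Leo

open Polynomial

/-- a Leonard system from two bases -/
theorem mk_system {V : Type*} [AddCommGroup V] [Module ℝ V] {d : ℕ}
    (v w : Module.Basis (Fin (d + 1)) ℝ V) (A As : Module.End ℝ V) (θ θs : Fin (d + 1) → ℝ)
    (hθ : Function.Injective θ) (hθs : Function.Injective θs)
    (hv : ∀ i, A (v i) = θ i • v i) (hw : ∀ i, As (w i) = θs i • w i)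
    (h1 : ∀ i j : Fin (d + 1), 1 < |(i : ℤ) - (j : ℤ)| → v.repr (As (v j)) i = 0)
    (h2 : ∀ i j : Fin (d + 1), |(i : ℤ) - (j : ℤ)| = 1 → v.repr (As (v j)) i ≠ 0)
    (h3 : ∀ i j : Fin (d + 1), 1 < |(i : ℤ) - (j : ℤ)| → w.repr (A (w j)) i = 0)
    (h4 : ∀ i j : Fin (d + 1), |(i : ℤ) - (j : ℤ)| = 1 → w.repr (A (w j)) i ≠ 0) :
    ∃ Φ : LeonardSystem d V, Φ.θ = θ :=
  ⟨{ A := A, As := As, E := proj v, Es := proj w, θ := θ, θs := θs
     prim := isPrimitive_proj v A θ hθ hv
     prims := isPrimitive_proj w As θs hθs hw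
     far := fun i j h => (proj_mul_mul v As i j).2 (h1 i j h)
     near := fun i j h h' => h2 i j h ((proj_mul_mul v As i j).1 h')
     fars := fun i j h => (proj_mul_mul w A i j).2 (h3 i j h)
     nears := fun i j h h' => h4 i j h ((proj_mul_mul w A i j).1 h') }, rfl⟩

section

variable (d : ℕ) (t : ℕ → ℝ) (p n : ℕ → ℝ)

/-- the tridiagonal matrix with zero diagonal -/
noncomputable def mat (i j : Fin (d + 1)) : ℝ :=
  (if (j : ℕ) = i + 1 then p i else 0) + (if (i : ℕ) = j + 1 then n i else 0)

/-- the operator of the matrix -/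
noncomputable def opB : Module.End ℝ (Fin (d + 1) → ℝ) where
  toFun f := fun i => ∑ j, mat d p n i j * f j
  map_add' f g := by
    funext i
    simp only [Pi.add_apply, mul_add, Finset.sum_add_distrib]
  map_smul' c f := by
    funext i
    simp only [Pi.smul_apply, smul_eq_mul, RingHom.id_apply, Finset.mul_sum]
    exact Finset.sum_congr rfl fun j _ => by ring

/-- the multiplication by the sequence `t` -/
noncomputable def opA : Module.End ℝ (Fin (d + 1) → ℝ) where
  toFun f := fun i => t i * f i
  map_add' f g := by funext i; simp [mul_add]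
  map_smul' c f := by funext i; simp; ring

/-- the function of a polynomial -/
noncomputable def fn : ℝ[X] →ₗ[ℝ] (Fin (d + 1) → ℝ) where
  toFun P := fun i => P.eval (t i)
  map_add' P Q := by funext i; simp
  map_smul' c P := by funext i; simp

theorem fn_apply (P : ℝ[X]) (i : Fin (d + 1)) : fn d t P i = P.eval (t i) := rfl

theorem opA_apply (f : Fin (d + 1) → ℝ) (i : Fin (d + 1)) : opA d t f i = t i * f i := rfl

theorem opB_apply (f : Fin (d + 1) → ℝ) (i : Fin (d + 1)) :
    opB d p n f i = ∑ j, mat d p n i j * f j := rfl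

theorem opA_fn (P : ℝ[X]) : opA d t (fn d t P) = fn d t (X * P) := by
  funext i
  simp [opA_apply, fn_apply]

/-- evaluation of the sum of a row -/
theorem row_sum (g : ℕ → ℝ) (i : Fin (d + 1)) :
    ∑ j : Fin (d + 1), mat d p n i j * g j =
      (if (i : ℕ) < d then p i * g (i + 1) else 0) + (if 0 < (i : ℕ) then n i * g (i - 1) else 0) := by
  simp only [mat, add_mul, Finset.sum_add_distrib]
  congr 1
  · by_cases h : (i : ℕ) < d
    · rw [if_pos h, Finset.sum_eq_single (⟨i + 1, by omega⟩ : Fin (d + 1))]
      · simp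
      · intro j _ hj
        rw [if_neg, zero_mul]
        intro h1
        exact hj (Fin.ext h1)
      · intro h1; exact absurd (Finset.mem_univ _) h1
    · rw [if_neg h]
      apply Finset.sum_eq_zero
      intro j _
      rw [if_neg (by omega), zero_mul]
  · by_cases h : 0 < (i : ℕ)
    · rw [if_pos h, Finset.sum_eq_single (⟨i - 1, by omega⟩ : Fin (d + 1))]
      · rw [if_pos (by simp; omega)]
      · intro j _ hj
        rw [if_neg, zero_mul]
        intro h1
        exact hj (Fin.ext (by simp; omega))
      · intro h1; exact absurd (Finset.mem_univ _) h1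
    · rw [if_neg h]
      apply Finset.sum_eq_zero
      intro j _
      rw [if_neg (by omega), zero_mul]

end

/-- **existence** of a Leonard system with the eigenvalue sequence `t` -/
theorem exists_system_aux (d : ℕ) (t : ℕ → ℝ) (β : ℝ)
    (hinj : ∀ i j, i ≤ d → j ≤ d → t i = t j → i = j)
    (hrec : ∀ i, i + 2 ≤ d → t i + t (i + 2) = β * t (i + 1))
    (hlam : ∀ j k, j ≤ d → k ≤ d → t j - t (d - j) = t k - t (d - k) → j = k)
    (hN : ∀ i, 1 ≤ i → i + 1 ≤ d →
      (t 0 - t d) * (t (i + 1) - t 1) - (t 1 - t (d - 1)) * (t i - t 0) ≠ 0)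
    (hP : ∀ i, 1 ≤ i → i + 1 ≤ d →
      (t 1 - t (d - 1)) * (t i - t 0) - (t 0 - t d) * (t (i - 1) - t 1) ≠ 0) :
    ∃ (v w : Module.Basis (Fin (d + 1)) ℝ (Fin (d + 1) → ℝ))
      (A As : Module.End ℝ (Fin (d + 1) → ℝ)) (θs : Fin (d + 1) → ℝ),
      Function.Injective θs ∧ (∀ i, A (v i) = t i • v i) ∧ (∀ i, As (w i) = θs i • w i) ∧
      (∀ i j : Fin (d + 1), 1 < |(i : ℤ) - (j : ℤ)| → v.repr (As (v j)) i = 0) ∧
      (∀ i j : Fin (d + 1), |(i : ℤ) - (j : ℤ)| = 1 → v.repr (As (v j)) i ≠ 0) ∧
      (∀ i j : Fin (d + 1), 1 < |(i : ℤ) - (j : ℤ)| → w.repr (A (w j)) i = 0) ∧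
      (∀ i j : Fin (d + 1), |(i : ℤ) - (j : ℤ)| = 1 → w.repr (A (w j)) i ≠ 0) := by
  classical
  set lam : ℕ → ℝ := fun k => t k - t (d - k) with hlamdef
  set p : ℕ → ℝ := fun i => if i = 0 then lam 0 else
    (lam 1 * (t i - t 0) - lam 0 * (t (i - 1) - t 1)) / (t (i + 1) - t (i - 1)) with hp
  set n : ℕ → ℝ := fun i => if i = d then lam 0 else
    (lam 0 * (t (i + 1) - t 1) - lam 1 * (t i - t 0)) / (t (i + 1) - t (i - 1)) with hn
  set B := opB d p n with hB
  set A := opA d t with hA
  set F := fn d t with hF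
  have l0 : lam 0 = t 0 - t d := by simp [hlamdef]
  have l1 : lam 1 = t 1 - t (d - 1) := rfl
  have hden : ∀ i, 1 ≤ i → i + 1 ≤ d → t (i + 1) - t (i - 1) ≠ 0 := by
    intro i hi hi' h
    have := hinj (i + 1) (i - 1) (by omega) (by omega) (sub_eq_zero.1 h)
    omega
  -- the row sums
  have hB1 : ∀ i : Fin (d + 1), B (F 1) i = lam 0 * F 1 i := by
    intro i
    have h1 : B (F 1) i = ∑ j : Fin (d + 1), mat d p n i j * (fun _ => (1 : ℝ)) (j : ℕ) := by
      rw [hB, opB_apply]
      simp [hF, fn_apply]
    rw [h1, row_sum d p n (fun _ => (1 : ℝ)) i]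
    simp only [hF, fn_apply, eval_one, mul_one]
    have hi := i.2
    by_cases hd : d = 0
    · rw [if_neg (by omega), if_neg (by omega), l0, hd]; ring
    · by_cases h0 : (i : ℕ) = 0
      · rw [if_pos (by omega), if_neg (by omega), hp]
        simp [h0]
      · by_cases h2 : (i : ℕ) = d
        · rw [if_neg (by omega), if_pos (by omega), hn]
          simp [h2]
        · rw [if_pos (by omega), if_pos (by omega), hp, hn]
          simp only [h0, h2, if_false]
          rw [← add_div, div_eq_iff (hden i (by omega) (by omega))]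
          ring
  have hB2 : 1 ≤ d → ∀ i : Fin (d + 1),
      B (F X) i = lam 1 * F X i + (lam 0 * t 1 - lam 1 * t 0) := by
    intro hd i
    have h1 : B (F X) i = ∑ j : Fin (d + 1), mat d p n i j * (fun j => t j) (j : ℕ) := by
      rw [hB, opB_apply]
      simp [hF, fn_apply]
    rw [h1, row_sum d p n (fun j => t j) i]
    simp only [hF, fn_apply, eval_X]
    have hi := i.2
    by_cases h0 : (i : ℕ) = 0
    · rw [if_pos (by omega), if_neg (by omega), hp]
      simp [h0]
    · by_cases h2 : (i : ℕ) = d
      · rw [if_neg (by omega), if_pos (by omega), hn]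
        simp only [h2, if_true]
        rw [l0, l1]; ring
      · rw [if_pos (by omega), if_pos (by omega), hp, hn]
        simp only [h0, h2, if_false]
        have h3 := hden i (by omega) (by omega)
        field_simp
        ring
  -- the Askey-Wilson relation
  set ρ := t 0 ^ 2 - β * t 0 * t 1 + t 1 ^ 2 with hρ
  have hρc : ∀ i, i + 1 ≤ d → t i ^ 2 - β * t i * t (i + 1) + t (i + 1) ^ 2 = ρ := by
    intro i
    induction i with
    | zero => intro _; rw [hρ]
    | succ i ih =>
      intro hi
      rw [← ih (by omega)]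
      have := hrec i (by omega)
      have e : i + 1 + 1 = i + 2 := rfl
      rw [e]
      linear_combination (t (i + 2) - t i) * this
  have hAW : ∀ (P : ℝ[X]) (i : Fin (d + 1)), B (F (X ^ 2 * P)) i =
      β * t i * B (F (X * P)) i - t i ^ 2 * B (F P) i + ρ * B (F P) i := by
    intro P i
    simp only [hB, opB_apply, hF, fn_apply, Finset.mul_sum, ← Finset.sum_sub_distrib,
      ← Finset.sum_add_distrib, eval_mul, eval_X, eval_pow]
    apply Finset.sum_congr rfl
    intro j _
    have key : mat d p n i j * (t j ^ 2 - β * t i * t j + t i ^ 2 - ρ) = 0 := by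
      by_cases h1 : (j : ℕ) = i + 1
      · have h2 := hρc i (by have := j.2; omega)
        rw [← h1] at h2
        rw [← h2]; ring
      · by_cases h2 : (i : ℕ) = j + 1
        · have h3 := hρc j (by have := i.2; omega)
          rw [← h2] at h3
          rw [← h3]; ring
        · simp [mat, h1, h2]
    linear_combination (P.eval (t j)) * key
  have hlamrec : ∀ k, k + 2 ≤ d → lam (k + 2) = β * lam (k + 1) - lam k := by
    intro k hk
    have a := hrec k hk
    have b := hrec (d - (k + 2)) (by omega)
    have e1 : d - (k + 2) + 2 = d - k := by omega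
    have e2 : d - (k + 2) + 1 = d - (k + 1) := by omega
    rw [e1, e2] at b
    simp only [hlamdef]
    linear_combination a - b
  -- the operator is upper triangular in the basis of the powers
  have hpow : ∀ k, k ≤ d → ∃ Q : ℝ[X], Q.degree < k ∧ B (F (X ^ k)) = F (C (lam k) * X ^ k + Q) := by
    intro k
    induction k using Nat.strong_induction_on with
    | _ k ih =>
      intro hk
      match k, ih, hk with
      | 0, _, _ =>
        refine ⟨0, by simp, ?_⟩
        funext i
        have := hB1 i
        simp only [pow_zero, add_zero, mul_one]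
        rw [this]
        simp [hF, fn_apply]
      | 1, _, hk =>
        refine ⟨C (lam 0 * t 1 - lam 1 * t 0), ?_, ?_⟩
        · exact lt_of_le_of_lt degree_C_le (by norm_num)
        · funext i
          have := hB2 hk i
          rw [pow_one, this]
          simp only [hF, fn_apply, eval_add, eval_mul, eval_C, eval_X]
      | (k + 2), ih, hk =>
        obtain ⟨Q0, hQ0, e0⟩ := ih k (by omega) (by omega)
        obtain ⟨Q1, hQ1, e1⟩ := ih (k + 1) (by omega) (by omega)
        refine ⟨C β * (X * Q1) - X ^ 2 * Q0 + C ρ * (C (lam k) * X ^ k + Q0), ?_, ?_⟩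
        · have d1 : (X * Q1).degree < ((k + 2 : ℕ) : WithBot ℕ) := by
            rcases eq_or_ne Q1 0 with h | h
            · rw [h, mul_zero, degree_zero]; exact WithBot.bot_lt_coe _
            · rw [degree_mul, degree_X]
              rw [degree_eq_natDegree h] at hQ1 ⊢
              have : Q1.natDegree < k + 1 := by exact_mod_cast hQ1
              have h2 : 1 + Q1.natDegree < k + 2 := by omega
              exact_mod_cast h2
          have d2 : (X ^ 2 * Q0).degree < ((k + 2 : ℕ) : WithBot ℕ) := by
            rcases eq_or_ne Q0 0 with h | h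
            · rw [h, mul_zero, degree_zero]; exact WithBot.bot_lt_coe _
            · rw [degree_mul, degree_X_pow]
              rw [degree_eq_natDegree h] at hQ0 ⊢
              have : Q0.natDegree < k := by exact_mod_cast hQ0
              have h2 : 2 + Q0.natDegree < k + 2 := by omega
              exact_mod_cast h2
          have d3 : (C (lam k) * X ^ k + Q0).degree < ((k + 2 : ℕ) : WithBot ℕ) := by
            refine lt_of_le_of_lt (degree_add_le _ _) (max_lt ?_ ?_)
            · exact lt_of_le_of_lt (degree_C_mul_X_pow_le _ _) (by exact_mod_cast (by omega : k < k + 2))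
            · exact lt_trans hQ0 (by exact_mod_cast (by omega : k < k + 2))
          have d4 : ∀ (c : ℝ) (P : ℝ[X]), P.degree < ((k + 2 : ℕ) : WithBot ℕ) →
              (C c * P).degree < ((k + 2 : ℕ) : WithBot ℕ) := fun c P h =>
            lt_of_le_of_lt (by rw [← smul_eq_C_mul]; exact degree_smul_le c P) h
          refine lt_of_le_of_lt (degree_add_le _ _) (max_lt ?_ (d4 _ _ d3))
          exact lt_of_le_of_lt (degree_sub_le _ _) (max_lt (d4 _ _ d1) d2)
        · funext i
          have e2 : (X : ℝ[X]) ^ (k + 2) = X ^ 2 * X ^ k := by ring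
          have e3 : (X : ℝ[X]) * X ^ k = X ^ (k + 1) := by ring
          rw [e2, hAW, e3, e0, e1, hlamrec k hk]
          simp only [hF, fn_apply, eval_add, eval_sub, eval_mul, eval_C, eval_X, eval_pow]
          ring
  -- solving the equation `(B - c) h = g` for polynomials of small degree
  have hsolve : ∀ (c : ℝ) (m : ℕ), m ≤ d + 1 → (∀ j, j < m → lam j ≠ c) → ∀ g : ℝ[X],
      g.degree < m → ∃ h : ℝ[X], h.degree < m ∧ B (F h) - c • F h = F g := by
    intro c m
    induction m with
    | zero =>
      intro _ _ g hg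
      have : g = 0 := by
        by_contra h0
        rw [degree_eq_natDegree h0] at hg
        have : g.natDegree < 0 := by exact_mod_cast hg
        omega
      exact ⟨0, by simp, by simp [this]⟩
    | succ m ih =>
      intro hm hc g hg
      obtain ⟨Q, hQ, eQ⟩ := hpow m (by omega)
      have hc0 : lam m - c ≠ 0 := sub_ne_zero.2 (hc m (by omega))
      set a := g.coeff m / (lam m - c) with ha
      have hg' : (g - (C (g.coeff m) * X ^ m) - C a * Q).degree < ((m : ℕ) : WithBot ℕ) := by
        refine lt_of_le_of_lt (degree_sub_le _ _) (max_lt ?_ ?_)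
        · rw [degree_lt_iff_coeff_zero]
          intro k hk
          rw [coeff_sub, coeff_C_mul, coeff_X_pow]
          by_cases h : k = m
          · simp [h]
          · rw [if_neg h, mul_zero, sub_zero]
            exact (degree_lt_iff_coeff_zero _ _).1 hg k (by omega)
        · exact lt_of_le_of_lt (by rw [← smul_eq_C_mul]; exact degree_smul_le a Q) hQ
      obtain ⟨h', hh', eh'⟩ := ih (by omega) (fun j hj => hc j (by omega)) _ hg'
      refine ⟨C a * X ^ m + h', ?_, ?_⟩
      · refine lt_of_le_of_lt (degree_add_le _ _) (max_lt ?_ ?_)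
        · exact lt_of_le_of_lt (degree_C_mul_X_pow_le _ _)
            (by exact_mod_cast (by omega : m < m + 1))
        · exact lt_trans hh' (by exact_mod_cast (by omega : m < m + 1))
      · have e1 : F (C a * X ^ m + h') = a • F (X ^ m) + F h' := by
          rw [map_add, ← smul_eq_C_mul, map_smul]
        have e2 : F (C (lam m) * X ^ m + Q) = lam m • F (X ^ m) + F Q := by
          rw [map_add, ← smul_eq_C_mul, map_smul]
        have e3 : F (g - (C (g.coeff m) * X ^ m) - C a * Q) =
            F g - g.coeff m • F (X ^ m) - a • F Q := by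
          rw [map_sub, map_sub, ← smul_eq_C_mul, ← smul_eq_C_mul, map_smul, map_smul]
        have e4 : a * (lam m - c) = g.coeff m := div_mul_cancel₀ _ hc0
        rw [e3] at eh'
        rw [e1, map_add, map_smul, eQ, e2]
        have e5 : B (F h') = F g - g.coeff m • F (X ^ m) - a • F Q + c • F h' := by
          rw [← eh']; abel
        rw [e5, ← e4]
        module
  -- the eigenvectors
  have hW : ∀ k : Fin (d + 1), ∃ W : ℝ[X], W.Monic ∧ W.natDegree = k ∧
      B (F W) = lam k • F W := by
    intro k
    obtain ⟨Q, hQ, eQ⟩ := hpow k (by omega)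
    obtain ⟨h, hh, eh⟩ := hsolve (lam k) k (by omega) (fun j hj h => by
      have := hlam j k (by omega) (by omega) h
      omega) Q hQ
    have hd1 : (-h).degree < ((k : ℕ) : WithBot ℕ) := by rwa [degree_neg]
    refine ⟨X ^ (k : ℕ) + -h, ?_, ?_, ?_⟩
    · exact monic_X_pow_add (by
        rcases eq_or_ne (-h) 0 with h0 | h0
        · rw [h0, degree_zero]; exact WithBot.bot_lt_coe _
        · exact hd1)
    · rw [natDegree_add_eq_left_of_degree_lt, natDegree_X_pow]
      rw [degree_X_pow]; exact hd1
    · have e2 : F (C (lam k) * X ^ (k : ℕ) + Q) = lam k • F (X ^ (k : ℕ)) + F Q := by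
        rw [map_add, ← smul_eq_C_mul, map_smul]
      rw [map_add, map_neg, map_add, map_neg, eQ, e2, ← eh]
      module
  choose W hWm hWd hWe using hW
  have hF0 : ∀ P : ℝ[X], P.natDegree ≤ d → F P = 0 → P = 0 := by
    intro P hPd h0
    refine Polynomial.eq_zero_of_natDegree_lt_card_of_eval_eq_zero P
      (f := fun i : Fin (d + 1) => t i) ?_ (fun i => ?_) ?_
    · intro i j hij
      exact Fin.ext (hinj i j (by omega) (by omega) hij)
    · exact congrFun h0 i
    · simp; omega
  have hlin : LinearIndependent ℝ (fun k => F (W k)) := by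
    have h1 := Module.End.eigenvectors_linearIndependent' B (fun k : Fin (d + 1) => lam k)
      (fun i j hij => Fin.ext (hlam i j (by omega) (by omega) hij)) (fun k => F (W k))
      (fun k => by
        rw [Module.End.hasEigenvector_iff]
        refine ⟨Module.End.mem_eigenspace_iff.2 (hWe k), fun h0 => ?_⟩
        exact (hWm k).ne_zero (hF0 _ (by rw [hWd]; omega) h0))
    exact h1
  let w : Module.Basis (Fin (d + 1)) ℝ (Fin (d + 1) → ℝ) :=
    basisOfLinearIndependentOfCardEqFinrank hlin (by simp)
  have hw : ∀ k, w k = F (W k) := fun k => by simp [w]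
  -- coordinates of polynomials of small degree
  have hco : ∀ m, m ≤ d + 1 → ∀ P : ℝ[X], P.degree < m → ∀ i : Fin (d + 1), m ≤ i →
      w.repr (F P) i = 0 := by
    intro m
    induction m with
    | zero =>
      intro _ P hP' i _
      have : P = 0 := by
        by_contra h0
        rw [degree_eq_natDegree h0] at hP'
        have : P.natDegree < 0 := by exact_mod_cast hP'
        omega
      simp [this]
    | succ m ih =>
      intro hm P hP' i hi
      have h1 : (P - C (P.coeff m) * W ⟨m, by omega⟩).degree < m := by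
        rw [degree_lt_iff_coeff_zero]
        intro k hk
        rw [coeff_sub, coeff_C_mul]
        by_cases h : k = m
        · have := (hWm ⟨m, by omega⟩).coeff_natDegree
          rw [hWd] at this
          simp only at this
          rw [h, this, mul_one, sub_self]
        · have h5 : (W ⟨m, by omega⟩).coeff k = 0 :=
            coeff_eq_zero_of_natDegree_lt (by rw [hWd]; simp only; omega)
          rw [(degree_lt_iff_coeff_zero _ _).1 hP' k (by omega), h5, mul_zero, sub_zero]
      have h2 := ih (by omega) _ h1 i (by omega)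
      rw [map_sub, ← smul_eq_C_mul, map_smul, ← hw, map_sub, map_smul, w.repr_self] at h2
      have h3 : (⟨m, by omega⟩ : Fin (d + 1)) ≠ i := fun h => by
        rw [← h] at hi; simp at hi
      simpa [Finsupp.single_apply, h3] using h2
  have hco1 : ∀ m, ∀ hm : m < d + 1, ∀ P : ℝ[X], P.degree < ((m + 1 : ℕ) : WithBot ℕ) →
      w.repr (F P) ⟨m, hm⟩ = P.coeff m := by
    intro m hm P hP'
    have h1 : (P - C (P.coeff m) * W ⟨m, hm⟩).degree < m := by
      rw [degree_lt_iff_coeff_zero]
      intro k hk
      rw [coeff_sub, coeff_C_mul]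
      by_cases h : k = m
      · have := (hWm ⟨m, hm⟩).coeff_natDegree
        rw [hWd] at this
        simp only at this
        rw [h, this, mul_one, sub_self]
      · have h5 : (W ⟨m, hm⟩).coeff k = 0 :=
          coeff_eq_zero_of_natDegree_lt (by rw [hWd]; simp only; omega)
        rw [(degree_lt_iff_coeff_zero _ _).1 hP' k (by omega), h5, mul_zero, sub_zero]
    have h2 := hco m (by omega) _ h1 ⟨m, hm⟩ le_rfl
    rw [map_sub, ← smul_eq_C_mul, map_smul, ← hw, map_sub, map_smul, w.repr_self] at h2
    simp at h2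
    linarith
  have hAw : ∀ k, A (w k) = F (X * W k) := fun k => by rw [hw, hA, hF, opA_fn]
  have hdeg : ∀ k : Fin (d + 1), (X * W k).natDegree = (k : ℕ) + 1 := by
    intro k
    rw [natDegree_mul X_ne_zero (hWm k).ne_zero, natDegree_X, hWd]; ring
  have hT0 : ∀ i j : Fin (d + 1), (j : ℕ) + 1 < i → w.repr (A (w j)) i = 0 := by
    intro i j hij
    rw [hAw]
    refine hco (j + 2) (by omega) _ ?_ i (by omega)
    refine lt_of_le_of_lt degree_le_natDegree ?_
    rw [hdeg]
    exact_mod_cast (by omega : (j : ℕ) + 1 < j + 2)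
  have hT1 : ∀ i j : Fin (d + 1), (i : ℕ) = j + 1 → w.repr (A (w j)) i ≠ 0 := by
    intro i j hij
    have hi : (⟨j + 1, by omega⟩ : Fin (d + 1)) = i := Fin.ext hij.symm
    rw [hAw, ← hi, hco1 (j + 1) (by omega)]
    · have h1 : (X * W j).Monic := monic_X.mul (hWm j)
      have := h1.coeff_natDegree
      rw [hdeg] at this
      rw [this]; exact one_ne_zero
    · refine lt_of_le_of_lt degree_le_natDegree ?_
      rw [hdeg]
      exact_mod_cast (by omega : (j : ℕ) + 1 < j + 1 + 1)
  -- the off-diagonal entries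
  have hlam0 : 1 ≤ d → lam 0 ≠ 0 := by
    intro hd h
    rw [l0] at h
    have := hinj 0 d (by omega) le_rfl (sub_eq_zero.1 h)
    omega
  have hp0 : ∀ i, i < d → p i ≠ 0 := by
    intro i hi
    by_cases h : i = 0
    · rw [hp]; simp only [h, if_true]; exact hlam0 (by omega)
    · rw [hp]; simp only [h, if_false]
      refine div_ne_zero ?_ (hden i (by omega) (by omega))
      have := hP i (by omega) (by omega)
      rwa [← l1, ← l0] at this
  have hn0 : ∀ i, 1 ≤ i → i ≤ d → n i ≠ 0 := by
    intro i hi hi'
    by_cases h : i = d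
    · rw [hn]; simp only [h, if_true]; exact hlam0 (by omega)
    · rw [hn]; simp only [h, if_false]
      refine div_ne_zero ?_ (hden i (by omega) (by omega))
      have := hN i (by omega) (by omega)
      rwa [← l1, ← l0] at this
  have hmat0 : ∀ i j : Fin (d + 1), 1 < |(i : ℤ) - (j : ℤ)| → mat d p n i j = 0 := by
    intro i j h
    rw [lt_abs] at h
    rw [mat, if_neg (by omega), if_neg (by omega), add_zero]
  have hmat1 : ∀ i j : Fin (d + 1), |(i : ℤ) - (j : ℤ)| = 1 → mat d p n i j ≠ 0 := by
    intro i j h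
    rw [abs_eq (by norm_num)] at h
    have hi := i.2
    have hj := j.2
    rcases h with h | h
    · rw [mat, if_neg (by omega), if_pos (by omega), zero_add]
      exact hn0 i (by omega) (by omega)
    · rw [mat, if_pos (by omega), if_neg (by omega), add_zero]
      exact hp0 i (by omega)
  -- the symmetrising weights
  let D : ℕ → ℝ := fun i => ∏ h ∈ Finset.range i, p h / n (h + 1)
  have hD0 : ∀ i, i ≤ d → D i ≠ 0 := by
    intro i hi
    refine Finset.prod_ne_zero_iff.2 fun h hh => ?_
    rw [Finset.mem_range] at hh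
    exact div_ne_zero (hp0 h (by omega)) (hn0 (h + 1) (by omega) (by omega))
  have hDs : ∀ i, i < d → D (i + 1) * n (i + 1) = D i * p i := by
    intro i hi
    have h1 := hn0 (i + 1) (by omega) (by omega)
    simp only [D, Finset.prod_range_succ]
    field_simp
  have hDsym : ∀ i j : Fin (d + 1), D i * mat d p n i j = D j * mat d p n j i := by
    intro i j
    have hi := i.2
    have hj := j.2
    by_cases h1 : (j : ℕ) = i + 1
    · rw [mat, mat, if_pos h1, if_neg (by omega), if_neg (by omega), if_pos h1, add_zero, zero_add,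
        h1, hDs i (by omega)]
    · by_cases h2 : (i : ℕ) = j + 1
      · rw [mat, mat, if_neg h1, if_pos h2, if_pos h2, if_neg h1, add_zero, zero_add,
          h2, hDs j (by omega)]
      · rw [mat, mat, if_neg h1, if_neg h2, if_neg h2, if_neg h1, add_zero, mul_zero, mul_zero]
  let S : (Fin (d + 1) → ℝ) → (Fin (d + 1) → ℝ) → ℝ := fun f g =>
    ∑ i : Fin (d + 1), D i * f i * g i
  have hScomm : ∀ f g, S f g = S g f := fun f g =>
    Finset.sum_congr rfl fun i _ => by ring
  have hSA : ∀ f g, S (A f) g = S f (A g) := fun f g =>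
    Finset.sum_congr rfl fun i _ => by rw [hA, opA_apply, opA_apply]; ring
  have hSB : ∀ f g, S (B f) g = S f (B g) := by
    intro f g
    simp only [S, hB, opB_apply, Finset.mul_sum, Finset.sum_mul]
    rw [Finset.sum_comm]
    refine Finset.sum_congr rfl fun j _ => Finset.sum_congr rfl fun i _ => ?_
    have := hDsym i j
    linear_combination (f j * g i) * this
  have hSsmulL : ∀ (c : ℝ) f g, S (c • f) g = c * S f g := by
    intro c f g
    simp only [S, Finset.mul_sum]
    exact Finset.sum_congr rfl fun i _ => by rw [Pi.smul_apply, smul_eq_mul]; ring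
  have hSsmulR : ∀ (c : ℝ) f g, S f (c • g) = c * S f g := by
    intro c f g
    rw [hScomm, hSsmulL, hScomm]
  have horth : ∀ j k : Fin (d + 1), j ≠ k → S (w j) (w k) = 0 := by
    intro j k hjk
    have h1 := hSB (w j) (w k)
    rw [hw, hw, hWe, hWe, hSsmulL, hSsmulR, ← hw, ← hw, ← sub_eq_zero, ← sub_mul] at h1
    rcases mul_eq_zero.1 h1 with h2 | h2
    · exfalso
      exact hjk (Fin.ext (hlam j k (by omega) (by omega) (sub_eq_zero.1 h2)))
    · exact h2
  have hSsum : ∀ (i : Fin (d + 1)) (x : Fin (d + 1) → ℝ), S (w i) x = w.repr x i * S (w i) (w i) := by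
    intro i x
    have h1 : ∀ (s : Finset (Fin (d + 1))) (c : Fin (d + 1) → ℝ),
        S (w i) (∑ k ∈ s, c k • w k) = ∑ k ∈ s, c k * S (w i) (w k) := by
      intro s c
      simp only [S, Finset.sum_apply, Pi.smul_apply, smul_eq_mul, Finset.mul_sum]
      rw [Finset.sum_comm]
      refine Finset.sum_congr rfl fun j _ => Finset.sum_congr rfl fun i _ => ?_
      ring
    conv_lhs => rw [← w.sum_repr x]
    rw [h1, Finset.sum_eq_single i]
    · intro j _ hj
      rw [horth i j (Ne.symm hj), mul_zero]
    · intro h; exact absurd (Finset.mem_univ _) h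
  have hSne : ∀ i, S (w i) (w i) ≠ 0 := by
    intro i h
    have h1 : ∀ x, S (w i) x = 0 := fun x => by rw [hSsum, h, mul_zero]
    apply w.ne_zero i
    funext k
    have h2 := h1 (Pi.single k 1)
    simp only [S] at h2
    rw [Finset.sum_eq_single k] at h2
    · rw [Pi.single_eq_same, mul_one] at h2
      exact (mul_eq_zero.1 h2).resolve_left (hD0 k (by omega))
    · intro j _ hj
      rw [Pi.single_eq_of_ne hj, mul_zero]
    · intro h; exact absurd (Finset.mem_univ _) h
  have hTsym : ∀ i k : Fin (d + 1), w.repr (A (w k)) i * S (w i) (w i) =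
      w.repr (A (w i)) k * S (w k) (w k) := by
    intro i k
    rw [← hSsum, ← hSsum, ← hSA, hScomm]
  have hTsym0 : ∀ i k : Fin (d + 1), w.repr (A (w k)) i = 0 → w.repr (A (w i)) k = 0 := by
    intro i k h
    have h1 := hTsym i k
    rw [h, zero_mul] at h1
    exact (mul_eq_zero.1 h1.symm).resolve_right (hSne k)
  have hvA : ∀ i : Fin (d + 1), A (Pi.basisFun ℝ (Fin (d + 1)) i) =
      t i • Pi.basisFun ℝ (Fin (d + 1)) i := by
    intro i
    funext k
    rw [hA, opA_apply, Pi.smul_apply, Pi.basisFun_apply, smul_eq_mul]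
    by_cases h : k = i
    · rw [h]
    · rw [Pi.single_eq_of_ne h, mul_zero, mul_zero]
  have hvB : ∀ i j : Fin (d + 1), (Pi.basisFun ℝ (Fin (d + 1))).repr
      (B (Pi.basisFun ℝ (Fin (d + 1)) j)) i = mat d p n i j := by
    intro i j
    rw [Pi.basisFun_repr, Pi.basisFun_apply, hB, opB_apply, Finset.sum_eq_single j]
    · rw [Pi.single_eq_same, mul_one]
    · intro k _ hk
      rw [Pi.single_eq_of_ne hk, mul_zero]
    · intro h; exact absurd (Finset.mem_univ _) h
  refine ⟨Pi.basisFun ℝ (Fin (d + 1)), w, A, B, fun k => lam k, ?_, hvA, ?_, ?_, ?_, ?_, ?_⟩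
  · exact fun i j hij => Fin.ext (hlam i j (by omega) (by omega) hij)
  · intro k
    rw [hw, hWe]
  · intro i j h
    rw [hvB, hmat0 i j h]
  · intro i j h
    rw [hvB]
    exact hmat1 i j h
  · intro i j h
    rw [lt_abs] at h
    rcases h with h | h
    · exact hT0 i j (by omega)
    · exact hTsym0 j i (hT0 j i (by omega))
  · intro i j h
    rw [abs_eq (by norm_num)] at h
    rcases h with h | h
    · exact hT1 i j (by omega)
    · intro h1
      exact hT1 j i (by omega) (hTsym0 i j h1)

/-- **existence** on an arbitrary space of dimension `d + 1` -/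
theorem exists_system {V : Type*} [AddCommGroup V] [Module ℝ V] (d : ℕ)
    (hV : Module.finrank ℝ V = d + 1) (t : ℕ → ℝ) (β : ℝ)
    (hinj : ∀ i j, i ≤ d → j ≤ d → t i = t j → i = j)
    (hrec : ∀ i, i + 2 ≤ d → t i + t (i + 2) = β * t (i + 1))
    (hlam : ∀ j k, j ≤ d → k ≤ d → t j - t (d - j) = t k - t (d - k) → j = k)
    (hN : ∀ i, 1 ≤ i → i + 1 ≤ d →
      (t 0 - t d) * (t (i + 1) - t 1) - (t 1 - t (d - 1)) * (t i - t 0) ≠ 0)
    (hP : ∀ i, 1 ≤ i → i + 1 ≤ d →
      (t 1 - t (d - 1)) * (t i - t 0) - (t 0 - t d) * (t (i - 1) - t 1) ≠ 0) :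
    ∃ Φ : LeonardSystem d V, Φ.θ = fun i : Fin (d + 1) => t i := by
  obtain ⟨v, w, A, As, θs, h0, h1, h2, h3, h4, h5, h6⟩ :=
    exists_system_aux d t β hinj hrec hlam hN hP
  have : Module.Finite ℝ V := Module.finite_of_finrank_eq_succ hV
  let e : (Fin (d + 1) → ℝ) ≃ₗ[ℝ] V := LinearEquiv.ofFinrankEq _ _ (by simp [hV])
  have hr : ∀ (b : Module.Basis (Fin (d + 1)) ℝ (Fin (d + 1) → ℝ))
      (f : Module.End ℝ (Fin (d + 1) → ℝ)) (i j : Fin (d + 1)),
      (b.map e).repr (e.conj f ((b.map e) j)) i = b.repr (f (b j)) i := by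
    intro b f i j
    simp [LinearEquiv.conj_apply]
  refine mk_system (v.map e) (w.map e) (e.conj A) (e.conj As)
    (fun i : Fin (d + 1) => t i) θs ?_ h0 ?_ ?_ ?_ ?_ ?_ ?_
  · exact fun i j hij => Fin.ext (hinj i j (by omega) (by omega) hij)
  · intro i; simp [LinearEquiv.conj_apply, h1]
  · intro i; simp [LinearEquiv.conj_apply, h2]
  · intro i j h; rw [hr]; exact h3 i j h
  · intro i j h; rw [hr]; exact h4 i j h
  · intro i j h; rw [hr]; exact h5 i j h
  · intro i j h; rw [hr]; exact h6 i j h

end Pool.Agent.K3h49.Leo
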