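import Pool.Agent.K3h49.Leo.Exist

/-!
# Leonard systems with trigonometric and hyperbolic eigenvalue sequences
-/

set_option autoImplicit false

namespace Pool.Agent.K3h49.Leo

/-- the difference of two terms -/
theorem cos_diff (φ ψ x y : ℂ) : Complex.cos (φ * x + ψ) - Complex.cos (φ * y + ψ) =
    -2 * Complex.sin (φ * (x + y) / 2 + ψ) * Complex.sin (φ * (x - y) / 2) := by
  rw [Complex.cos_sub_cos]
  congr 3
  · ring
  · ring

theorem ccos_add_nat_mul_pi (x : ℂ) (n : ℕ) :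
    Complex.cos (x + n * Real.pi) = (-1) ^ n * Complex.cos x := by
  induction n with
  | zero => simp
  | succ n ih =>
    have e : x + ((n + 1 : ℕ) : ℂ) * Real.pi = (x + n * Real.pi) + Real.pi := by push_cast; ring
    rw [e, Complex.cos_add_pi, ih, pow_succ]
    ring

/-- a Leonard system with the eigenvalue sequence `cos (φ i + ψ)`, complex `φ` and `ψ` -/
theorem exists_trig {V : Type*} [AddCommGroup V] [Module ℝ V] (d : ℕ)
    (hV : Module.finrank ℝ V = d + 1) (t : ℕ → ℝ) (φ ψ : ℂ) (β : ℝ)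
    (hβ : (β : ℂ) = 2 * Complex.cos φ) (ht : ∀ i : ℕ, (t i : ℂ) = Complex.cos (φ * i + ψ))
    (hinj : ∀ i j, i ≤ d → j ≤ d → t i = t j → i = j)
    (hcos : ∀ m : ℕ, 1 ≤ m → m < d → Complex.cos (φ * m / 2) ≠ 0) :
    ∃ Φ : LeonardSystem d V, Φ.θ = fun i : Fin (d + 1) => t i := by
  -- the nonvanishing factors
  have hne : ∀ i j : ℕ, i ≤ d → j ≤ d → i ≠ j →
      Complex.sin (φ * ((i : ℂ) + j) / 2 + ψ) ≠ 0 ∧ Complex.sin (φ * ((i : ℂ) - j) / 2) ≠ 0 := by
    intro i j hi hj hij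
    have h1 : (t i : ℂ) - t j ≠ 0 := by
      intro h
      have h2 : (t i : ℂ) = t j := sub_eq_zero.1 h
      exact hij (hinj i j hi hj (by exact_mod_cast h2))
    rw [ht, ht, cos_diff] at h1
    constructor
    · intro h; rw [h] at h1; simp at h1
    · intro h; rw [h] at h1; simp at h1
  apply exists_system d hV t β hinj
  · intro i _
    have h1 : ((t i + t (i + 2) : ℝ) : ℂ) = ((β * t (i + 1) : ℝ) : ℂ) := by
      push_cast
      rw [ht, ht, ht, hβ]
      push_cast
      have e1 : φ * ((i : ℂ) + 2) + ψ = (φ * (i + 1) + ψ) + φ := by ring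
      have e2 : φ * (i : ℂ) + ψ = (φ * (i + 1) + ψ) - φ := by ring
      rw [e1, e2, Complex.cos_add (φ * ((i : ℂ) + 1) + ψ), Complex.cos_sub]
      ring
    exact_mod_cast h1
  · intro j k hj hk h
    by_contra hjk
    have h0 : (0 : ℕ) ≠ d := by omega
    have f1 := (hne 0 d (by omega) le_rfl h0).1
    have f2 := (hne j k hj hk hjk).2
    have f3 : Complex.cos (φ * ((j : ℂ) + k - d) / 2) ≠ 0 := by
      rcases lt_trichotomy (j + k) d with h1 | h1 | h1
      · have h2 := hcos (d - (j + k)) (by omega) (by omega)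
        rw [Nat.cast_sub h1.le] at h2
        push_cast at h2
        have e : φ * ((j : ℂ) + k - d) / 2 = -(φ * ((d : ℂ) - (j + k)) / 2) := by ring
        rw [e, Complex.cos_neg]
        exact h2
      · have e : ((j : ℂ) + k - d) = 0 := by
          rw [← h1]; push_cast; ring
        rw [e]
        simp
      · have h2 := hcos (j + k - d) (by omega) (by omega)
        rw [Nat.cast_sub h1.le] at h2
        push_cast at h2
        exact h2
    have h1 : ((t j - t (d - j) - (t k - t (d - k)) : ℝ) : ℂ) = 0 := by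
      rw [h, sub_self]; simp
    push_cast at h1
    rw [ht, ht, ht, ht, Nat.cast_sub hj, Nat.cast_sub hk, cos_diff, cos_diff] at h1
    have e1 : φ * ((j : ℂ) + (d - j)) / 2 + ψ = φ * d / 2 + ψ := by ring
    have e2 : φ * ((k : ℂ) + (d - k)) / 2 + ψ = φ * d / 2 + ψ := by ring
    have e3 : φ * (((0 : ℕ) : ℂ) + d) / 2 + ψ = φ * d / 2 + ψ := by push_cast; ring
    rw [e3] at f1
    rw [e1, e2, mul_assoc, mul_assoc, ← mul_sub, ← mul_sub, Complex.sin_sub_sin] at h1
    have e4 : (φ * ((j : ℂ) - (d - j)) / 2 - φ * ((k : ℂ) - (d - k)) / 2) / 2 =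
      φ * ((j : ℂ) - k) / 2 := by ring
    have e5 : (φ * ((j : ℂ) - (d - j)) / 2 + φ * ((k : ℂ) - (d - k)) / 2) / 2 =
      φ * ((j : ℂ) + k - d) / 2 := by ring
    rw [e4, e5] at h1
    have h2 : (-2 : ℂ) * (Complex.sin (φ * d / 2 + ψ) * (2 * Complex.sin (φ * ((j : ℂ) - k) / 2) *
      Complex.cos (φ * ((j : ℂ) + k - d) / 2))) ≠ 0 :=
      mul_ne_zero (by norm_num) (mul_ne_zero f1 (mul_ne_zero (mul_ne_zero (by norm_num) f2) f3))
    exact h2 h1
  · intro i hi hi' h
    have f1 := (hne 0 d (by omega) le_rfl (by omega)).1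
    have f2 := (hne i 0 (by omega) (by omega) (by omega)).2
    have f3 := (hne (i + 1) (i - 1) (by omega) (by omega) (by omega)).2
    have f4 := (hne d i le_rfl (by omega) (by omega)).1
    rw [Nat.cast_sub hi] at f3
    push_cast at f1 f2 f3 f4
    have h1 : (((t 0 - t d) * (t (i + 1) - t 1) - (t 1 - t (d - 1)) * (t i - t 0) : ℝ) : ℂ) = 0 := by
      rw [h]; simp
    push_cast at h1
    rw [ht, ht, ht, ht, ht, ht, Nat.cast_sub (by omega : 1 ≤ d), cos_diff, cos_diff, cos_diff,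
      cos_diff] at h1
    push_cast at h1
    have a1 : φ * (0 + (d : ℂ)) / 2 + ψ = φ * d / 2 + ψ := by ring
    have a2 : φ * (0 - (d : ℂ)) / 2 = -(φ * d / 2) := by ring
    have a3 : φ * ((i : ℂ) + 1 + 1) / 2 + ψ = (φ * i / 2 + ψ) + φ := by ring
    have a4 : φ * ((i : ℂ) + 1 - 1) / 2 = φ * i / 2 := by ring
    have a5 : φ * (1 + ((d : ℂ) - 1)) / 2 + ψ = φ * d / 2 + ψ := by ring
    have a6 : φ * (1 - ((d : ℂ) - 1)) / 2 = -(φ * d / 2 - φ) := by ring
    have a7 : φ * ((i : ℂ) + 0) / 2 + ψ = φ * i / 2 + ψ := by ring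
    have a8 : φ * ((i : ℂ) - 0) / 2 = φ * i / 2 := by ring
    have a9 : φ * ((i : ℂ) + 1 - (i - 1)) / 2 = φ := by ring
    have a10 : φ * ((d : ℂ) + i) / 2 + ψ = φ * d / 2 + (φ * i / 2 + ψ) := by ring
    rw [a1, a2, a3, a4, a5, a6, a7, a8, Complex.sin_neg, Complex.sin_neg] at h1
    rw [a1] at f1
    rw [a8] at f2
    rw [a9] at f3
    rw [a10] at f4
    have key : Complex.sin (φ * d / 2) * Complex.sin (φ * i / 2 + ψ + φ) -
        Complex.sin (φ * d / 2 - φ) * Complex.sin (φ * i / 2 + ψ) =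
        Complex.sin φ * Complex.sin (φ * d / 2 + (φ * i / 2 + ψ)) := by
      rw [Complex.sin_add (φ * i / 2 + ψ) φ, Complex.sin_sub, Complex.sin_add (φ * d / 2)]
      ring
    have h2 : (-4 : ℂ) * (Complex.sin (φ * d / 2 + ψ) * (Complex.sin (φ * i / 2) *
        (Complex.sin φ * Complex.sin (φ * d / 2 + (φ * i / 2 + ψ))))) ≠ 0 :=
      mul_ne_zero (by norm_num) (mul_ne_zero f1 (mul_ne_zero f2 (mul_ne_zero f3 f4)))
    apply h2
    rw [← key]
    linear_combination h1
  · intro i hi hi' h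
    have f1 := (hne 0 d (by omega) le_rfl (by omega)).1
    have f2 := (hne i 0 (by omega) (by omega) (by omega)).1
    have f3 := (hne (i + 1) (i - 1) (by omega) (by omega) (by omega)).2
    have f4 := (hne d i le_rfl (by omega) (by omega)).2
    rw [Nat.cast_sub hi] at f3
    push_cast at f1 f2 f3 f4
    have h1 : (((t 1 - t (d - 1)) * (t i - t 0) - (t 0 - t d) * (t (i - 1) - t 1) : ℝ) : ℂ) = 0 := by
      rw [h]; simp
    push_cast at h1
    rw [ht, ht, ht, ht, ht, ht, Nat.cast_sub (by omega : 1 ≤ d), Nat.cast_sub hi, cos_diff,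
      cos_diff, cos_diff, cos_diff] at h1
    push_cast at h1
    have a1 : φ * (0 + (d : ℂ)) / 2 + ψ = φ * d / 2 + ψ := by ring
    have a2 : φ * (0 - (d : ℂ)) / 2 = -(φ * d / 2) := by ring
    have a3 : φ * ((i : ℂ) - 1 + 1) / 2 + ψ = φ * i / 2 + ψ := by ring
    have a4 : φ * ((i : ℂ) - 1 - 1) / 2 = φ * i / 2 - φ := by ring
    have a5 : φ * (1 + ((d : ℂ) - 1)) / 2 + ψ = φ * d / 2 + ψ := by ring
    have a6 : φ * (1 - ((d : ℂ) - 1)) / 2 = -(φ * d / 2 - φ) := by ring
    have a7 : φ * ((i : ℂ) + 0) / 2 + ψ = φ * i / 2 + ψ := by ring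
    have a8 : φ * ((i : ℂ) - 0) / 2 = φ * i / 2 := by ring
    have a9 : φ * ((i : ℂ) + 1 - (i - 1)) / 2 = φ := by ring
    have a10 : φ * ((d : ℂ) - i) / 2 = φ * d / 2 - φ * i / 2 := by ring
    rw [a1, a2, a3, a4, a5, a6, a7, a8, Complex.sin_neg, Complex.sin_neg] at h1
    rw [a1] at f1
    rw [a7] at f2
    rw [a9] at f3
    rw [a10] at f4
    have key : Complex.sin (φ * d / 2 - φ) * Complex.sin (φ * i / 2) -
        Complex.sin (φ * d / 2) * Complex.sin (φ * i / 2 - φ) =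
        Complex.sin φ * Complex.sin (φ * d / 2 - φ * i / 2) * (-1) * (-1) := by
      rw [Complex.sin_sub (φ * i / 2) φ, Complex.sin_sub (φ * d / 2) φ,
        Complex.sin_sub (φ * d / 2) (φ * i / 2)]
      ring
    have h2 : (-4 : ℂ) * (Complex.sin (φ * d / 2 + ψ) * (Complex.sin (φ * i / 2 + ψ) *
        (Complex.sin φ * Complex.sin (φ * d / 2 - φ * i / 2) * (-1) * (-1)))) ≠ 0 :=
      mul_ne_zero (by norm_num) (mul_ne_zero f1 (mul_ne_zero f2 (by
        refine mul_ne_zero (mul_ne_zero (mul_ne_zero f3 f4) (by norm_num)) (by norm_num))))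
    apply h2
    rw [← key]
    linear_combination h1

/-- the ordering by a sequence of cosines is attained -/
theorem exists_of_cos {V : Type*} [AddCommGroup V] [Module ℝ V] (d : ℕ)
    (hV : Module.finrank ℝ V = d + 1) (σ : Fin (d + 1) → Fin (d + 1)) (hσ : Function.Surjective σ)
    (a b : ℝ) (h : StrictAnti fun k => Real.cos (a * (σ k : ℕ) + b)) :
    ∃ Φ : LeonardSystem d V, StrictAnti fun k => Φ.θ (σ k) := by
  -- perturbation of `a`
  have hopen : IsOpen {x : ℝ | ∀ k l : Fin (d + 1), k < l →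
      Real.cos (x * (σ l : ℕ) + b) < Real.cos (x * (σ k : ℕ) + b)} := by
    simp only [Set.ofPred_forall]
    refine isOpen_iInter_of_finite fun k => isOpen_iInter_of_finite fun l => ?_
    refine isOpen_iInter_of_finite fun _ => ?_
    exact isOpen_lt (by fun_prop) (by fun_prop)
  have hbad : Set.Countable {x : ℝ | ∃ m : ℕ, 1 ≤ m ∧ Real.cos (x * m / 2) = 0} := by
    have h1 : {x : ℝ | ∃ m : ℕ, 1 ≤ m ∧ Real.cos (x * m / 2) = 0} ⊆
        Set.range (fun q : ℕ × ℤ => (2 * (q.2 : ℝ) + 1) * Real.pi / q.1) := by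
      rintro x ⟨m, hm, hx⟩
      obtain ⟨k, hk⟩ := Real.cos_eq_zero_iff.1 hx
      refine ⟨(m, k), ?_⟩
      have : (m : ℝ) ≠ 0 := by positivity
      simp only
      field_simp at hk ⊢
      linarith
    exact (Set.countable_range _).mono h1
  have hdense := hbad.dense_compl ℝ
  obtain ⟨x, hx, hx'⟩ := hdense.exists_mem_open hopen ⟨a, fun k l hkl => h hkl⟩
  have hinj : ∀ i j, i ≤ d → j ≤ d → Real.cos (x * i + b) = Real.cos (x * j + b) → i = j := by
    intro i j hi hj hij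
    obtain ⟨k, hk⟩ := hσ ⟨i, by omega⟩
    obtain ⟨l, hl⟩ := hσ ⟨j, by omega⟩
    have hk' : ((σ k : Fin (d + 1)) : ℕ) = i := by rw [hk]
    have hl' : ((σ l : Fin (d + 1)) : ℕ) = j := by rw [hl]
    rcases lt_trichotomy k l with h1 | h1 | h1
    · have := hx' k l h1
      rw [hk', hl', hij] at this
      exact absurd this (lt_irrefl _)
    · rw [← hk', ← hl', h1]
    · have := hx' l k h1
      rw [hk', hl', hij] at this
      exact absurd this (lt_irrefl _)
  obtain ⟨Φ, hΦ⟩ := exists_trig (V := V) d hV (fun i => Real.cos (x * i + b)) x b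
    (2 * Real.cos x) (by push_cast; ring) (by intro i; push_cast; ring_nf) hinj (by
      intro m hm _ h0
      apply hx
      refine ⟨m, hm, ?_⟩
      have : ((Real.cos (x * m / 2) : ℝ) : ℂ) = 0 := by
        rw [← h0]; push_cast; ring_nf
      exact_mod_cast this)
  refine ⟨Φ, fun k l hkl => ?_⟩
  rw [hΦ]
  exact hx' k l hkl

/-- the ordering by an alternating sequence of hyperbolic cosines is attained -/
theorem exists_of_cosh {V : Type*} [AddCommGroup V] [Module ℝ V] (d : ℕ)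
    (hV : Module.finrank ℝ V = d + 1) (σ : Fin (d + 1) → Fin (d + 1)) (hσ : Function.Surjective σ)
    (a b ε : ℝ) (hε : ε = 1 ∨ ε = -1)
    (h : StrictAnti fun k => ε * ((-1) ^ (σ k : ℕ) * Real.cosh (a * (σ k : ℕ) + b))) :
    ∃ Φ : LeonardSystem d V, StrictAnti fun k => Φ.θ (σ k) := by
  set t : ℕ → ℝ := fun i => ε * ((-1) ^ i * Real.cosh (a * i + b)) with ht
  have hinj : ∀ i j, i ≤ d → j ≤ d → t i = t j → i = j := by
    intro i j hi hj hij
    obtain ⟨k, hk⟩ := hσ ⟨i, by omega⟩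
    obtain ⟨l, hl⟩ := hσ ⟨j, by omega⟩
    have hk' : ((σ k : Fin (d + 1)) : ℕ) = i := by rw [hk]
    have hl' : ((σ l : Fin (d + 1)) : ℕ) = j := by rw [hl]
    have h1 := h.injective (a₁ := k) (a₂ := l) (by
      simp only [hk', hl']; exact hij)
    rw [← hk', ← hl', h1]
  obtain ⟨ψ₀, hψ₀⟩ : ∃ ψ₀ : ℝ, Real.cos ψ₀ = ε ∧ Real.sin ψ₀ = 0 := by
    rcases hε with h1 | h1
    · exact ⟨0, by simp [h1]⟩
    · exact ⟨Real.pi, by simp [h1]⟩
  have hform : ∀ i : ℕ, (t i : ℂ) =
      Complex.cos (((Real.pi : ℂ) + a * Complex.I) * i + (b * Complex.I + ψ₀)) := by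
    intro i
    have e : ((Real.pi : ℂ) + a * Complex.I) * i + (b * Complex.I + ψ₀) =
      (((a * i + b : ℝ) : ℂ) * Complex.I + ψ₀) + i * Real.pi := by push_cast; ring
    have c1 : Complex.cos ψ₀ = ε := by rw [← Complex.ofReal_cos, hψ₀.1]
    have c2 : Complex.sin ψ₀ = 0 := by rw [← Complex.ofReal_sin, hψ₀.2]; simp
    rw [e, ccos_add_nat_mul_pi, Complex.cos_add, c1, c2, Complex.cos_mul_I,
      ← Complex.ofReal_cosh]
    simp only [ht]
    push_cast
    ring
  have hcos : ∀ m : ℕ, 1 ≤ m → m < d →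
      Complex.cos (((Real.pi : ℂ) + a * Complex.I) * m / 2) ≠ 0 := by
    intro m hm hmd h0
    have ha : a ≠ 0 := by
      intro ha
      have := hinj 0 2 (by omega) (by omega) (by simp [ht, ha])
      omega
    rw [Complex.cos_eq_zero_iff] at h0
    obtain ⟨k, hk⟩ := h0
    have h1 := congrArg Complex.im hk
    have e1 : (((Real.pi : ℂ) + a * Complex.I) * m / 2) =
      ((Real.pi * m / 2 : ℝ) : ℂ) + ((a * m / 2 : ℝ) : ℂ) * Complex.I := by push_cast; ring
    have e2 : (2 * (k : ℂ) + 1) * Real.pi / 2 = (((2 * (k : ℝ) + 1) * Real.pi / 2 : ℝ) : ℂ) := by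
      push_cast; ring
    rw [e1, e2] at h1
    simp only [Complex.add_im, Complex.ofReal_im, Complex.mul_im, Complex.ofReal_re,
      Complex.I_re, Complex.I_im] at h1
    have : (m : ℝ) ≠ 0 := by positivity
    have h2 : a * m = 0 := by linarith
    rcases mul_eq_zero.1 h2 with h3 | h3
    · exact ha h3
    · exact this h3
  obtain ⟨Φ, hΦ⟩ := exists_trig (V := V) d hV t _ _ (-2 * Real.cosh a) (by
    rw [add_comm, Complex.cos_add_pi, Complex.cos_mul_I, ← Complex.ofReal_cosh]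
    push_cast; ring) hform hinj hcos
  refine ⟨Φ, fun k l hkl => ?_⟩
  rw [hΦ]
  exact h hkl

end Pool.Agent.K3h49.Leo
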