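import Pool.Agent.K3h49.Leo.Core
import Pool.Agent.K3h49.Leo.Classify
import Pool.Agent.K3h49.Leo.Trig

/-!
# The orderings of the eigenvalue sequences of real Leonard systems
-/

set_option autoImplicit false

namespace Pool.Agent.K3h49.Leo

theorem necessity {V : Type*} [AddCommGroup V] [Module ℝ V] (d : ℕ)
    (hV : Module.finrank ℝ V = d + 1) (Φ : LeonardSystem d V) (t : ℕ → ℝ)
    (ht : ∀ i : Fin (d + 1), t i = Φ.θ i) : TypeT d t ∨ TypeH d t := by
  have hinj : ∀ i j, i ≤ d → j ≤ d → t i = t j → i = j := by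
    intro i j hi hj hij
    have h1 := ht ⟨i, by omega⟩
    have h2 := ht ⟨j, by omega⟩
    simp only at h1 h2
    rw [h1, h2] at hij
    exact congrArg Fin.val (Φ.prim.inj hij)
  by_cases hd : 3 ≤ d
  · obtain ⟨v, hv, hvE⟩ := Φ.prim.exists_basis hV
    obtain ⟨w, hw, hwE⟩ := Φ.prims.exists_basis hV
    have hpE : ∀ i, Φ.E i = proj v i := fun i =>
      LinearMap.ext fun x => by rw [hvE, proj_apply]
    have hpEs : ∀ i, Φ.Es i = proj w i := fun i =>
      LinearMap.ext fun x => by rw [hwE, proj_apply]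
    have hB : ∀ i j : Fin (d + 1), 1 < |(i : ℤ) - (j : ℤ)| → v.repr (Φ.As (v j)) i = 0 := by
      intro i j h
      rw [← proj_mul_mul, ← hpE, ← hpE]
      exact Φ.far i j h
    have hA : ∀ i j : Fin (d + 1), (j : ℕ) + 1 < i → w.repr (Φ.A (w j)) i = 0 := by
      intro i j h
      rw [← proj_mul_mul, ← hpEs, ← hpEs]
      apply Φ.fars i j
      rw [lt_abs]
      omega
    have hA1 : ∀ i j : Fin (d + 1), (i : ℕ) = j + 1 → w.repr (Φ.A (w j)) i ≠ 0 := by
      intro i j h h1
      rw [← proj_mul_mul, ← hpEs, ← hpEs] at h1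
      refine Φ.nears i j ?_ h1
      rw [h]
      push_cast
      simp
    obtain ⟨c₁, c₂, c₃, hc⟩ := consecutive Φ.prims.inj hv hw hB hA hA1 hd
    obtain ⟨β, γ, hβ⟩ := three_term d t hd hinj c₁ c₂ c₃ (by
      intro i hi
      have h := hc i (by omega)
      have h1 := ht ⟨i, by omega⟩
      have h2 := ht ⟨i + 1, by omega⟩
      simp only at h1 h2
      rw [h1, h2]
      exact h)
    exact classify d t β γ hinj hβ
  · refine classify d t 0 (t 0 + t 2) hinj fun i hi => ?_
    have : i = 0 := by omega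
    rw [this]
    ring

theorem strictAnti_of_same {d : ℕ} {x y : ℕ → ℝ} (h : SameOrder d x y)
    (σ : Equiv.Perm (Fin (d + 1))) (hx : StrictAnti fun k => x (σ k : ℕ)) :
    StrictAnti fun k => y (σ k : ℕ) := by
  intro k l hkl
  exact (h _ _ (by omega) (by omega)).1 (hx hkl)

theorem main {V : Type*} [AddCommGroup V] [Module ℝ V] (d : ℕ)
    (hV : Module.finrank ℝ V = d + 1) (σ : Equiv.Perm (Fin (d + 1))) :
    (∃ Φ : LeonardSystem d V, StrictAnti fun k => Φ.θ (σ k)) ↔
      (∃ a b : ℝ, StrictAnti fun k => Real.cos (a * (σ k : ℕ) + b)) ∨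
      (∃ a b ε : ℝ, (ε = 1 ∨ ε = -1) ∧
        StrictAnti fun k => ε * ((-1) ^ (σ k : ℕ) * Real.cosh (a * (σ k : ℕ) + b))) := by
  constructor
  · rintro ⟨Φ, hΦ⟩
    set t : ℕ → ℝ := fun i => if h : i < d + 1 then Φ.θ ⟨i, h⟩ else 0 with ht
    have ht' : ∀ i : Fin (d + 1), t i = Φ.θ i := fun i => dif_pos i.2
    have hx : StrictAnti fun k => t (σ k : ℕ) := by
      intro k l hkl
      simp only [ht']
      exact hΦ hkl
    rcases necessity d hV Φ t ht' with ⟨a, b, h⟩ | ⟨a, b, h | h⟩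
    · exact Or.inl ⟨a, b, strictAnti_of_same h σ hx⟩
    · refine Or.inr ⟨a, b, 1, Or.inl rfl, ?_⟩
      simp only [one_mul]
      exact strictAnti_of_same h σ hx
    · refine Or.inr ⟨a, b, -1, Or.inr rfl, ?_⟩
      simp only [neg_mul, one_mul]
      exact strictAnti_of_same h σ hx
  · rintro (⟨a, b, h⟩ | ⟨a, b, ε, hε, h⟩)
    · exact exists_of_cos d hV σ σ.surjective a b h
    · exact exists_of_cosh d hV σ σ.surjective a b ε hε h

end Pool.Agent.K3h49.Leo
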